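import Pool.Agent.Y290.MI.BB

/-! # Competitors: S_B1, S_B2 -/

set_option autoImplicit false

open MeasureTheory Set Metric Filter Topology
open scoped ENNReal Real

noncomputable section

namespace Pool.Agent.Y290.MI

open Pool.Agent.TH304.MI

lemma inner_abs (z v : ℂ) : |(innerSL ℝ z) v| ≤ ‖z‖ * ‖v‖ := by
  rw [innerSL_apply_apply]
  exact abs_real_inner_le_norm z v

lemma m0_pos (b : ℕ) : 0 < m0 b := by unfold m0; positivity

lemma U_cd (b : ℕ) : ContDiff ℝ 1 (U b) := by
  unfold U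
  fun_prop

theorem t_B1 : S_B1 := by
  intro b A hA hA1 C hP t0 κ ht0 ht1 hκ hU hL Z hZ
  obtain ⟨η0, hη0, hη1, hη2⟩ := fact3 ht1 hU
  set A' : Set ℂ := D1 \ A with hA'
  have hA'm : MeasurableSet A' := D1_meas.diff hA
  have hA'1 : A' ⊆ D1 := sdiff_subset
  have hB1 : ball (0 : ℂ) t0 ⊆ D1 := ball_sub_D1 ht1.le
  obtain ⟨M, hM⟩ := (dv2_supp hZ.cs).exists_bound_of_continuous (dv2_cont hZ.cd)
  have hM0 : 0 ≤ M := (norm_nonneg _).trans (hM 0)
  have hL' : Tendsto (fun η : ℝ => η⁻¹ * ∫ r in t0..(t0 + η), al A' r) (𝓝[>] 0) (𝓝 0) := by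
    refine hL.congr' ?_
    filter_upwards [Ioo_mem_nhdsGT hη0] with η hη
    congr 1
    apply intervalIntegral.integral_congr
    intro r hr
    rw [uIcc_of_le (by linarith [hη.1])] at hr
    exact (al_compl hA hA1 ⟨by linarith [hr.1], by linarith [hr.2, hη.2]⟩).symm
  have main : ∀ δ : ℝ, 0 < δ → δ < η0 → 2 * δ < t0 → 4 * δ < 1 - t0 →
      ∫ z in A ∪ ball 0 t0, dv2 Z z ≤ C - κ * ms b (ball 0 t0 \ A) +
        ((M * δ + 2 * (1 + δ)) * (δ⁻¹ * ∫ r in t0..(t0 + δ), al A' r) + 5 * κ * (4 * π * δ)) := by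
    intro δ hδ hδη hδt hδ1
    obtain ⟨θ, a1, a2, a3, a4, a5⟩ := exists_theta t0 hδ
    obtain ⟨χ, c1, c2, c3, c4, c5, c6, c7⟩ := exists_cut (p := 0) (q := 1) (δ := δ) hδ
      (by linarith) (by linarith)
    set N : ℝ → ℝ := fun r => -(κ * (χ r * U b r)) with hN
    have hNc : ContDiff ℝ 1 N := (contDiff_const.mul (c1.mul (U_cd b))).neg
    have hNC : Cc N := by
      refine Cc.of_bounds hNc hδ (fun r hr => ?_) (fun r hr => ?_)
      · simp only [hN, c2 r (by linarith), zero_mul, mul_zero, neg_zero]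
      · simp only [hN, c3 r (by linarith), zero_mul, mul_zero, neg_zero]
    have hNd : ∀ r, deriv N r = -(κ * (deriv χ r * U b r + χ r * (r * (1 - r) ^ b))) := by
      intro r
      have h1 := (c1.differentiable (by norm_num) r).hasDerivAt
      have h3 := U_hasDeriv b r
      exact (((h1.mul h3).const_mul κ).neg).deriv
    have hNb : ∀ r ∈ Ioo (0 : ℝ) (t0 + δ), |N r| ≤ r * (1 - r) ^ b := by
      intro r hr
      have h1 := U_pos (b := b) hr.1 (by linarith [hr.2])
      have h2 : |N r| ≤ κ * U b r := by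
        simp only [hN]
        rw [abs_neg, abs_mul, abs_mul, abs_of_pos hκ, abs_of_nonneg (c5 r).1, abs_of_pos h1]
        have := (c5 r).2
        have h5 : χ r * U b r ≤ 1 * U b r := by gcongr
        rw [one_mul] at h5
        gcongr
      rcases le_or_gt r t0 with h | h
      · exact h2.trans (fact1 ht0 ht1 hκ hU hr.1 h).le
      · exact h2.trans (hη2 r ⟨h.le, by linarith [hr.2]⟩).le
    -- the field
    have hrf : ∀ z : ℂ, ‖z‖ < t0 + δ → ‖rf N z‖ ≤ (1 - ‖z‖) ^ b := by
      intro z hz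
      by_cases hz0 : z = 0
      · subst hz0
        unfold rf
        simp
      · have hn : 0 < ‖z‖ := norm_pos_iff.2 hz0
        rw [rf_norm, div_le_iff₀ hn, mul_comm]
        exact hNb _ ⟨hn, hz⟩
    have hfl : Fl2 b (D1 \ {0}) (mx θ Z (rf N)) := by
      refine ⟨mx_cd a1 ht0 a2 hZ.cd (rf_cd hNC), mx_cs hZ.cs (rf_supp hNC).1, ?_, ?_⟩
      · intro z hz
        refine ⟨?_, ?_⟩
        · rcases mx_supp hz with h | h
          · exact hZ.sub h
          · exact ((rf_supp hNC).2 h).1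
        · intro h0
          rw [mem_singleton_iff] at h0
          subst h0
          apply notMem_tsupport_iff_eventuallyEq.2 _ hz
          have h2 : (0 : ℂ) ∉ tsupport (rf N) := fun h => ((rf_supp hNC).2 h).2 rfl
          filter_upwards [notMem_tsupport_iff_eventuallyEq.1 h2, ball_mem_nhds (0 : ℂ) ht0]
            with y hy1 hy2
          rw [mem_ball_zero_iff] at hy2
          rw [mx_eq, a2 _ hy2.le, hy1]
          simp
      · intro z hz
        rw [mx_eq]
        refine (norm_add_le _ _).trans ?_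
        have h1 := a4 ‖z‖
        have h2 := hZ.bd z hz
        rw [norm_smul, norm_smul, Real.norm_of_nonneg (sub_nonneg.2 h1.2),
          Real.norm_of_nonneg h1.1]
        have hw : 0 ≤ (1 - ‖z‖) ^ b := pow_nonneg (by linarith) _
        rcases lt_or_ge ‖z‖ (t0 + δ) with h | h
        · have h3 := hrf z h
          have k1 := mul_le_mul_of_nonneg_left h2 (sub_nonneg.2 h1.2)
          have k2 := mul_le_mul_of_nonneg_left h3 h1.1
          linarith
        · rw [a3 _ h, sub_zero, one_mul, zero_mul, add_zero]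
          exact h2
    have hC := hP _ hfl
    -- pointwise
    set K : ℝ := M + 2 * ((1 + δ) / δ) with hK
    have hK0 : 0 ≤ K := by positivity
    have hpt : ∀ z ∈ A', dv2 (mx θ Z (rf N)) z +
        κ * (ball (0 : ℂ) t0).indicator (fun z => (1 - ‖z‖) ^ b) z -
        ((Ico t0 (t0 + δ)).indicator (fun _ => K) ‖z‖ +
          (Ico 0 (2 * δ)).indicator (fun _ => 5 * κ) ‖z‖) ≤
        (ball (0 : ℂ) t0)ᶜ.indicator (dv2 Z) z := by
      intro z hz
      have hz1 : ‖z‖ < 1 := mem_ball_zero_iff.1 (hA'1 hz)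
      have hw : 0 ≤ (1 - ‖z‖) ^ b := pow_nonneg (by linarith) _
      have hw1 : (1 - ‖z‖) ^ b ≤ 1 := pow_le_one₀ (by linarith) (by linarith [norm_nonneg z])
      have i2 : 0 ≤ (Ico 0 (2 * δ)).indicator (fun _ => 5 * κ) ‖z‖ :=
        indicator_nonneg (fun _ _ => by positivity) _
      rw [mx_dv2 a1 ht0 a2 hZ.cd (rf_cd hNC), rf_dv2 hNC]
      rcases lt_or_ge ‖z‖ t0 with h | h
      · -- inside
        have hzB : z ∈ ball (0 : ℂ) t0 := mem_ball_zero_iff.2 h
        rw [indicator_of_mem hzB, indicator_of_notMem (fun h2 : z ∈ (ball (0 : ℂ) t0)ᶜ => h2 hzB),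
          indicator_of_notMem (fun h2 : ‖z‖ ∈ Ico t0 (t0 + δ) => by linarith [h2.1]),
          a2 _ h.le, (a5 ‖z‖).2.2 (fun h2 => by linarith [h2.1])]
        have e1 : dv2 Z z + 1 * (deriv N ‖z‖ / ‖z‖ - dv2 Z z) + 0 / ‖z‖ *
            (innerSL ℝ z) (rf N z - Z z) = deriv N ‖z‖ / ‖z‖ := by ring
        rw [e1, hNd]
        rcases eq_or_lt_of_le (norm_nonneg z) with h0 | h0
        · rw [← h0]
          have : (0 : ℝ) ∈ Ico 0 (2 * δ) := ⟨le_rfl, by linarith⟩
          rw [indicator_of_mem this]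
          simp
          linarith
        · have e2 : -(κ * (deriv χ ‖z‖ * U b ‖z‖ + χ ‖z‖ * (‖z‖ * (1 - ‖z‖) ^ b))) / ‖z‖ =
              -(κ * (deriv χ ‖z‖ * U b ‖z‖ / ‖z‖ + χ ‖z‖ * (1 - ‖z‖) ^ b)) := by
            field_simp
          rw [e2]
          rcases lt_or_ge ‖z‖ (2 * δ) with h3 | h3
          · rw [indicator_of_mem (show ‖z‖ ∈ Ico 0 (2 * δ) from ⟨h0.le, h3⟩)]
            have h4 : |deriv χ ‖z‖ * U b ‖z‖ / ‖z‖| ≤ 4 := by
              rw [abs_div, abs_of_pos h0, div_le_iff₀ h0, abs_mul,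
                abs_of_pos (U_pos (b := b) h0 hz1.le)]
              have h5 := U_le_sq (b := b) h0.le hz1.le
              calc |deriv χ ‖z‖| * U b ‖z‖ ≤ (2 / δ) * (‖z‖ * ‖z‖) := by
                    rw [← sq]
                    exact mul_le_mul (c6 _) h5 (U_pos (b := b) h0 hz1.le).le (by positivity)
                _ ≤ (2 / δ) * ((2 * δ) * ‖z‖) := by gcongr
                _ = 4 * ‖z‖ := by field_simp; ring
            have h6 := (abs_le.1 h4).1
            have h7 : 0 ≤ χ ‖z‖ * (1 - ‖z‖) ^ b := mul_nonneg (c5 _).1 hw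
            have h8 : -(κ * (deriv χ ‖z‖ * U b ‖z‖ / ‖z‖ + χ ‖z‖ * (1 - ‖z‖) ^ b)) ≤ κ * 4 := by
              rw [← mul_neg]
              apply mul_le_mul_of_nonneg_left _ hκ.le
              linarith
            have h9 : κ * (1 - ‖z‖) ^ b ≤ κ * 1 := by gcongr
            linarith
          · rw [indicator_of_notMem (fun h4 : ‖z‖ ∈ Ico 0 (2 * δ) => by linarith [h4.2]),
              c7 _ (by linarith) (by linarith), c4 _ (by linarith) (by linarith)]
            apply le_of_eq
            ring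
      · -- outside
        have hzB : z ∉ ball (0 : ℂ) t0 := fun h2 => by
          rw [mem_ball_zero_iff] at h2
          linarith
        rw [indicator_of_notMem hzB, indicator_of_mem (show z ∈ (ball (0 : ℂ) t0)ᶜ from hzB),
          mul_zero, add_zero]
        rcases lt_or_ge ‖z‖ (t0 + δ) with h3 | h3
        · rw [indicator_of_mem (show ‖z‖ ∈ Ico t0 (t0 + δ) from ⟨h, h3⟩)]
          have h0 : 0 < ‖z‖ := ht0.trans_le h
          have e2 : deriv N ‖z‖ / ‖z‖ = -(κ * (1 - ‖z‖) ^ b) := by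
            rw [hNd, c7 _ (by linarith) (by linarith), c4 _ (by linarith) (by linarith)]
            field_simp
            ring
          rw [e2]
          have h4 := a4 ‖z‖
          have h5 := abs_le.1 (hM z)
          have h6 : |deriv θ ‖z‖ / ‖z‖ * (innerSL ℝ z) (rf N z - Z z)| ≤
              (1 + δ) / δ * 2 := by
            rw [abs_mul, abs_div, abs_of_pos h0]
            have k1 := inner_abs z (rf N z - Z z)
            have k2 : ‖rf N z - Z z‖ ≤ 2 := by
              refine (norm_sub_le _ _).trans ?_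
              linarith [hrf z h3, hZ.bd z hz1]
            have k3 : |deriv θ ‖z‖| ≤ (1 + δ) / δ := by
              rw [abs_of_nonpos (a5 _).1]
              linarith [(a5 ‖z‖).2.1]
            calc |deriv θ ‖z‖| / ‖z‖ * |(innerSL ℝ z) (rf N z - Z z)| ≤
                  |deriv θ ‖z‖| / ‖z‖ * (‖z‖ * ‖rf N z - Z z‖) := by gcongr
              _ = |deriv θ ‖z‖| * ‖rf N z - Z z‖ := by field_simp
              _ ≤ (1 + δ) / δ * 2 := mul_le_mul k3 k2 (norm_nonneg _) (by positivity)
          have h7 := (abs_le.1 h6).2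
          have h8 : θ ‖z‖ * (-(κ * (1 - ‖z‖) ^ b) - dv2 Z z) ≤ M := by
            have k1 : -(κ * (1 - ‖z‖) ^ b) - dv2 Z z ≤ M := by
              have : 0 ≤ κ * (1 - ‖z‖) ^ b := by positivity
              linarith
            calc θ ‖z‖ * (-(κ * (1 - ‖z‖) ^ b) - dv2 Z z) ≤ θ ‖z‖ * M := by
                  apply mul_le_mul_of_nonneg_left k1 h4.1
              _ ≤ 1 * M := by
                  apply mul_le_mul_of_nonneg_right h4.2 hM0
              _ = M := one_mul _
          rw [hK]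
          linarith
        · rw [indicator_of_notMem (fun h4 : ‖z‖ ∈ Ico t0 (t0 + δ) => by linarith [h4.2]),
            a3 _ h3, (a5 ‖z‖).2.2 (fun h2 => by linarith [h2.2])]
          have e1 : dv2 Z z + 0 * (deriv N ‖z‖ / ‖z‖ - dv2 Z z) + 0 / ‖z‖ *
            (innerSL ℝ z) (rf N z - Z z) = dv2 Z z := by ring
          rw [e1]
          linarith
    -- integrate
    have j1 : IntegrableOn (dv2 (mx θ Z (rf N))) A' :=
      (dv2_int hfl.cd hfl.cs).integrableOn
    have j2 : IntegrableOn (fun z => κ * (ball (0 : ℂ) t0).indicator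
        (fun z => (1 - ‖z‖) ^ b) z) A' := by
      apply Integrable.const_mul
      exact (wt_int.mono_set hA'1).indicator measurableSet_ball
    obtain ⟨j3, k3⟩ := ann hA'm hA'1 (a := t0) (b := t0 + δ) (c := K) (by linarith) hK0
    obtain ⟨j4, k4⟩ := ann hA'm hA'1 (a := 0) (b := 2 * δ) (c := 5 * κ) (by linarith)
      (by positivity)
    have j5 : IntegrableOn ((ball (0 : ℂ) t0)ᶜ.indicator (dv2 Z)) A' :=
      ((dv2_int hZ.cd hZ.cs).indicator measurableSet_ball.compl).integrableOn
    have j12 : IntegrableOn (fun z => dv2 (mx θ Z (rf N)) z +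
        κ * (ball (0 : ℂ) t0).indicator (fun z => (1 - ‖z‖) ^ b) z) A' := j1.add j2
    have j34 : IntegrableOn (fun z : ℂ => (Ico t0 (t0 + δ)).indicator (fun _ => K) ‖z‖ +
          (Ico 0 (2 * δ)).indicator (fun _ => 5 * κ) ‖z‖) A' := j3.add j4
    have hint := setIntegral_mono_on (j12.sub j34) j5 hA'm hpt
    have e0 : ∫ z in A', ((fun z => dv2 (mx θ Z (rf N)) z +
        κ * (ball (0 : ℂ) t0).indicator (fun z => (1 - ‖z‖) ^ b) z) -
        fun z : ℂ => (Ico t0 (t0 + δ)).indicator (fun _ => K) ‖z‖ +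
          (Ico 0 (2 * δ)).indicator (fun _ => 5 * κ) ‖z‖) z =
        ((∫ z in A', dv2 (mx θ Z (rf N)) z) + ∫ z in A', κ * (ball (0 : ℂ) t0).indicator
          (fun z => (1 - ‖z‖) ^ b) z) - ((∫ z in A', (Ico t0 (t0 + δ)).indicator (fun _ => K) ‖z‖) +
          ∫ z in A', (Ico 0 (2 * δ)).indicator (fun _ => 5 * κ) ‖z‖) := by
      rw [← integral_add j1 j2, ← integral_add j3 j4, ← integral_sub j12 j34]
      rfl
    rw [e0] at hint
    have e1 : ∫ z in A', dv2 (mx θ Z (rf N)) z = -∫ z in A, dv2 (mx θ Z (rf N)) z :=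
      compl_int sdiff_subset hfl hA hA1
    have e2 : ∫ z in A', κ * (ball (0 : ℂ) t0).indicator (fun z => (1 - ‖z‖) ^ b) z =
        κ * ms b (ball 0 t0 \ A) := by
      rw [integral_const_mul, setIntegral_indicator measurableSet_ball]
      have : A' ∩ ball (0 : ℂ) t0 = ball 0 t0 \ A := by
        ext z
        simp only [hA', mem_inter_iff, Set.mem_sdiff]
        constructor
        · rintro ⟨⟨_, h2⟩, h3⟩
          exact ⟨h3, h2⟩
        · rintro ⟨h2, h3⟩
          exact ⟨⟨hB1 h2, h3⟩, h2⟩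
      rw [this]
      rfl
    have e3 : ∫ z in A', (ball (0 : ℂ) t0)ᶜ.indicator (dv2 Z) z =
        -∫ z in A ∪ ball 0 t0, dv2 Z z := by
      rw [setIntegral_indicator measurableSet_ball.compl,
        ← compl_int le_rfl hZ (hA.union measurableSet_ball) (union_subset hA1 hB1)]
      congr 2
      ext z
      simp only [hA', mem_inter_iff, Set.mem_sdiff, mem_compl_iff, mem_union]
      tauto
    rw [e1, e2, e3] at hint
    have e4 : ∫ r in (0 : ℝ)..(2 * δ), al A' r ≤ 4 * π * δ := by
      have := int_al_le hA'm (a := 0) (b := 2 * δ) (by linarith)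
      linarith
    have e5 : 5 * κ * ∫ r in (0 : ℝ)..(2 * δ), al A' r ≤ 5 * κ * (4 * π * δ) := by
      gcongr
    have e6 : K * ∫ r in t0..(t0 + δ), al A' r =
        (M * δ + 2 * (1 + δ)) * (δ⁻¹ * ∫ r in t0..(t0 + δ), al A' r) := by
      rw [hK]
      field_simp
    linarith
  have hlim : Tendsto (fun δ : ℝ => C - κ * ms b (ball 0 t0 \ A) +
        ((M * δ + 2 * (1 + δ)) * (δ⁻¹ * ∫ r in t0..(t0 + δ), al A' r) + 5 * κ * (4 * π * δ)))
      (𝓝[>] 0) (𝓝 (C - κ * ms b (ball 0 t0 \ A) +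
        ((M * 0 + 2 * (1 + 0)) * 0 + 5 * κ * (4 * π * 0)))) := by
    have h1 : Tendsto (fun δ : ℝ => M * δ + 2 * (1 + δ)) (𝓝[>] 0) (𝓝 (M * 0 + 2 * (1 + 0))) := by
      have : Continuous (fun δ : ℝ => M * δ + 2 * (1 + δ)) := by fun_prop
      exact (this.tendsto 0).mono_left nhdsWithin_le_nhds
    have h2 : Tendsto (fun δ : ℝ => 5 * κ * (4 * π * δ)) (𝓝[>] 0) (𝓝 (5 * κ * (4 * π * 0))) := by
      have : Continuous (fun δ : ℝ => 5 * κ * (4 * π * δ)) := by fun_prop
      exact (this.tendsto 0).mono_left nhdsWithin_le_nhds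
    exact ((h1.mul hL').add h2).const_add _
  have hfin := ge_of_tendsto hlim (by
    filter_upwards [Ioo_mem_nhdsGT hη0, Ioo_mem_nhdsGT (show 0 < t0 / 2 by linarith),
      Ioo_mem_nhdsGT (show 0 < (1 - t0) / 4 by linarith)] with δ h1 h2 h3
    exact main δ h1.1 h1.2 (by linarith [h2.2]) (by linarith [h3.2]))
  simpa using hfin

theorem t_B2 : S_B2 := by
  intro b hb A hA hA1 C hP R κ hR0 hR1 hκe Z hZ
  have hmR := mU_pos (b := b) hR0.le hR1
  have hκ : 0 < κ := by
    have := gpos (b := b) hR0 hR1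
    rw [← hκe] at this
    exact (pos_iff_pos_of_mul_pos this).2 hmR
  obtain ⟨M, hM⟩ := (dv2_supp hZ.cs).exists_bound_of_continuous (dv2_cont hZ.cd)
  have hM0 : 0 ≤ M := (norm_nonneg _).trans (hM 0)
  set d : ℝ → ℝ := fun δ => (1 - R) ^ b - κ * (m0 b - U b (R + δ)) / (R + δ) with hd
  have main : ∀ δ : ℝ, 0 < δ → 2 * δ < R → 4 * δ < 1 - R →
      ∫ z in A ∩ ball 0 R, dv2 Z z ≤ C + κ * ms b (A \ ball 0 R) +
        ((M * δ + (1 + δ) * d δ) * (2 * π) + κ * (8 * δ) / R * (2 * π)) := by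
    intro δ hδ hδt hδ1
    obtain ⟨θ, a1, a2, a3, a4, a5⟩ := exists_theta R hδ
    obtain ⟨χ, c1, c2, c3, c4, c5, c6, c7⟩ := exists_cut (p := 0) (q := 1) (δ := δ) hδ
      (by linarith) (by linarith)
    set N : ℝ → ℝ := fun r => κ * (χ r * (m0 b - U b r)) with hN
    have hNc : ContDiff ℝ 1 N := contDiff_const.mul (c1.mul (contDiff_const.sub (U_cd b)))
    have hNC : Cc N := by
      refine Cc.of_bounds hNc hδ (fun r hr => ?_) (fun r hr => ?_)
      · simp only [hN, c2 r (by linarith), zero_mul, mul_zero]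
      · simp only [hN, c3 r (by linarith), zero_mul, mul_zero]
    have hNd : ∀ r, deriv N r = κ * (deriv χ r * (m0 b - U b r) - χ r * (r * (1 - r) ^ b)) := by
      intro r
      have h1 := (c1.differentiable (by norm_num) r).hasDerivAt
      have h3 := (U_hasDeriv b r).const_sub (m0 b)
      refine (((h1.mul h3).const_mul κ).deriv).trans ?_
      ring
    have hd0 : 0 ≤ d δ := by
      have h1 := fact2 hR0 hκ hκe.le (r := R + δ) (by linarith) (by linarith)
      have h2 : κ * (m0 b - U b (R + δ)) / (R + δ) ≤ (1 - (R + δ)) ^ b := by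
        rw [div_le_iff₀ (by linarith), mul_comm ((1 - (R + δ)) ^ b)]
        exact h1
      have h3 : (1 - (R + δ)) ^ b ≤ (1 - R) ^ b :=
        pow_le_pow_left₀ (by linarith) (by linarith) b
      simp only [hd]
      linarith
    -- the field
    have hrf : ∀ z : ℂ, R ≤ ‖z‖ → ‖z‖ < 1 → ‖rf N z‖ ≤ (1 - ‖z‖) ^ b := by
      intro z hz hz1
      have h0 : 0 < ‖z‖ := hR0.trans_le hz
      rw [rf_norm, div_le_iff₀ h0, mul_comm]
      have h1 := fact2 hR0 hκ hκe.le hz hz1
      have h2 := mU_pos (b := b) h0.le hz1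
      refine le_trans ?_ h1
      simp only [hN]
      rw [abs_mul, abs_mul, abs_of_pos hκ, abs_of_nonneg (c5 _).1, abs_of_pos h2]
      have := (c5 ‖z‖).2
      have h5 : χ ‖z‖ * (m0 b - U b ‖z‖) ≤ 1 * (m0 b - U b ‖z‖) := by gcongr
      rw [one_mul] at h5
      gcongr
    have hfl : Fl2 b D1 (mx θ (rf N) Z) := by
      refine ⟨mx_cd a1 hR0 a2 (rf_cd hNC) hZ.cd, mx_cs (rf_supp hNC).1 hZ.cs, ?_, ?_⟩
      · intro z hz
        rcases mx_supp hz with h | h
        · exact ((rf_supp hNC).2 h).1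
        · exact hZ.sub h
      · intro z hz
        rw [mx_eq]
        refine (norm_add_le _ _).trans ?_
        have h1 := a4 ‖z‖
        have h2 := hZ.bd z hz
        rw [norm_smul, norm_smul, Real.norm_of_nonneg (sub_nonneg.2 h1.2),
          Real.norm_of_nonneg h1.1]
        have hw : 0 ≤ (1 - ‖z‖) ^ b := pow_nonneg (by linarith) _
        rcases le_or_gt R ‖z‖ with h | h
        · have h3 := hrf z h hz
          have k1 := mul_le_mul_of_nonneg_left h3 (sub_nonneg.2 h1.2)
          have k2 := mul_le_mul_of_nonneg_left h2 h1.1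
          linarith
        · rw [a2 _ h.le, sub_self, one_mul, zero_mul, zero_add]
          exact h2
    have hC := hP _ hfl
    -- pointwise
    set K : ℝ := M + (1 + δ) / δ * d δ with hK
    have hK0 : 0 ≤ K := by positivity
    set L : ℝ := κ * (8 * δ) / R with hLd
    have hL0 : 0 ≤ L := by positivity
    have hpt : ∀ z ∈ A, (ball (0 : ℂ) R).indicator (dv2 Z) z ≤ dv2 (mx θ (rf N) Z) z +
        κ * (ball (0 : ℂ) R)ᶜ.indicator (fun z => (1 - ‖z‖) ^ b) z +
        ((Ico R (R + δ)).indicator (fun _ => K) ‖z‖ +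
          (Ico 0 1).indicator (fun _ => L) ‖z‖) := by
      intro z hz
      have hz1 : ‖z‖ < 1 := mem_ball_zero_iff.1 (hA1 hz)
      have hw : 0 ≤ (1 - ‖z‖) ^ b := pow_nonneg (by linarith) _
      rw [indicator_of_mem (show ‖z‖ ∈ Ico (0 : ℝ) 1 from ⟨norm_nonneg z, hz1⟩),
        mx_dv2 a1 hR0 a2 (rf_cd hNC) hZ.cd, rf_dv2 hNC]
      rcases lt_or_ge ‖z‖ R with h | h
      · -- inside
        have hzB : z ∈ ball (0 : ℂ) R := mem_ball_zero_iff.2 h
        rw [indicator_of_mem hzB, indicator_of_notMem (fun h2 : z ∈ (ball (0 : ℂ) R)ᶜ => h2 hzB),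
          indicator_of_notMem (fun h2 : ‖z‖ ∈ Ico R (R + δ) => by linarith [h2.1]),
          a2 _ h.le, (a5 ‖z‖).2.2 (fun h2 => by linarith [h2.1])]
        have e1 : deriv N ‖z‖ / ‖z‖ + 1 * (dv2 Z z - deriv N ‖z‖ / ‖z‖) + 0 / ‖z‖ *
            (innerSL ℝ z) (Z z - rf N z) = dv2 Z z := by ring
        rw [e1]
        linarith
      · -- outside
        have hzB : z ∉ ball (0 : ℂ) R := fun h2 => by
          rw [mem_ball_zero_iff] at h2
          linarith
        rw [indicator_of_notMem hzB, indicator_of_mem (show z ∈ (ball (0 : ℂ) R)ᶜ from hzB)]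
        have h0 : 0 < ‖z‖ := hR0.trans_le h
        rcases lt_or_ge ‖z‖ (R + δ) with h3 | h3
        · rw [indicator_of_mem (show ‖z‖ ∈ Ico R (R + δ) from ⟨h, h3⟩)]
          have e2 : deriv N ‖z‖ / ‖z‖ = -(κ * (1 - ‖z‖) ^ b) := by
            rw [hNd, c7 _ (by linarith) (by linarith), c4 _ (by linarith) (by linarith)]
            field_simp
            ring
          rw [e2]
          have h4 := a4 ‖z‖
          have h5 := abs_le.1 (hM z)
          have e3 : (innerSL ℝ z) (rf N z) = N ‖z‖ := by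
            unfold rf
            rw [map_smul, inner_eq, smul_eq_mul]
            have : z.re * z.re + z.im * z.im = ‖z‖ ^ 2 := by
              rw [Complex.sq_norm, Complex.normSq_apply]
            rw [this]
            field_simp
          have e4 : N ‖z‖ = κ * (m0 b - U b ‖z‖) := by
            simp only [hN]
            rw [c4 _ (by linarith) (by linarith), one_mul]
          have h6 : (innerSL ℝ z) (Z z) ≤ ‖z‖ * (1 - R) ^ b := by
            have k1 := (abs_le.1 (inner_abs z (Z z))).2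
            have k2 := hZ.bd z hz1
            have k3 : (1 - ‖z‖) ^ b ≤ (1 - R) ^ b :=
              pow_le_pow_left₀ (by linarith) (by linarith) b
            calc (innerSL ℝ z) (Z z) ≤ ‖z‖ * ‖Z z‖ := k1
              _ ≤ ‖z‖ * (1 - R) ^ b := by gcongr; linarith
          have h7 : κ * (m0 b - U b (R + δ)) / (R + δ) ≤ N ‖z‖ / ‖z‖ := by
            rw [e4]
            have k1 : U b ‖z‖ ≤ U b (R + δ) := U_mono h0.le h3.le (by linarith)
            have k2 : 0 ≤ κ * (m0 b - U b (R + δ)) :=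
              mul_nonneg hκ.le (mU_pos (by linarith) (by linarith)).le
            calc κ * (m0 b - U b (R + δ)) / (R + δ) ≤ κ * (m0 b - U b (R + δ)) / ‖z‖ := by
                  gcongr
              _ ≤ κ * (m0 b - U b ‖z‖) / ‖z‖ := by gcongr
          have h8 : (innerSL ℝ z) (Z z - rf N z) / ‖z‖ ≤ d δ := by
            rw [map_sub, e3, sub_div]
            have k1 : (innerSL ℝ z) (Z z) / ‖z‖ ≤ (1 - R) ^ b := by
              rw [div_le_iff₀ h0, mul_comm]
              exact h6
            simp only [hd]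
            linarith
          have h9 : -((1 + δ) / δ * d δ) ≤ deriv θ ‖z‖ / ‖z‖ * (innerSL ℝ z) (Z z - rf N z) := by
            have k1 : deriv θ ‖z‖ / ‖z‖ * (innerSL ℝ z) (Z z - rf N z) =
                deriv θ ‖z‖ * ((innerSL ℝ z) (Z z - rf N z) / ‖z‖) := by ring
            rw [k1]
            have k2 := (a5 ‖z‖).1
            have k3 := (a5 ‖z‖).2.1
            have k4 : deriv θ ‖z‖ * d δ ≤ deriv θ ‖z‖ * ((innerSL ℝ z) (Z z - rf N z) / ‖z‖) :=
              mul_le_mul_of_nonpos_left h8 k2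
            have k5 : -((1 + δ) / δ) * d δ ≤ deriv θ ‖z‖ * d δ :=
              mul_le_mul_of_nonneg_right k3 hd0
            linarith
          have h10 : -M ≤ θ ‖z‖ * dv2 Z z := by
            have : -(dv2 Z z) ≤ M := by linarith
            have k1 : θ ‖z‖ * -(dv2 Z z) ≤ θ ‖z‖ * M := mul_le_mul_of_nonneg_left this h4.1
            have k2 : θ ‖z‖ * M ≤ 1 * M := mul_le_mul_of_nonneg_right h4.2 hM0
            linarith
          have h11 : 0 ≤ θ ‖z‖ * (κ * (1 - ‖z‖) ^ b) := mul_nonneg h4.1 (by positivity)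
          rw [hK]
          linarith
        · rw [indicator_of_notMem (fun h4 : ‖z‖ ∈ Ico R (R + δ) => by linarith [h4.2]),
            a3 _ h3, (a5 ‖z‖).2.2 (fun h2 => by linarith [h2.2])]
          have e1 : deriv N ‖z‖ / ‖z‖ + 0 * (dv2 Z z - deriv N ‖z‖ / ‖z‖) + 0 / ‖z‖ *
            (innerSL ℝ z) (Z z - rf N z) = deriv N ‖z‖ / ‖z‖ := by ring
          rw [e1, hNd]
          have e2 : κ * (deriv χ ‖z‖ * (m0 b - U b ‖z‖) - χ ‖z‖ * (‖z‖ * (1 - ‖z‖) ^ b)) / ‖z‖ =
              κ * (deriv χ ‖z‖ * (m0 b - U b ‖z‖) / ‖z‖) - κ * (χ ‖z‖ * (1 - ‖z‖) ^ b) := by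
            field_simp
          rw [e2]
          have h5 : κ * (χ ‖z‖ * (1 - ‖z‖) ^ b) ≤ κ * (1 - ‖z‖) ^ b := by
            have := mul_le_mul_of_nonneg_right (c5 ‖z‖).2 hw
            rw [one_mul] at this
            gcongr
          have h6 : |deriv χ ‖z‖ * (m0 b - U b ‖z‖) / ‖z‖| ≤ 8 * δ / R := by
            rcases le_or_gt ‖z‖ (1 - 2 * δ) with h7 | h7
            · rw [c7 _ (by linarith) h7]
              simp only [zero_mul, zero_div, abs_zero]
              positivity
            · have h8 := mU_pos (b := b) h0.le hz1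
              rw [abs_div, abs_of_pos h0, abs_mul, abs_of_pos h8]
              have h9 := mU_le_sq hb h0.le hz1.le
              have h10 : m0 b - U b ‖z‖ ≤ 4 * δ ^ 2 := by nlinarith
              have h11 : |deriv χ ‖z‖| * (m0 b - U b ‖z‖) ≤ 8 * δ := by
                calc |deriv χ ‖z‖| * (m0 b - U b ‖z‖) ≤ (2 / δ) * (4 * δ ^ 2) :=
                      mul_le_mul (c6 _) h10 h8.le (by positivity)
                  _ = 8 * δ := by field_simp; ring
              calc |deriv χ ‖z‖| * (m0 b - U b ‖z‖) / ‖z‖ ≤ 8 * δ / ‖z‖ := by gcongr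
                _ ≤ 8 * δ / R := by gcongr
          have h7 := (abs_le.1 h6).1
          have h8 : -L ≤ κ * (deriv χ ‖z‖ * (m0 b - U b ‖z‖) / ‖z‖) := by
            have := mul_le_mul_of_nonneg_left h7 hκ.le
            rw [hLd]
            calc -(κ * (8 * δ) / R) = κ * -(8 * δ / R) := by ring
              _ ≤ _ := this
          linarith
    -- integrate
    have j1 : IntegrableOn (dv2 (mx θ (rf N) Z)) A :=
      (dv2_int hfl.cd hfl.cs).integrableOn
    have j2 : IntegrableOn (fun z => κ * (ball (0 : ℂ) R)ᶜ.indicator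
        (fun z => (1 - ‖z‖) ^ b) z) A := by
      apply Integrable.const_mul
      exact (wt_int.mono_set hA1).indicator measurableSet_ball.compl
    obtain ⟨j3, k3⟩ := ann hA hA1 (a := R) (b := R + δ) (c := K) (by linarith) hK0
    obtain ⟨j4, k4⟩ := ann hA hA1 (a := 0) (b := 1) (c := L) zero_le_one hL0
    have j5 : IntegrableOn ((ball (0 : ℂ) R).indicator (dv2 Z)) A :=
      ((dv2_int hZ.cd hZ.cs).indicator measurableSet_ball).integrableOn
    have j12 : IntegrableOn (fun z => dv2 (mx θ (rf N) Z) z +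
        κ * (ball (0 : ℂ) R)ᶜ.indicator (fun z => (1 - ‖z‖) ^ b) z) A := j1.add j2
    have j34 : IntegrableOn (fun z : ℂ => (Ico R (R + δ)).indicator (fun _ => K) ‖z‖ +
          (Ico 0 1).indicator (fun _ => L) ‖z‖) A := j3.add j4
    have hint := setIntegral_mono_on j5 (j12.add j34) hA hpt
    have e0 : ∫ z in A, ((fun z => dv2 (mx θ (rf N) Z) z +
        κ * (ball (0 : ℂ) R)ᶜ.indicator (fun z => (1 - ‖z‖) ^ b) z) +
        fun z : ℂ => (Ico R (R + δ)).indicator (fun _ => K) ‖z‖ +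
          (Ico 0 1).indicator (fun _ => L) ‖z‖) z =
        ((∫ z in A, dv2 (mx θ (rf N) Z) z) + ∫ z in A, κ * (ball (0 : ℂ) R)ᶜ.indicator
          (fun z => (1 - ‖z‖) ^ b) z) + ((∫ z in A, (Ico R (R + δ)).indicator (fun _ => K) ‖z‖) +
          ∫ z in A, (Ico 0 1).indicator (fun _ => L) ‖z‖) := by
      rw [← integral_add j1 j2, ← integral_add j3 j4, ← integral_add j12 j34]
      rfl
    rw [e0] at hint
    have e2 : ∫ z in A, κ * (ball (0 : ℂ) R)ᶜ.indicator (fun z => (1 - ‖z‖) ^ b) z =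
        κ * ms b (A \ ball 0 R) := by
      rw [integral_const_mul, setIntegral_indicator measurableSet_ball.compl]
      rfl
    have e3 : ∫ z in A, (ball (0 : ℂ) R).indicator (dv2 Z) z =
        ∫ z in A ∩ ball 0 R, dv2 Z z := by
      rw [setIntegral_indicator measurableSet_ball]
    rw [e2, e3] at hint
    have e4 : K * ∫ r in R..(R + δ), al A r ≤ (M * δ + (1 + δ) * d δ) * (2 * π) := by
      have h1 := int_al_le hA (a := R) (b := R + δ) (by linarith)
      calc K * ∫ r in R..(R + δ), al A r ≤ K * (2 * π * (R + δ - R)) := by gcongr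
        _ = (M * δ + (1 + δ) * d δ) * (2 * π) := by rw [hK]; field_simp; ring
    have e5 : L * ∫ r in (0 : ℝ)..1, al A r ≤ L * (2 * π) := by
      have h1 := int_al_le hA (a := 0) (b := 1) zero_le_one
      rw [sub_zero, mul_one] at h1
      gcongr
    linarith
  have hdlim : Tendsto d (𝓝[>] 0) (𝓝 0) := by
    have h1 : ContinuousAt d 0 := by
      have hUc := U_cont b
      have h2 : ContinuousAt (fun δ : ℝ => κ * (m0 b - U b (R + δ)) / (R + δ)) 0 := by
        apply ContinuousAt.div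
        · exact (Continuous.continuousAt (by fun_prop))
        · exact (Continuous.continuousAt (by fun_prop))
        · rw [add_zero]; exact hR0.ne'
      exact continuousAt_const.sub h2
    have h2 : d 0 = 0 := by
      simp only [hd, add_zero]
      rw [hκe]
      field_simp
      ring
    have h3 := h1.tendsto
    rw [h2] at h3
    exact h3.mono_left nhdsWithin_le_nhds
  have hlim : Tendsto (fun δ : ℝ => C + κ * ms b (A \ ball 0 R) +
        ((M * δ + (1 + δ) * d δ) * (2 * π) + κ * (8 * δ) / R * (2 * π)))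
      (𝓝[>] 0) (𝓝 (C + κ * ms b (A \ ball 0 R) +
        ((M * 0 + (1 + 0) * 0) * (2 * π) + κ * (8 * 0) / R * (2 * π)))) := by
    have h1 : Tendsto (fun δ : ℝ => M * δ) (𝓝[>] 0) (𝓝 (M * 0)) := by
      have : Continuous (fun δ : ℝ => M * δ) := by fun_prop
      exact (this.tendsto 0).mono_left nhdsWithin_le_nhds
    have h1' : Tendsto (fun δ : ℝ => (1 + δ)) (𝓝[>] 0) (𝓝 (1 + 0)) := by
      have : Continuous (fun δ : ℝ => 1 + δ) := by fun_prop
      exact (this.tendsto 0).mono_left nhdsWithin_le_nhds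
    have h2 : Tendsto (fun δ : ℝ => κ * (8 * δ) / R * (2 * π)) (𝓝[>] 0)
        (𝓝 (κ * (8 * 0) / R * (2 * π))) := by
      have : Continuous (fun δ : ℝ => κ * (8 * δ) / R * (2 * π)) := by fun_prop
      exact (this.tendsto 0).mono_left nhdsWithin_le_nhds
    exact (((h1.add (h1'.mul hdlim)).mul_const (2 * π)).add h2).const_add _
  have hfin := ge_of_tendsto hlim (by
    filter_upwards [Ioo_mem_nhdsGT (show 0 < R / 2 by linarith),
      Ioo_mem_nhdsGT (show 0 < (1 - R) / 4 by linarith)] with δ h2 h3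
    exact main δ h2.1 (by linarith [h2.2]) (by linarith [h3.2]))
  simpa using hfin

end Pool.Agent.Y290.MI
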