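import Pool.Agent.Y290.MI.BB

/-! # Consequences of trapping -/

set_option autoImplicit false

open MeasureTheory Set Metric Filter Topology
open scoped ENNReal Real

noncomputable section

namespace Pool.Agent.Y290.MI

open Pool.Agent.TH304.MI

lemma scale_ae {P : ℝ → Prop} {r0 : ℝ} (hr : 0 < r0)
    (h : ∀ᵐ t ∂(volume.restrict (Ioo (0 : ℝ) 1)), P (t * r0)) :
    ∀ᵐ r ∂(volume.restrict (Ioo (0 : ℝ) r0)), P r := by
  rw [ae_restrict_iff' measurableSet_Ioo] at h ⊢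
  rw [ae_iff] at h ⊢
  have h1 : volume ((· * r0⁻¹) ⁻¹' {t | ¬(t ∈ Ioo (0 : ℝ) 1 → P (t * r0))}) = 0 := by
    rw [Real.volume_preimage_mul_right (inv_ne_zero hr.ne'), h, mul_zero]
  refine measure_mono_null (fun r hr2 => ?_) h1
  simp only [mem_preimage, mem_ofPred_eq] at hr2 ⊢
  rw [Classical.not_imp] at hr2 ⊢
  refine ⟨⟨mul_pos hr2.1.1 (inv_pos.2 hr), ?_⟩, ?_⟩
  · rw [← div_eq_mul_inv, div_lt_one hr]
    exact hr2.1.2
  · have : r * r0⁻¹ * r0 = r := by field_simp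
    rw [this]
    exact hr2.2

lemma pt_neg (r θ : ℝ) : -pt r θ = pt r (θ + π) := by
  unfold pt
  push_cast
  rw [add_mul, Complex.exp_add, Complex.exp_pi_mul_I]
  ring

lemma al_int {A : Set ℂ} (hA : MeasurableSet A) (r : ℝ) :
    al A r = ∫ θ in (-π)..π, {θ : ℝ | pt r θ ∈ A}.indicator (fun _ => (1 : ℝ)) θ := by
  have hm : MeasurableSet {θ : ℝ | pt r θ ∈ A} :=
    (pt_cont.comp (by fun_prop : Continuous fun θ : ℝ => (r, θ))).measurable hA
  rw [intervalIntegral.integral_of_le (by linarith [Real.pi_pos]), integral_Ioc_eq_integral_Ioo,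
    setIntegral_indicator hm, setIntegral_const, smul_eq_mul, mul_one, al_eq]
  rfl

lemma al_neg {A : Set ℂ} (hA : MeasurableSet A) (r : ℝ) : al {z | -z ∈ A} r = al A r := by
  have hA' : MeasurableSet {z : ℂ | -z ∈ A} := measurable_neg hA
  rw [al_int hA, al_int hA']
  set f : ℝ → ℝ := {θ : ℝ | pt r θ ∈ A}.indicator (fun _ => (1 : ℝ)) with hf
  have e1 : ∀ θ, {θ : ℝ | pt r θ ∈ {z | -z ∈ A}}.indicator (fun _ => (1 : ℝ)) θ = f (θ + π) := by
    intro θ
    have h1 : (θ ∈ {θ : ℝ | pt r θ ∈ {z | -z ∈ A}}) ↔ (θ + π ∈ {θ : ℝ | pt r θ ∈ A}) := by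
      simp only [mem_ofPred_eq]
      rw [← pt_neg]
    by_cases h2 : θ ∈ {θ : ℝ | pt r θ ∈ {z | -z ∈ A}}
    · rw [indicator_of_mem h2, hf, indicator_of_mem (h1.1 h2)]
    · rw [indicator_of_notMem h2, hf, indicator_of_notMem (fun h => h2 (h1.2 h))]
  simp_rw [e1]
  have hp : Function.Periodic f (2 * π) := by
    intro θ
    have h1 : (θ + 2 * π ∈ {θ : ℝ | pt r θ ∈ A}) ↔ (θ ∈ {θ : ℝ | pt r θ ∈ A}) := by
      simp only [mem_ofPred_eq]
      rw [pt_per]
    by_cases h2 : θ ∈ {θ : ℝ | pt r θ ∈ A}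
    · rw [hf, indicator_of_mem h2, indicator_of_mem (h1.2 h2)]
    · rw [hf, indicator_of_notMem h2, indicator_of_notMem (fun h => h2 (h1.1 h))]
  rw [intervalIntegral.integral_comp_add_right]
  have := hp.intervalIntegral_add_eq (-π + π) (-π)
  rw [show π + π = -π + π + 2 * π by ring, this]
  congr 1
  ring

lemma XX_set_meas {A : Set ℂ} (hA : MeasurableSet A) :
    MeasurableSet {p : ℂ × ℝ | (p.2 : ℂ) * p.1 ∈ A ∧ -((p.2 : ℂ) * p.1) ∉ A} := by
  have h1 : Continuous (fun p : ℂ × ℝ => (p.2 : ℂ) * p.1) := by fun_prop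
  have h2 : Continuous (fun p : ℂ × ℝ => -((p.2 : ℂ) * p.1)) := by fun_prop
  exact (h1.measurable hA).inter (h2.measurable hA).compl

lemma XX_meas {A : Set ℂ} (hA : MeasurableSet A) : MeasurableSet (XX A) := by
  have h1 := (XX_set_meas hA).compl
  have h2 := measurable_measure_prodMk_left (ν := volume.restrict (Ioo (0 : ℝ) 1)) h1
  have h3 : XX A = D1 ∩ (fun z => (volume.restrict (Ioo (0 : ℝ) 1)) (Prod.mk z ⁻¹'
      {p : ℂ × ℝ | (p.2 : ℂ) * p.1 ∈ A ∧ -((p.2 : ℂ) * p.1) ∉ A}ᶜ)) ⁻¹' {0} := by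
    ext z
    rfl
  rw [h3]
  exact D1_meas.inter (h2 (measurableSet_singleton 0))

lemma XX_sub (A : Set ℂ) : XX A ⊆ D1 := fun _ hz => hz.1

lemma XX_pt {A : Set ℂ} {r θ : ℝ} (h : pt r θ ∈ XX A) :
    ∀ᵐ t ∂(volume.restrict (Ioo (0 : ℝ) 1)), pt (t * r) θ ∈ A ∧ -pt (t * r) θ ∉ A := by
  have h1 := h.2
  filter_upwards [h1] with t ht
  have : (t : ℂ) * pt r θ = pt (t * r) θ := by
    unfold pt
    push_cast
    ring
  rw [this] at ht
  exact ht

/-- the key estimate -/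
lemma key_trap {A : Set ℂ} (hA : MeasurableSet A) (hA1 : A ⊆ D1) {r0 : ℝ} (h0 : 0 < r0)
    (h1 : r0 < 1) : ∀ᵐ r ∂(volume.restrict (Ioo (0 : ℝ) r0)),
      al (XX A) r0 ≤ al A r ∧ al (XX A) r0 ≤ 2 * π - al A r := by
  have hX := XX_meas hA
  set Θ : Set ℝ := sl (XX A) r0 with hΘ
  have hΘm : MeasurableSet Θ := sl_meas hX r0
  have hΘs : Θ ⊆ Ioo (-π) π := fun θ hθ => hθ.1
  have h2 : ∀ᵐ θ ∂(volume.restrict Θ), ∀ᵐ t ∂(volume.restrict (Ioo (0 : ℝ) 1)),
      pt (t * r0) θ ∈ A ∧ -pt (t * r0) θ ∉ A := by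
    filter_upwards [ae_restrict_mem hΘm] with θ hθ
    exact XX_pt hθ.2
  have hm : MeasurableSet {p : ℝ × ℝ | pt (p.2 * r0) p.1 ∈ A ∧ -pt (p.2 * r0) p.1 ∉ A} := by
    have c1 : Continuous (fun p : ℝ × ℝ => pt (p.2 * r0) p.1) :=
      pt_cont.comp (by fun_prop : Continuous fun p : ℝ × ℝ => (p.2 * r0, p.1))
    exact (c1.measurable hA).inter (c1.neg.measurable hA).compl
  rw [Measure.ae_ae_comm hm] at h2
  refine scale_ae h0 (P := fun r => al (XX A) r0 ≤ al A r ∧ al (XX A) r0 ≤ 2 * π - al A r) ?_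
  filter_upwards [h2, ae_restrict_mem measurableSet_Ioo] with t ht ht1
  have hr1 : t * r0 ∈ Ioo (0 : ℝ) 1 := ⟨mul_pos ht1.1 h0, by nlinarith [ht1.1, ht1.2]⟩
  have key : ∀ B : Set ℂ, (∀ᵐ θ ∂(volume.restrict Θ), pt (t * r0) θ ∈ B) →
      al (XX A) r0 ≤ al B (t * r0) := by
    intro B hB
    rw [al_eq, al_eq]
    apply ENNReal.toReal_mono (vol_sl_lt_top B _).ne
    have h3 : Θ ≤ᵐ[volume] sl B (t * r0) := by
      rw [ae_restrict_iff' hΘm] at hB
      filter_upwards [hB] with θ hθ hθ1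
      exact ⟨hΘs hθ1, hθ hθ1⟩
    exact measure_mono_ae h3
  refine ⟨key A (ht.mono fun θ h => h.1), ?_⟩
  have hA' : MeasurableSet {z : ℂ | -z ∈ A} := measurable_neg hA
  have hA'1 : {z : ℂ | -z ∈ A} ⊆ D1 := by
    intro z hz
    have := hA1 hz
    rw [D1, mem_ball_zero_iff] at this ⊢
    rwa [norm_neg] at this
  have h3 := al_compl hA' hA'1 hr1
  rw [al_neg hA] at h3
  rw [← h3]
  apply key
  filter_upwards [ht] with θ hθ
  refine ⟨?_, hθ.2⟩
  rw [D1, mem_ball_zero_iff, pt_norm hr1.1.le]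
  exact hr1.2

/-- null sets on the line -/
lemma line_null {S : Set ℝ} {Q : ℝ → Prop}
    (h : ∀ r ∈ S, ∀ᵐ r' ∂(volume.restrict (Ioo (0 : ℝ) r)), Q r') (hS : S ⊆ Ioi 0) :
    volume {r | r ∈ S ∧ ¬ Q r} = 0 := by
  have h1 : {r | r ∈ S ∧ ¬ Q r} ⊆ {r | r ∈ S ∧ ∀ r' ∈ S, r' ≤ r} ∪
      ⋃ q : {q : ℚ // ∃ r ∈ S, (q : ℝ) < r}, {r | r ∈ Ioo (0 : ℝ) q ∧ ¬ Q r} := by
    intro r hr
    by_cases hm : ∀ r' ∈ S, r' ≤ r
    · exact Or.inl ⟨hr.1, hm⟩
    · right
      push Not at hm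
      obtain ⟨r', hr', hlt⟩ := hm
      obtain ⟨q, hq1, hq2⟩ := exists_rat_btwn hlt
      rw [mem_iUnion]
      exact ⟨⟨q, r', hr', hq2⟩, ⟨hS hr.1, hq1⟩, hr.2⟩
  refine measure_mono_null h1 (measure_union_null ?_ ?_)
  · have : {r | r ∈ S ∧ ∀ r' ∈ S, r' ≤ r}.Subsingleton := by
      intro x hx y hy
      exact le_antisymm (hy.2 x hx.1) (hx.2 y hy.1)
    exact this.measure_zero _
  · rw [measure_iUnion_null_iff]
    rintro ⟨q, r, hr, hqr⟩
    have h2 := h r hr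
    rw [ae_restrict_iff' measurableSet_Ioo, ae_iff] at h2
    refine measure_mono_null (fun x hx => ?_) h2
    simp only [mem_ofPred_eq] at hx ⊢
    rw [Classical.not_imp]
    exact ⟨⟨hx.1.1, hx.1.2.trans hqr⟩, hx.2⟩

/-- `XX A` is contained in `A`, and its reflection is disjoint from `A`, up to null sets -/
lemma XX_null {A : Set ℂ} (hA : MeasurableSet A) :
    volume {z | z ∈ XX A ∧ ¬ (z ∈ A ∧ -z ∉ A)} = 0 := by
  have hX := XX_meas hA
  have hm : MeasurableSet {z | z ∈ XX A ∧ ¬ (z ∈ A ∧ -z ∉ A)} :=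
    hX.inter ((hA.inter (measurable_neg hA).compl).compl)
  rw [vol_zero_iff hm (fun z hz => hz.1.1)]
  have hm2 : MeasurableSet {p : ℝ × ℝ | ¬ (pt p.2 p.1 ∈ XX A ∧
      ¬ (pt p.2 p.1 ∈ A ∧ -pt p.2 p.1 ∉ A))} := by
    have c1 : Continuous (fun p : ℝ × ℝ => pt p.2 p.1) :=
      pt_cont.comp (by fun_prop : Continuous fun p : ℝ × ℝ => (p.2, p.1))
    exact (c1.measurable hm).compl
  have h1 : ∀ᵐ θ ∂(volume.restrict (Ioo (-π) π)), ∀ᵐ r ∂(volume.restrict (Ioo (0 : ℝ) 1)),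
      ¬ (pt r θ ∈ XX A ∧ ¬ (pt r θ ∈ A ∧ -pt r θ ∉ A)) := by
    refine Eventually.of_forall fun θ => ?_
    have h2 := line_null (S := {r | r ∈ Ioo (0 : ℝ) 1 ∧ pt r θ ∈ XX A})
      (Q := fun r => pt r θ ∈ A ∧ -pt r θ ∉ A) (fun r hr => by
        refine scale_ae hr.1.1 (P := fun r => pt r θ ∈ A ∧ -pt r θ ∉ A) ?_
        exact XX_pt hr.2) (fun r hr => hr.1.1)
    rw [ae_restrict_iff' measurableSet_Ioo, ae_iff]
    refine measure_mono_null (fun r hr => ?_) h2
    simp only [mem_ofPred_eq] at hr ⊢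
    tauto
  rw [Measure.ae_ae_comm hm2] at h1
  filter_upwards [h1] with r hr
  rw [al_eq]
  have : volume (sl {z | z ∈ XX A ∧ ¬ (z ∈ A ∧ -z ∉ A)} r) = 0 := by
    rw [ae_restrict_iff' measurableSet_Ioo, ae_iff] at hr
    refine measure_mono_null (fun θ hθ => ?_) hr
    simp only [mem_ofPred_eq]
    rw [Classical.not_imp, not_not]
    exact hθ
  rw [this]
  simp

lemma ms_zero_of_null (b : ℕ) {A : Set ℂ} (h : volume A = 0) : ms b A = 0 := by
  unfold ms
  rw [Measure.restrict_eq_zero.2 h]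
  simp

lemma ms_neg (b : ℕ) (A : Set ℂ) : ms b {z | -z ∈ A} = ms b A := by
  unfold ms
  have h1 : MeasurePreserving (fun z : ℂ => -z) volume volume :=
    Measure.measurePreserving_neg volume
  have h2 : MeasurableEmbedding (fun z : ℂ => -z) := (Homeomorph.neg ℂ).measurableEmbedding
  have := h1.setIntegral_preimage_emb h2 (fun z => (1 - ‖z‖) ^ b) A
  simp only [norm_neg] at this
  exact this

theorem t_trap : S_trap := by
  intro b A hA hA1 hpos
  have hX := XX_meas hA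
  have hXv : volume (XX A) ≠ 0 := fun h => hpos.ne' (ms_zero_of_null b h)
  have hex : ∃ r0 ∈ Ioo (0 : ℝ) 1, 0 < al (XX A) r0 := by
    by_contra hcon
    push Not at hcon
    apply hXv
    rw [vol_zero_iff hX (XX_sub A)]
    filter_upwards [ae_restrict_mem measurableSet_Ioo] with r hr
    exact le_antisymm (hcon r hr) (al_nonneg _ _)
  obtain ⟨r0, hr0, hr0p⟩ := hex
  refine ⟨⟨r0, hr0.1, hr0.2, ?_⟩, ?_⟩
  · filter_upwards [key_trap hA hA1 hr0.1 hr0.2] with r hr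
    exact ⟨by linarith [hr.1], by linarith [hr.2]⟩
  · intro t ht hbad
    have h1 : ∀ r ∈ Ioo (0 : ℝ) 1, t ≤ r → al (XX A) r = 0 := by
      intro r hr htr
      by_contra hne
      have hp : 0 < al (XX A) r := lt_of_le_of_ne (al_nonneg _ _) (Ne.symm hne)
      have h2 := key_trap hA hA1 hr.1 hr.2
      rw [ae_restrict_iff' measurableSet_Ioo, ae_iff] at h2
      apply hbad.ne'
      refine measure_mono_null (fun x hx => ?_) h2
      simp only [mem_ofPred_eq] at hx ⊢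
      rw [Classical.not_imp]
      refine ⟨⟨hx.1.1, hx.1.2.trans_le htr⟩, fun h3 => ?_⟩
      rcases hx.2 with h4 | h4
      · rw [h4] at h3; linarith [h3.1]
      · rw [h4] at h3; linarith [h3.2]
    have h2 : volume (XX A \ ball 0 t) = 0 := by
      rw [vol_zero_iff (hX.diff measurableSet_ball) (sdiff_subset.trans (XX_sub A))]
      filter_upwards [ae_restrict_mem measurableSet_Ioo] with r hr
      rcases lt_or_ge r t with h | h
      · have : sl (XX A \ ball 0 t) r = ∅ := by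
          ext θ
          simp only [sl, mem_ofPred_eq, Set.mem_sdiff, mem_ball_zero_iff, pt_norm hr.1.le, h,
            not_true, and_false, mem_empty_iff_false]
        rw [al_eq, this]
        simp
      · have h3 := h1 r hr h
        apply le_antisymm _ (al_nonneg _ _)
        rw [← h3, al_eq, al_eq]
        apply ENNReal.toReal_mono (vol_sl_lt_top _ _).ne
        exact measure_mono fun θ hθ => ⟨hθ.1, hθ.2.1⟩
    have h3 := XX_null hA
    have htD : ball (0 : ℂ) t ⊆ D1 := ball_sub_D1 ht.2.le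
    constructor
    · apply ms_mono_ae b (hA.inter measurableSet_ball) (inter_subset_left.trans hA1)
      refine measure_mono_null (fun z hz => ?_) (measure_union_null h2 h3)
      by_cases h4 : z ∈ ball (0 : ℂ) t
      · right
        refine ⟨hz.1, fun h5 => hz.2 ⟨h5.1, h4⟩⟩
      · left
        exact ⟨hz.1, h4⟩
    · rw [← ms_neg b (XX A)]
      apply ms_mono_ae b (measurableSet_ball.diff hA) (sdiff_subset.trans htD)
      have h4 : volume ((fun z : ℂ => -z) ⁻¹' (XX A \ ball 0 t ∪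
          {z | z ∈ XX A ∧ ¬ (z ∈ A ∧ -z ∉ A)})) = 0 := by
        have hmm : MeasurableSet {z | z ∈ XX A ∧ ¬ (z ∈ A ∧ -z ∉ A)} :=
          hX.inter ((hA.inter (measurable_neg hA).compl).compl)
        rw [(Measure.measurePreserving_neg (volume : Measure ℂ)).measure_preimage
          (((hX.diff measurableSet_ball).union hmm)).nullMeasurableSet]
        exact measure_union_null h2 h3
      refine measure_mono_null (fun z hz => ?_) h4
      have hz1 : -z ∈ XX A := hz.1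
      by_cases h5 : z ∈ ball (0 : ℂ) t
      · right
        refine ⟨hz1, fun h6 => hz.2 ⟨h5, ?_⟩⟩
        have := h6.2
        rwa [neg_neg] at this
      · left
        refine ⟨hz1, ?_⟩
        rwa [mem_ball_zero_iff, norm_neg, ← mem_ball_zero_iff]

end Pool.Agent.Y290.MI
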