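import Pool.Agent.Y290.MI.Num
import Pool.Agent.Y290.MI.Trap
import Pool.Agent.Y290.MI.B12

/-! # The two-dimensional theorem -/

set_option autoImplicit false

open MeasureTheory Set Metric Filter Topology
open scoped ENNReal Real

noncomputable section

namespace Pool.Agent.Y290.MI

open Pool.Agent.TH304.MI

/-- the radii at which `A` is trivial -/
def bad (A : Set ℂ) (a c : ℝ) : Set ℝ := {r | r ∈ Ioo a c ∧ (al A r = 0 ∨ al A r = 2 * π)}

/-- `A` is empty near the circle of radius `t` -/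
def EE (A : Set ℂ) (t : ℝ) : Prop :=
  Tendsto (fun η : ℝ => η⁻¹ * ∫ r in t..(t + η), al A r) (𝓝[>] 0) (𝓝 0)

/-- the symmetric version of the limit object -/
structure LS (b : ℕ) (A : Set ℂ) (μ : ℝ) : Prop where
  meas : MeasurableSet A
  sub : A ⊆ D1
  half : ms b A = ms b D1 / 2
  min : ∀ F : Set ℂ, MeasurableSet F → F ⊆ D1 → ms b F = ms b D1 / 2 →
    ∀ C : ℝ, P2 b D1 F C → P2 b (D1 \ {0}) A C
  bad : ∀ t ∈ Ioo (0 : ℝ) 1, volume (bad A 0 t) ≠ 0 →
    μ ≤ ms b (A ∩ ball 0 t) ∧ μ ≤ ms b (ball 0 t \ A)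

lemma dd {A : Set ℂ} (h : A ⊆ D1) : D1 \ (D1 \ A) = A := by
  rw [Set.sdiff_sdiff_cancel_left h]

lemma bad_compl {A : Set ℂ} (hA : MeasurableSet A) (hA1 : A ⊆ D1) {a c : ℝ} (ha : 0 ≤ a)
    (hc : c ≤ 1) : bad (D1 \ A) a c = bad A a c := by
  ext r
  constructor
  · rintro ⟨h1, h2⟩
    have h3 := al_compl hA hA1 (r := r) ⟨ha.trans_lt h1.1, h1.2.trans_le hc⟩
    refine ⟨h1, ?_⟩
    rw [h3] at h2
    rcases h2 with h2 | h2
    · right; linarith
    · left; linarith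
  · rintro ⟨h1, h2⟩
    have h3 := al_compl hA hA1 (r := r) ⟨ha.trans_lt h1.1, h1.2.trans_le hc⟩
    refine ⟨h1, ?_⟩
    rw [h3]
    rcases h2 with h2 | h2
    · right; linarith
    · left; linarith

lemma LS.compl {b : ℕ} {A : Set ℂ} {μ : ℝ} (h : LS b A μ) : LS b (D1 \ A) μ where
  meas := D1_meas.diff h.meas
  sub := sdiff_subset
  half := by rw [ms_compl b h.meas h.sub, h.half]; ring
  min := fun F hF hF1 hF2 C hC => P2_compl sdiff_subset h.meas h.sub (h.min F hF hF1 hF2 C hC)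
  bad := fun t ht hb => by
    rw [bad_compl h.meas h.sub le_rfl ht.2.le] at hb
    have h1 := h.bad t ht hb
    have h2 : D1 \ A ∩ ball 0 t = ball 0 t \ A := by
      ext z
      simp only [mem_inter_iff, Set.mem_sdiff]
      constructor
      · rintro ⟨⟨_, h3⟩, h4⟩
        exact ⟨h4, h3⟩
      · rintro ⟨h3, h4⟩
        exact ⟨⟨ball_sub_D1 ht.2.le h3, h4⟩, h3⟩
    have h3 : ball 0 t \ (D1 \ A) = A ∩ ball 0 t := by
      ext z
      simp only [mem_inter_iff, Set.mem_sdiff, not_and, not_not]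
      constructor
      · rintro ⟨h3, h4⟩
        exact ⟨h4 (ball_sub_D1 ht.2.le h3), h3⟩
      · rintro ⟨h3, h4⟩
        exact ⟨h4, fun _ => h3⟩
    rw [h2, h3]
    exact ⟨h1.2, h1.1⟩

lemma bad_meas {A : Set ℂ} (hA : MeasurableSet A) (a c : ℝ) : MeasurableSet (bad A a c) :=
  measurableSet_Ioo.inter ((al_meas hA (measurableSet_singleton 0)).union
    (al_meas hA (measurableSet_singleton (2 * π))))

lemma good_of {A : Set ℂ} {τ : ℝ} (h : volume (bad A 0 τ) = 0) :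
    ∀ᵐ r ∂(volume.restrict (Ioo (0 : ℝ) τ)), 0 < al A r ∧ al A r < 2 * π := by
  rw [ae_restrict_iff' measurableSet_Ioo, ae_iff]
  refine measure_mono_null (fun r hr => ?_) h
  simp only [mem_ofPred_eq] at hr
  rw [Classical.not_imp] at hr
  refine ⟨hr.1, ?_⟩
  by_contra hc
  rw [not_or] at hc
  exact hr.2 ⟨lt_of_le_of_ne (al_nonneg A r) (Ne.symm hc.1), lt_of_le_of_ne (al_le A r) hc.2⟩

/-- choice of the radius -/
lemma pick {A : Set ℂ} (hA : MeasurableSet A) (hA1 : A ⊆ D1) {a c : ℝ} (ha : 0 ≤ a)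
    (hc : c ≤ 1) (h : volume (bad A a c) ≠ 0) :
    ∃ t ∈ Ioo a c, (EE A t ∨ EE (D1 \ A) t) ∧ volume (bad A 0 t) ≠ 0 := by
  have h1 := t_leb A hA hA1
  have h2 := t_leb (D1 \ A) (D1_meas.diff hA) sdiff_subset
  have h3 := line_null (S := {r | r ∈ bad A 0 1 ∧ volume (bad A 0 r) = 0})
    (Q := fun r => r ∉ bad A 0 1) (fun r hr => by
      rw [ae_restrict_iff' measurableSet_Ioo, ae_iff]
      refine measure_mono_null (fun x hx => ?_) hr.2
      simp only [mem_ofPred_eq] at hx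
      rw [Classical.not_imp, not_not] at hx
      exact ⟨hx.1, hx.2.2⟩) (fun r hr => hr.1.1.1)
  by_contra hcon
  push Not at hcon
  apply h
  refine measure_mono_null (fun r hr => ?_) (measure_union_null h3 (measure_union_null h1 h2))
  by_contra hne
  simp only [mem_union, mem_ofPred_eq, not_or, not_and, not_not, mem_compl_iff] at hne
  obtain ⟨k1, k2, k3⟩ := hne
  have hr1 : r ∈ bad A 0 1 := ⟨⟨ha.trans_lt hr.1.1, hr.1.2.trans_le hc⟩, hr.2⟩
  have hE : EE A r ∨ EE (D1 \ A) r := by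
    rcases hr.2 with h4 | h4
    · left
      unfold EE
      rw [h4] at k2
      exact k2
    · right
      unfold EE
      have : al (D1 \ A) r = 0 := by
        rw [al_compl hA hA1 hr1.1, h4]
        ring
      rw [this] at k3
      exact k3
  have h5 := hcon r hr.1 hE
  exact k1 ⟨hr1, h5⟩ hr1

lemma bad_split {A : Set ℂ} {a c : ℝ} (h : volume (bad A 0 c) ≠ 0)
    (h1 : volume (bad A 0 a) = 0) : volume (bad A a c) ≠ 0 := by
  intro h2
  apply h
  have h3 : volume ({a} : Set ℝ) = 0 := measure_singleton a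
  refine measure_mono_null (fun r hr => ?_) (measure_union_null h1 (measure_union_null h2 h3))
  rcases lt_trichotomy r a with h4 | h4 | h4
  · left; exact ⟨⟨hr.1.1, h4⟩, hr.2⟩
  · right; right; exact h4
  · right; left; exact ⟨⟨h4, hr.1.2⟩, hr.2⟩

lemma ms_inter_ball (b : ℕ) {A : Set ℂ} (hA : MeasurableSet A) (hA1 : A ⊆ D1) {R : ℝ}
    (h0 : 0 ≤ R) (h1 : R ≤ 1) :
    ms b (A ∩ ball 0 R) = ∫ r in (0 : ℝ)..R, (r * (1 - r) ^ b) * al A r := by
  rw [ms_pol b (hA.inter measurableSet_ball) (inter_subset_left.trans hA1)]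
  have e1 : ∀ r ∈ Ioo (0 : ℝ) 1, (r * (1 - r) ^ b) * al (A ∩ ball 0 R) r =
      (Ioo 0 R).indicator (fun r => (r * (1 - r) ^ b) * al A r) r := by
    intro r hr
    by_cases h : r < R
    · rw [indicator_of_mem (show r ∈ Ioo 0 R from ⟨hr.1, h⟩)]
      congr 1
      rw [al_eq, al_eq]
      congr 2
      ext θ
      simp only [sl, mem_ofPred_eq, mem_inter_iff, mem_ball_zero_iff, pt_norm hr.1.le, h, and_true]
    · rw [indicator_of_notMem (fun h2 => h h2.2)]
      have : sl (A ∩ ball 0 R) r = ∅ := by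
        ext θ
        simp only [sl, mem_ofPred_eq, mem_inter_iff, mem_ball_zero_iff, pt_norm hr.1.le, h,
          and_false, mem_empty_iff_false]
      rw [al_eq, this]
      simp
  rw [setIntegral_congr_fun measurableSet_Ioo e1, setIntegral_indicator measurableSet_Ioo,
    show Ioo (0 : ℝ) 1 ∩ Ioo 0 R = Ioo 0 R from inter_eq_self_of_subset_right
      (Ioo_subset_Ioo_right h1), ← integral_Ioc_eq_integral_Ioo,
    ← intervalIntegral.integral_of_le h0]

lemma msb_cont (b : ℕ) {A : Set ℂ} (hA : MeasurableSet A) :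
    Continuous (fun R => ∫ r in (0 : ℝ)..R, (r * (1 - r) ^ b) * al A r) := by
  apply intervalIntegral.continuous_primitive
  intro x y
  have h1 : IntervalIntegrable (fun r : ℝ => r * (1 - r) ^ b) volume x y := by
    apply Continuous.intervalIntegrable; fun_prop
  have hbd : ∀ μ : Measure ℝ, ∀ᵐ r ∂μ, ‖al A r‖ ≤ 2 * π := fun μ =>
    Eventually.of_forall fun r => by
      rw [Real.norm_of_nonneg (al_nonneg A r)]
      exact al_le A r
  exact ⟨Integrable.mul_bdd h1.1 (al_meas hA).aestronglyMeasurable (hbd _),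
    Integrable.mul_bdd h1.2 (al_meas hA).aestronglyMeasurable (hbd _)⟩

/-- full near a circle of small radius: fill the disc and cut the outer part -/
lemma fill {b : ℕ} (hb : 10000 ≤ b) {A : Set ℂ} {μ : ℝ} (h : LS b A μ) (hμ : 0 < μ)
    (hμ2 : 2 * π * (m0 b - U b (1 / 2)) ≤ μ) {C0 : ℝ} (hC0 : P2 b (D1 \ {0}) A C0) {t0 : ℝ}
    (ht0 : 0 < t0) (ht1 : t0 ≤ 0.6 / (b + 1)) (hbad : volume (bad A 0 t0) ≠ 0)
    (hE : EE (D1 \ A) t0) : False := by
  have hn := nb hb
  have hn0 : (0 : ℝ) < (b : ℝ) + 1 := by linarith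
  obtain ⟨nB1, nB2, nB3⟩ := t_numB.1 b hb
  have hs : 0.6 / ((b : ℝ) + 1) < 1 / 2 := by
    rw [div_lt_iff₀ hn0]
    linarith
  have ht2 : t0 < 1 / 2 := ht1.trans_lt hs
  have htD : t0 ∈ Ioo (0 : ℝ) 1 := ⟨ht0, by linarith⟩
  set δ : ℝ := ms b (ball 0 t0 \ A) with hδ
  have hδμ : μ ≤ δ := (h.bad t0 htD hbad).2
  have hδ0 : 0 < δ := hμ.trans_le hδμ
  -- the optimal constant
  set S : Set ℝ := {C | P2 b (D1 \ {0}) A C} with hS
  have hSb : BddBelow S := by
    refine ⟨0, fun C hC => ?_⟩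
    have h1 := hC (fun _ => 0) ⟨contDiff_const, HasCompactSupport.zero, by
      have : tsupport (fun _ : ℂ => (0 : ℂ)) = ∅ := tsupport_eq_empty_iff.2 rfl
      rw [this]
      exact empty_subset _, fun z hz => by
        rw [norm_zero]
        exact pow_nonneg (by linarith) _⟩
    have h2 : ∀ z : ℂ, dv2 (fun _ => (0 : ℂ)) z = 0 := by
      intro z; unfold dv2; simp
    simp_rw [h2] at h1
    simpa using h1
  have hSn : S.Nonempty := ⟨C0, hC0⟩
  set C1 : ℝ := sInf S with hC1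
  have hP1 : P2 b (D1 \ {0}) A C1 := fun Z hZ => le_csInf hSn fun C hC => hC Z hZ
  -- filling
  have hκ : 2.5 * ((b : ℝ) + 2) * U b t0 < t0 * (1 - t0) ^ b := nB1 t0 ht0 ht1
  have hL : Tendsto (fun η : ℝ => η⁻¹ * ∫ r in t0..(t0 + η), (2 * π - al A r)) (𝓝[>] 0) (𝓝 0) := by
    refine Tendsto.congr' ?_ hE
    filter_upwards [Ioo_mem_nhdsGT (show (0 : ℝ) < 1 / 2 by norm_num)] with η hη
    congr 1
    apply intervalIntegral.integral_congr
    intro r hr
    rw [uIcc_of_le (by linarith [hη.1])] at hr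
    exact al_compl h.meas h.sub ⟨by linarith [hr.1], by linarith [hr.2, hη.2]⟩
  have hB1 := t_B1 b A h.meas h.sub C1 hP1 t0 (2.5 * ((b : ℝ) + 2)) ht0 htD.2 (by positivity) hκ hL
  set A1 : Set ℂ := A ∪ ball 0 t0 with hA1
  have hA1m : MeasurableSet A1 := h.meas.union measurableSet_ball
  have hbD : ball (0 : ℂ) t0 ⊆ D1 := ball_sub_D1 htD.2.le
  have hA1D : A1 ⊆ D1 := union_subset h.sub hbD
  have hmA1 : ms b A1 = ms b D1 / 2 + δ := by
    have e1 : A1 = A ∪ (ball 0 t0 \ A) := by rw [hA1, union_sdiff_self]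
    rw [e1, ms_union b (measurableSet_ball.diff h.meas) h.sub (sdiff_subset.trans hbD)
      disjoint_sdiff_right, h.half]
  -- cutting
  have hmD := ms_D1 b
  have hcont := (msb_cont b hA1m).continuousOn (s := Icc t0 (1 / 2))
  have hlow : ∫ r in (0 : ℝ)..t0, (r * (1 - r) ^ b) * al A1 r ≤ ms b D1 / 2 := by
    rw [← ms_inter_ball b hA1m hA1D ht0.le htD.2.le]
    have e1 : A1 ∩ ball 0 t0 = ball 0 t0 := inter_eq_self_of_subset_right subset_union_right
    rw [e1, ms_ball b ht0.le htD.2.le, hmD]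
    have h2 := U_mono (b := b) ht0.le ht1 (by linarith)
    have h3 : U b t0 ≤ m0 b / 2 := h2.trans nB3.le
    nlinarith [Real.pi_pos]
  have hhigh : ms b D1 / 2 ≤ ∫ r in (0 : ℝ)..(1 / 2), (r * (1 - r) ^ b) * al A1 r := by
    rw [← ms_inter_ball b hA1m hA1D (by norm_num) (by norm_num)]
    have h2 := ms_inter_diff b (B := ball 0 (1 / 2)) measurableSet_ball hA1D
    have h3 : ms b (A1 \ ball 0 (1 / 2)) ≤ ms b (D1 \ ball 0 (1 / 2)) :=
      ms_mono b (D1_meas.diff measurableSet_ball) sdiff_subset (sdiff_subset_sdiff_left hA1D)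
    rw [ms_compl b measurableSet_ball (ball_sub_D1 (by norm_num)), ms_ball b (by norm_num)
      (by norm_num), hmD] at h3
    rw [hmD] at hmA1 ⊢
    linarith
  obtain ⟨R, hR, hRm⟩ := intermediate_value_Icc ht2.le hcont ⟨hlow, hhigh⟩
  have hR0 : 0 < R := ht0.trans_le hR.1
  have hR1 : R < 1 := hR.2.trans_lt (by norm_num)
  simp only at hRm
  rw [← ms_inter_ball b hA1m hA1D hR0.le hR1.le] at hRm
  have hout : ms b (A1 \ ball 0 R) = δ := by
    have h2 := ms_inter_diff b (B := ball 0 R) measurableSet_ball hA1D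
    linarith
  have hmR := mU_pos (b := b) hR0.le hR1
  set κ : ℝ := R * (1 - R) ^ b / (m0 b - U b R) with hκd
  have hκe : κ * (m0 b - U b R) = R * (1 - R) ^ b := by
    rw [hκd]
    field_simp
  have hκ2 : κ ≤ 2 * (b + 2) := by
    rw [hκd, div_le_iff₀ hmR]
    exact nB2 R hR0 hR.2
  have hB2 := t_B2 b (by linarith) A1 hA1m hA1D _ hB1 R κ hR0 hR1 hκe
  have hmin := h.min (A1 ∩ ball 0 R) (hA1m.inter measurableSet_ball)
    (inter_subset_left.trans hA1D) hRm _ hB2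
  have hle : C1 ≤ C1 - 2.5 * ((b : ℝ) + 2) * ms b (ball 0 t0 \ A) +
      κ * ms b (A1 \ ball 0 R) := csInf_le hSb hmin
  rw [← hδ, hout] at hle
  have h5 : (2.5 * ((b : ℝ) + 2)) * δ ≤ κ * δ := by linarith
  have h6 := le_of_mul_le_mul_right h5 hδ0
  have hb0 : (0 : ℝ) ≤ b := Nat.cast_nonneg b
  linarith

theorem t_t2d : S_t2d := by
  intro c hc
  obtain ⟨b0, hb0⟩ := t_numB.2 c hc
  refine ⟨max 10000 b0, le_max_left _ _, fun A hL => ?_⟩
  set b : ℕ := max 10000 b0 with hbd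
  have hb : 10000 ≤ b := le_max_left _ _
  have hn := nb hb
  have hn0 : (0 : ℝ) < (b : ℝ) + 1 := by linarith
  have hm := m0_pos b
  have hmD := ms_D1 b
  set μ : ℝ := ms b (XX A) with hμ
  have hcm : c * (2 * π * m0 b) ≤ μ := by
    have := hL.trap
    rwa [hmD] at this
  have hμ0 : 0 < μ := lt_of_lt_of_le (by positivity) hcm
  have hμ2 : 2 * π * (m0 b - U b (1 / 2)) ≤ μ := by
    refine le_trans ?_ hcm
    have := (hb0 b (le_max_right _ _)).le
    calc 2 * π * (m0 b - U b (1 / 2)) ≤ 2 * π * (c * m0 b) := by gcongr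
      _ = c * (2 * π * m0 b) := by ring
  have hLS : LS b A μ := ⟨hL.meas, hL.sub, hL.half, hL.min, fun t ht h =>
    (t_trap b A hL.meas hL.sub hμ0).2 t ht (pos_iff_ne_zero.2 h)⟩
  -- the disc
  obtain ⟨ρ, hρ0, hρ1, hρU, hρP⟩ := t_num b hb
  have hms : ms b (ball 0 ρ) = ms b D1 / 2 := by
    rw [ms_ball b hρ0.le hρ1.le, hρU, hmD]
    ring
  have hdisc := t_disc b ρ hρ0 hρ1
  set C0 : ℝ := 2 * π * ρ * (1 - ρ) ^ b with hC0
  have hPA : ∀ A : Set ℂ, LS b A μ → P2 b (D1 \ {0}) A C0 := fun A h =>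
    h.min _ measurableSet_ball (ball_sub_D1 hρ1.le) hms _ hdisc
  have hlt : (1.9695 : ℝ) / ((b : ℝ) + 1) < 1.9699 / (b + 1) := by gcongr; norm_num
  obtain ⟨nA1, nA2, nA3, nA4, nA5⟩ := t_numA b hb
  have small : ∀ x : ℝ, 0 < x → x ≤ 4.2 → 0 < x / ((b : ℝ) + 1) ∧ x / ((b : ℝ) + 1) < 1 := by
    intro x h0 h1
    refine ⟨by positivity, ?_⟩
    rw [div_lt_one hn0]
    linarith
  obtain ⟨s42, s42'⟩ := small 4.2 (by norm_num) (by norm_num)
  obtain ⟨s22, s22'⟩ := small 2.2 (by norm_num) (by norm_num)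
  obtain ⟨s06, s06'⟩ := small 0.6 (by norm_num) (by norm_num)
  -- case 0
  by_cases c0 : volume (bad A 0 (4.2 / (b + 1))) = 0
  · have := t_A0 b A hL.meas hL.sub C0 (hPA A hLS) _ s42 s42'.le (good_of c0)
    linarith
  by_cases c1 : volume (bad A 0 (2.2 / (b + 1))) = 0
  · -- case 1
    have key : ∀ A : Set ℂ, LS b A μ → volume (bad A 0 (2.2 / (b + 1))) = 0 →
        ∀ t0 ∈ Ioo (2.2 / ((b : ℝ) + 1)) (4.2 / (b + 1)), EE A t0 → False := by
      intro A hLS c1 t0 ht0 hE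
      obtain ⟨k1, k2⟩ := nA2 t0 ht0.1.le ht0.2.le
      have := t_A b (by linarith) A hLS.meas hLS.sub C0 (hPA A hLS) t0 (2.2 / (b + 1))
        (0.065 * ((b : ℝ) + 2)) s22 ht0.1.le (ht0.2.trans s42') (by positivity) k1 k2 hE
        (good_of c1)
      rw [hLS.half, hmD] at this
      have e1 : 0.065 * ((b : ℝ) + 2) * (2 * π * m0 b / 2) =
          0.065 * ((b : ℝ) + 2) * (π * m0 b) := by ring
      rw [e1] at this
      linarith
    obtain ⟨t0, ht0, hE, -⟩ := pick hL.meas hL.sub s22.le s42'.le (bad_split c0 c1)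
    rcases hE with hE | hE
    · exact key A hLS c1 t0 ht0 hE
    · refine key (D1 \ A) hLS.compl ?_ t0 ht0 hE
      rw [bad_compl hL.meas hL.sub le_rfl s22'.le]
      exact c1
  by_cases c2 : volume (bad A 0 (0.6 / (b + 1))) = 0
  · -- case 2
    have key : ∀ A : Set ℂ, LS b A μ → volume (bad A 0 (0.6 / (b + 1))) = 0 →
        ∀ t0 ∈ Ioo (0.6 / ((b : ℝ) + 1)) (2.2 / (b + 1)), EE A t0 → False := by
      intro A hLS c1 t0 ht0 hE
      obtain ⟨k1, k2⟩ := nA1 t0 ht0.1.le ht0.2.le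
      have := t_A b (by linarith) A hLS.meas hLS.sub C0 (hPA A hLS) t0 (0.6 / (b + 1))
        (0.37 * ((b : ℝ) + 2)) s06 ht0.1.le (ht0.2.trans s22') (by positivity) k1 k2 hE
        (good_of c1)
      rw [hLS.half, hmD] at this
      have e1 : 0.37 * ((b : ℝ) + 2) * (2 * π * m0 b / 2) =
          0.37 * ((b : ℝ) + 2) * (π * m0 b) := by ring
      rw [e1] at this
      linarith
    obtain ⟨t0, ht0, hE, -⟩ := pick hL.meas hL.sub s06.le s22'.le (bad_split c1 c2)
    rcases hE with hE | hE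
    · exact key A hLS c2 t0 ht0 hE
    · refine key (D1 \ A) hLS.compl ?_ t0 ht0 hE
      rw [bad_compl hL.meas hL.sub le_rfl s06'.le]
      exact c2
  -- case 3
  obtain ⟨t0, ht0, hE, hbt⟩ := pick hL.meas hL.sub le_rfl s06'.le c2
  rcases hE with hE | hE
  · refine fill hb hLS.compl hμ0 hμ2 (hPA _ hLS.compl) ht0.1 ht0.2.le ?_ ?_
    · rw [bad_compl hL.meas hL.sub le_rfl (ht0.2.trans s06').le]
      exact hbt
    · rwa [dd hL.sub]
  · exact fill hb hLS hμ0 hμ2 (hPA _ hLS) ht0.1 ht0.2.le hbt hE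

end Pool.Agent.Y290.MI
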