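import Pool.Agent.Y290.MI.Trl
import Pool.Agent.Y290.MI.T2d

/-! # Passage to the limit, and the final statement -/

set_option autoImplicit false

open MeasureTheory Set Metric Filter Topology
open scoped ENNReal Real

noncomputable section

namespace Pool.Agent.Y290.MI

open Pool.Agent.TH304.MI

theorem t_lim : S_lim := by
  intro c hc hFH b F0 C0 hF0 hF0s hF0h hF0P
  obtain ⟨go, gc, gb, g0, gs, gt⟩ := Pool.Agent.TH73.MI.t_geo b
  have hfin : ∀ G : Set (PP b), G ⊆ Om b → volume G ≠ ∞ := fun G hG =>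
    (gb.subset hG).measure_lt_top.ne
  set ε : ℕ → ℝ := fun k => 1 / ((k : ℝ) + 1) with hε
  have hε0 : ∀ k, 0 < ε k := fun k => by simp only [hε]; positivity
  have hε1 : ∀ k, ε k ≤ 1 := fun k => by
    simp only [hε]
    rw [div_le_one (by positivity)]
    have : (0 : ℝ) ≤ k := Nat.cast_nonneg k
    linarith
  have hεl : Tendsto ε atTop (𝓝 0) := tendsto_one_div_add_atTop_nhds_zero_nat
  -- minimizers
  have hF0v : volume (cyl b F0) = volume (Om b) / 2 := (vol_half hF0 hF0s).2 hF0h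
  have hex : ∀ k, ∃ E : Set (PP b), MeasurableSet E ∧ E ⊆ Om b ∧
      volume E = volume (Om b) / 2 ∧ Mnz (ε k) (Om b) E := fun k =>
    t_ex b (ε k) (hε0 k) (hε1 k) (cyl b F0) (2 ^ b * C0) (cyl_meas hF0) (cyl_sub F0) hF0v
      (t_up b (ε k) (hε0 k) F0 hF0 hF0s C0 hF0P)
  choose E hEm hEs hEv hEmin using hex
  have hK : ∀ k, ∃ K : Set (PP b), IsOpen K ∧ K ⊆ Om b ∧
      (∀ p ∈ K, ∀ t ∈ Ioo (0 : ℝ) 1, t • p ∈ K) ∧
      ENNReal.ofReal c * volume (Om b) ≤ volume K ∧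
      volume (K \ E k) = 0 ∧ volume ({p | -p ∈ K} ∩ E k) = 0 := fun k =>
    Pool.Agent.TH89.MI.t_tr Pool.Agent.TH73.MI.t_geo Pool.Agent.TH89.MI.t_cv c hc hFH b (ε k)
      (hε0 k) (E k) (hEm k) (hEs k) (hEv k) (hEmin k)
  choose K hK1 hK2 hK3 hK4 hK5 hK6 using hK
  -- perimeter bounds
  have hP : ∀ (F : Set ℂ) (C : ℝ), MeasurableSet F → F ⊆ D1 → ms b F = ms b D1 / 2 →
      P2 b D1 F C → ∀ k, PLe (ε k) (Om b) (E k) (2 ^ b * C) := by
    intro F C hF hFs hFh hFP k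
    exact hEmin k (cyl b F) (cyl_meas hF) (cyl_sub F)
      (((vol_half hF hFs).2 hFh).trans (hEv k).symm) _ (t_up b (ε k) (hε0 k) F hF hFs C hFP)
  have hPk := hP F0 C0 hF0 hF0s hF0h hF0P
  set P : ℝ := 2 ^ b * C0 with hPd
  -- compactness
  obtain ⟨E0, ψ, hE0m, hE0s, hψ, hψl⟩ := Pool.Agent.TH416.HU.b1 b (Om b) go gc gb E P hEm hEs
    (fun k => Pool.Agent.TH340.HU.PLe.one (hε0 k).le (hε1 k) (hPk k))
  -- the limit has zero y-divergence
  have hdiv : ∀ φ : PP b → PP b, ContDiff ℝ 1 φ → HasCompactSupport φ →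
      tsupport φ ⊆ Om b → (∀ p, xc (φ p) = 0) → ∫ x in E0, dv φ x = 0 := by
    have key : ∀ φ : PP b → PP b, ContDiff ℝ 1 φ → HasCompactSupport φ →
      tsupport φ ⊆ Om b → (∀ p, xc (φ p) = 0) → ∫ x in E0, dv φ x ≤ 0 := by
      intro φ hφ hcs hsub hx
      obtain ⟨M, hM⟩ : ∃ M : ℝ, ∀ p, ‖φ p‖ ≤ M := hφ.continuous.bounded_above_of_compact_support hcs
      have hM1 : (0 : ℝ) < max M 1 := lt_of_lt_of_le one_pos (le_max_right _ _)
      have hM2 : ∀ p, ‖φ p‖ ≤ max M 1 := fun p => (hM p).trans (le_max_left _ _)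
      set M' := max M 1
      have hk : ∀ k, ∫ x in E k, dv φ x ≤ ε k * M' * P := by
        intro k
        have he := hε0 k
        have hpos : 0 < ε k * M' := mul_pos he hM1
        have hfld : Fld (ε k) (Om b) (fun p => (ε k * M')⁻¹ • φ p) := by
          refine ⟨Pool.Agent.TH340.HU.cd_smul _ hφ, Pool.Agent.TH340.HU.cs_smul _ hcs,
            (Pool.Agent.TH340.HU.sub_smul' _).trans hsub, ?_⟩
          intro p
          have h1 : xc ((ε k * M')⁻¹ • φ p) = 0 := Pool.Agent.TH340.HU.xc_smul _ (hx p)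
          rw [Pool.Agent.TH340.HU.norm_sc_of_xc he.le _ h1, norm_smul,
            Real.norm_of_nonneg (inv_nonneg.2 hpos.le)]
          calc ε k * ((ε k * M')⁻¹ * ‖φ p‖) ≤ ε k * ((ε k * M')⁻¹ * M') := by
                gcongr
                exact hM2 p
            _ = 1 := by field_simp
        have h3 := hPk k _ hfld
        rw [Pool.Agent.TH340.HU.int_dv_smul _ hφ] at h3
        rwa [inv_mul_le_iff₀ hpos] at h3
      have hlim2 : Tendsto (fun k => ε (ψ k) * M' * P) atTop (𝓝 0) := by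
        have := ((hεl.comp hψ.tendsto_atTop).mul_const M').mul_const P
        simpa [Function.comp_def] using this
      exact le_of_tendsto_of_tendsto' (Pool.Agent.TH416.HU.b2 _ (fun k => E (ψ k)) E0
        (fun k => hEm _) hE0m hψl φ hφ hcs) hlim2 (fun k => hk (ψ k))
    intro φ hφ hcs hsub hx
    apply le_antisymm (key φ hφ hcs hsub hx)
    have h1 := key (fun p => (-1 : ℝ) • φ p) (Pool.Agent.TH340.HU.cd_smul _ hφ)
      (Pool.Agent.TH340.HU.cs_smul _ hcs) ((Pool.Agent.TH340.HU.sub_smul' _).trans hsub)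
      (fun p => Pool.Agent.TH340.HU.xc_smul _ (hx p))
    rw [Pool.Agent.TH340.HU.int_dv_smul _ hφ] at h1
    linarith
  obtain ⟨A, hAm, hAs, hA⟩ := t_cyl b E0 hE0m hE0s hdiv
  have hcm : MeasurableSet (cyl b A) := cyl_meas hAm
  have hcs : cyl b A ⊆ Om b := cyl_sub A
  have hT : Tendsto (fun k => volume (symmDiff (E (ψ k)) (cyl b A))) atTop (𝓝 0) :=
    tendsto_of_tendsto_of_tendsto_of_le_of_le tendsto_const_nhds hψl (fun _ => zero_le)
      (fun k => Pool.Agent.TH340.HU.symm_mono hA)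
  have hV := Pool.Agent.TH340.HU.real_tendsto gb (fun k => hEs (ψ k)) hcs (fun k => hEm (ψ k))
    hcm hT
  have hhalf : volume (cyl b A) = volume (Om b) / 2 := by
    have h1 : ∀ k, volume.real (E (ψ k)) = (volume (Om b) / 2).toReal := fun k => by
      rw [Measure.real, hEv]
    simp_rw [h1] at hV
    have h2 := tendsto_nhds_unique hV tendsto_const_nhds
    rw [Measure.real] at h2
    have h3 : volume (Om b) / 2 ≠ ∞ := ENNReal.div_ne_top (hfin _ le_rfl) (by norm_num)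
    exact (ENNReal.toReal_eq_toReal_iff' (hfin _ hcs) h3).1 h2
  refine ⟨A, hAm, hAs, (vol_half hAm hAs).1 hhalf, ?_, ?_⟩
  · intro F hF hFs hFh C hFP
    apply Pool.Agent.TH959.MI.t_low Pool.Agent.TH73.MI.t_fub b A hAm hAs C
    intro φ hφ hy
    have hk : ∀ k, ∫ x in E (ψ k), dv φ x ≤ 2 ^ b * C := by
      intro k
      refine hP F C hF hFs hFh hFP (ψ k) φ ⟨hφ.cd, hφ.cs, hφ.sub, fun x => ?_⟩
      have h2 := hφ.bd x
      rw [Pool.Agent.TH340.HU.sc_of_yc _ _ (hy x)] at h2 ⊢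
      exact h2
    exact le_of_tendsto' (Pool.Agent.TH416.HU.b2 _ (fun k => E (ψ k)) (cyl b A)
      (fun k => hEm _) hcm hT φ hφ.cd hφ.cs) hk
  · exact t_trl b c hc (fun k => E (ψ k)) (fun k => K (ψ k)) A (fun k => hEm _) (fun k => hEs _)
      hAm hAs hT (fun k => hK1 _) (fun k => hK2 _) (fun k => hK3 _) (fun k => hK4 _)
      (fun k => hK5 _) (fun k => hK6 _)

theorem t_fin : S_fin := by
  rintro ⟨c, hc, hFH⟩
  obtain ⟨b, hb, hno⟩ := t_t2d c hc
  obtain ⟨ρ, hρ0, hρ1, hρU, -⟩ := t_num b hb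
  have hms : ms b (ball 0 ρ) = ms b D1 / 2 := by
    rw [ms_ball b hρ0.le hρ1.le, hρU, ms_D1]
    ring
  obtain ⟨A, hA⟩ := t_lim c hc hFH b (ball 0 ρ) _ measurableSet_ball (ball_sub_D1 hρ1.le) hms
    (t_disc b ρ hρ0 hρ1)
  exact hno A hA

end Pool.Agent.Y290.MI
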