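import Pool.Agent.Y290.MI.AA

/-! # Lower bound with a radial part: S_A -/

set_option autoImplicit false

open MeasureTheory Set Metric Filter Topology
open scoped ENNReal Real

noncomputable section

namespace Pool.Agent.Y290.MI

open Pool.Agent.TH304.MI

lemma int_al {A : Set ℂ} (hA : MeasurableSet A) {f : ℝ → ℝ} (hf : Continuous f) (a b : ℝ) :
    IntegrableOn (fun r => f r * al A r) (Ioo a b) := by
  have h1 : IntegrableOn f (Ioo a b) :=
    (hf.continuousOn.integrableOn_compact (isCompact_Icc (a := a) (b := b))).mono_set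
      Ioo_subset_Icc_self
  refine h1.mul_bdd (c := 2 * π) (al_meas hA).aestronglyMeasurable
    (Eventually.of_forall fun r => ?_)
  rw [Real.norm_of_nonneg (al_nonneg A r)]
  exact al_le A r

lemma int5 {S : Set ℝ} {f g h k l : ℝ → ℝ} (hf : IntegrableOn f S) (hg : IntegrableOn g S)
    (hh : IntegrableOn h S) (hk : IntegrableOn k S) (hl : IntegrableOn l S) :
    IntegrableOn (fun r => f r - ((g r + h r) + (k r + l r))) S ∧
    ∫ r in S, (f r - ((g r + h r) + (k r + l r))) =
      (∫ r in S, f r) - (((∫ r in S, g r) + ∫ r in S, h r) +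
        ((∫ r in S, k r) + ∫ r in S, l r)) := by
  have h1 : IntegrableOn (fun r => g r + h r) S := hg.add hh
  have h2 : IntegrableOn (fun r => k r + l r) S := hk.add hl
  have h3 : IntegrableOn (fun r => (g r + h r) + (k r + l r)) S := h1.add h2
  refine ⟨hf.sub h3, ?_⟩
  rw [integral_sub hf h3, integral_add h1 h2, integral_add hg hh, integral_add hk hl]

lemma U_le_sq {b : ℕ} {r : ℝ} (h0 : 0 ≤ r) (h1 : r ≤ 1) : U b r ≤ r ^ 2 := by
  have h := U_int b 0 r
  rw [U_zero, sub_zero] at h
  rw [← h]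
  have h2 : ∫ s in (0 : ℝ)..r, s * (1 - s) ^ b ≤ ∫ s in (0 : ℝ)..r, r := by
    apply intervalIntegral.integral_mono_on h0
    · apply Continuous.intervalIntegrable; fun_prop
    · exact intervalIntegrable_const
    · intro s hs
      have h3 : (1 - s) ^ b ≤ 1 := pow_le_one₀ (by linarith [hs.2]) (by linarith [hs.1])
      have h4 : 0 ≤ (1 - s) ^ b := pow_nonneg (by linarith [hs.2]) _
      nlinarith [hs.1, hs.2]
  rw [intervalIntegral.integral_const, smul_eq_mul] at h2
  nlinarith

lemma mU_le_sq {b : ℕ} (hb : 1 ≤ b) {r : ℝ} (h0 : 0 ≤ r) (h1 : r ≤ 1) :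
    m0 b - U b r ≤ (1 - r) ^ 2 := by
  have h := U_int b r 1
  rw [U_one] at h
  rw [← h]
  have h2 : ∫ s in r..1, s * (1 - s) ^ b ≤ ∫ s in r..1, (1 - r) := by
    apply intervalIntegral.integral_mono_on h1
    · apply Continuous.intervalIntegrable; fun_prop
    · exact intervalIntegrable_const
    · intro s hs
      have h3 : (1 - s) ^ b ≤ (1 - s) ^ 1 :=
        pow_le_pow_of_le_one (by linarith [hs.2]) (by linarith [hs.1]) hb
      have h4 : 0 ≤ (1 - s) ^ b := pow_nonneg (by linarith [hs.2]) _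
      rw [pow_one] at h3
      nlinarith [hs.1, hs.2]
  rw [intervalIntegral.integral_const, smul_eq_mul] at h2
  nlinarith

lemma gpos {b : ℕ} {r : ℝ} (h0 : 0 < r) (h1 : r < 1) : 0 < r * (1 - r) ^ b :=
  mul_pos h0 (pow_pos (by linarith) _)

lemma fact1 {b : ℕ} {t0 κ : ℝ} (h0 : 0 < t0) (h1 : t0 < 1) (hκ : 0 < κ)
    (h : κ * U b t0 < t0 * (1 - t0) ^ b) {r : ℝ} (hr : 0 < r) (hr1 : r ≤ t0) :
    κ * U b r < r * (1 - r) ^ b := by
  have h2 := (t_mono b r t0 hr hr1 h1).1
  have h3 : 0 < t0 * (1 - t0) ^ b := gpos h0 h1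
  have h4 : 0 < r * (1 - r) ^ b := gpos hr (by linarith)
  have h5 : κ * U b r * (t0 * (1 - t0) ^ b) < r * (1 - r) ^ b * (t0 * (1 - t0) ^ b) := by
    calc κ * U b r * (t0 * (1 - t0) ^ b) = κ * (t0 * (1 - t0) ^ b * U b r) := by ring
      _ ≤ κ * (r * (1 - r) ^ b * U b t0) := by gcongr
      _ = r * (1 - r) ^ b * (κ * U b t0) := by ring
      _ < r * (1 - r) ^ b * (t0 * (1 - t0) ^ b) := by gcongr
  exact lt_of_mul_lt_mul_right h5 h3.le

lemma fact2 {b : ℕ} {t0 κ : ℝ} (h0 : 0 < t0) (hκ : 0 < κ)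
    (h : κ * (m0 b - U b t0) ≤ t0 * (1 - t0) ^ b) {r : ℝ} (hr : t0 ≤ r) (hr1 : r < 1) :
    κ * (m0 b - U b r) ≤ r * (1 - r) ^ b := by
  have h2 := (t_mono b t0 r h0 hr hr1).2.1
  have h3 : 0 < t0 * (1 - t0) ^ b := gpos h0 (by linarith)
  have h4 : 0 < r * (1 - r) ^ b := gpos (by linarith) hr1
  have h5 : κ * (m0 b - U b r) * (t0 * (1 - t0) ^ b) ≤ r * (1 - r) ^ b * (t0 * (1 - t0) ^ b) := by
    calc κ * (m0 b - U b r) * (t0 * (1 - t0) ^ b) =
          κ * (t0 * (1 - t0) ^ b * (m0 b - U b r)) := by ring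
      _ ≤ κ * (r * (1 - r) ^ b * (m0 b - U b t0)) := by gcongr
      _ = r * (1 - r) ^ b * (κ * (m0 b - U b t0)) := by ring
      _ ≤ r * (1 - r) ^ b * (t0 * (1 - t0) ^ b) := by gcongr
  exact le_of_mul_le_mul_right h5 h3

lemma fact3 {b : ℕ} {t0 κ : ℝ} (h1 : t0 < 1) (h : κ * U b t0 < t0 * (1 - t0) ^ b) :
    ∃ η : ℝ, 0 < η ∧ t0 + η < 1 ∧ ∀ r ∈ Icc t0 (t0 + η), κ * U b r < r * (1 - r) ^ b := by
  have hc : Continuous (fun r => r * (1 - r) ^ b - κ * U b r) := by
    have := U_cont b
    fun_prop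
  have h2 : 0 < t0 * (1 - t0) ^ b - κ * U b t0 := by linarith
  obtain ⟨ε, hε, H⟩ := Metric.eventually_nhds_iff.1 (hc.continuousAt.eventually (lt_mem_nhds h2))
  refine ⟨min (ε / 2) ((1 - t0) / 2), lt_min (by linarith) (by linarith), ?_, fun r hr => ?_⟩
  · have := min_le_right (ε / 2) ((1 - t0) / 2)
    linarith
  · have h3 := min_le_left (ε / 2) ((1 - t0) / 2)
    have h4 := H (y := r) (by
      rw [Real.dist_eq, abs_of_nonneg (by linarith [hr.1])]
      linarith [hr.2])
    linarith

lemma sq_div_le {b : ℕ} {r x : ℝ} (hr : 0 < r) (h : |x| ≤ r * (1 - r) ^ b) :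
    (x / r) ^ 2 ≤ (1 - r) ^ (2 * b) := by
  have h1 : |x / r| ≤ (1 - r) ^ b := by
    rw [abs_div, abs_of_pos hr, div_le_iff₀ hr, mul_comm]
    exact h
  have h2 : (1 - r) ^ (2 * b) = ((1 - r) ^ b) ^ 2 := by rw [← pow_mul, mul_comm]
  rw [h2, ← sq_abs]
  exact pow_le_pow_left₀ (abs_nonneg _) h1 2

theorem t_A : S_A := by
  intro b hb A hA hA1 C hP t0 τ κ hτ hτt ht1 hκ hU hmU hL hgood
  have ht0 : 0 < t0 := hτ.trans_le hτt
  obtain ⟨η0, hη0, hη1, hη2⟩ := fact3 ht1 hU
  -- the tangential part
  set q : ℝ → ℝ := fun r => √((1 - r) ^ (2 * b) - (κ * U b r / r) ^ 2) with hq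
  have hpos : ∀ r ∈ Ioo 0 τ, 0 < (1 - r) ^ (2 * b) - (κ * U b r / r) ^ 2 := by
    intro r hr
    have h1 := fact1 ht0 ht1 hκ hU hr.1 (hr.2.le.trans hτt)
    have h2 : 0 ≤ κ * U b r / r := div_nonneg (mul_nonneg hκ.le
      (U_pos hr.1 (by linarith [hr.2])).le) hr.1.le
    have h3 : κ * U b r / r < (1 - r) ^ b := by
      rw [div_lt_iff₀ hr.1, mul_comm ((1 - r) ^ b)]
      exact h1
    have h4 : (κ * U b r / r) ^ 2 < ((1 - r) ^ b) ^ 2 := pow_lt_pow_left₀ h3 h2 (by norm_num)
    rw [← pow_mul, mul_comm b 2] at h4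
    linarith
  have hqc : ContDiffOn ℝ 1 q (Ioo 0 τ) := by
    apply ContDiffOn.sqrt _ (fun r hr => (hpos r hr).ne')
    have hUc : ContDiff ℝ 1 (U b) := by
      unfold U
      fun_prop
    apply ContDiffOn.sub (by fun_prop)
    apply ContDiffOn.pow
    exact ((contDiff_const.mul hUc).contDiffOn).div contDiffOn_id (fun r hr => hr.1.ne')
  have hq0 : ∀ r ∈ Ioo 0 τ, 0 ≤ q r := fun r _ => Real.sqrt_nonneg _
  have hqsq : ∀ r ∈ Ioo 0 τ, q r ^ 2 = (1 - r) ^ (2 * b) - (κ * U b r / r) ^ 2 :=
    fun r hr => Real.sq_sqrt (hpos r hr).le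
  have hq1 : ∀ r ∈ Ioo 0 τ, q r ≤ 1 := by
    intro r hr
    have h1 := hqsq r hr
    have h2 : (1 - r) ^ (2 * b) ≤ 1 := pow_le_one₀ (by linarith [hr.2]) (by linarith [hr.1])
    have h3 := sq_nonneg (κ * U b r / r)
    have h4 : q r ^ 2 ≤ 1 := by linarith
    nlinarith [hq0 r hr]
  -- the estimate
  have main : ∀ δ : ℝ, 0 < δ → δ < η0 → 2 * δ < t0 → 4 * δ < 1 - t0 →
      κ * ms b A + 2 * (∫ r in Ioo (0 : ℝ) τ, q r) ≤
        C + κ * (24 * π * δ + m0 b * (1 + δ) * (δ⁻¹ * ∫ r in t0..(t0 + δ), al A r)) := by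
    intro δ hδ hδη hδt hδ1
    obtain ⟨θ, a1, a2, a3, a4, a5⟩ := exists_theta t0 hδ
    obtain ⟨χ, c1, c2, c3, c4, c5, c6, c7⟩ := exists_cut (p := 0) (q := 1) (δ := δ) hδ
      (by linarith) (by linarith)
    set N : ℝ → ℝ := fun r => κ * (χ r * (U b r - m0 b * (1 - θ r))) with hN
    have hUc : ContDiff ℝ 1 (U b) := by
      unfold U
      fun_prop
    have hNc : ContDiff ℝ 1 N :=
      contDiff_const.mul (c1.mul (hUc.sub (contDiff_const.mul (contDiff_const.sub a1))))
    have hNC : Cc N := by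
      refine Cc.of_bounds hNc hδ (fun r hr => ?_) (fun r hr => ?_)
      · simp only [hN, c2 r (by linarith), zero_mul, mul_zero]
      · simp only [hN, c3 r (by linarith), zero_mul, mul_zero]
    have hNd : ∀ r, deriv N r = κ * (deriv χ r * (U b r - m0 b * (1 - θ r)) +
        χ r * (r * (1 - r) ^ b + m0 b * deriv θ r)) := by
      intro r
      have h1 := (c1.differentiable (by norm_num) r).hasDerivAt
      have h2 := (a1.differentiable (by norm_num) r).hasDerivAt
      have h3 := U_hasDeriv b r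
      have h4 := (h1.mul (h3.sub ((h2.const_sub 1).const_mul (m0 b)))).const_mul κ
      refine (h4.deriv).trans ?_
      simp only [Pi.sub_apply]
      ring
    have hm0 : 0 < m0 b := by unfold m0; positivity
    have hNb0 : ∀ r ∈ Ioo 0 t0, |N r| ≤ κ * U b r := by
      intro r hr
      have h1 := U_pos (b := b) hr.1 (by linarith [hr.2])
      simp only [hN, a2 r hr.2.le, sub_self, mul_zero, sub_zero]
      rw [abs_mul, abs_mul, abs_of_pos hκ, abs_of_nonneg (c5 r).1, abs_of_pos h1]
      have := (c5 r).2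
      have h5 : χ r * U b r ≤ 1 * U b r := by gcongr
      rw [one_mul] at h5
      gcongr
    have hNb : ∀ r ∈ Ioo (0 : ℝ) 1, |N r| ≤ r * (1 - r) ^ b := by
      intro r hr
      rcases lt_or_ge r t0 with h | h
      · exact (hNb0 r ⟨hr.1, h⟩).trans (fact1 ht0 ht1 hκ hU hr.1 h.le).le
      · have h1 := fact2 ht0 hκ hmU.le h hr.2
        have h2 := U_pos (b := b) hr.1 hr.2.le
        have h3 := mU_pos (b := b) hr.1.le hr.2
        have h4 := a4 r
        have h5 := c5 r
        have hgr := gpos (b := b) hr.1 hr.2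
        have h6 : κ * |U b r - m0 b * (1 - θ r)| ≤ r * (1 - r) ^ b := by
          rcases lt_or_ge r (t0 + δ) with h7 | h7
          · have h8 := (hη2 r ⟨h, by linarith⟩).le
            have h9 : |U b r - m0 b * (1 - θ r)| ≤ max (U b r) (m0 b - U b r) := by
              rw [abs_le]
              constructor
              · have : m0 b * (1 - θ r) ≤ m0 b := by nlinarith [h4.1]
                have := le_max_right (U b r) (m0 b - U b r)
                linarith
              · have : 0 ≤ m0 b * (1 - θ r) := mul_nonneg hm0.le (by linarith [h4.2])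
                have := le_max_left (U b r) (m0 b - U b r)
                linarith
            refine (mul_le_mul_of_nonneg_left h9 hκ.le).trans ?_
            rcases le_total (U b r) (m0 b - U b r) with h10 | h10
            · rw [max_eq_right h10]; exact h1
            · rw [max_eq_left h10]; exact h8
          · rw [a3 r h7, sub_zero, mul_one, abs_sub_comm, abs_of_pos h3]
            exact h1
        calc |N r| = χ r * (κ * |U b r - m0 b * (1 - θ r)|) := by
              simp only [hN]
              rw [abs_mul, abs_mul, abs_of_pos hκ, abs_of_nonneg h5.1]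
              ring
          _ ≤ 1 * (r * (1 - r) ^ b) := mul_le_mul h5.2 h6 (by positivity) zero_le_one
          _ = r * (1 - r) ^ b := one_mul _
    have hx := xr hA hA1 hP hNC hτ (hτt.trans ht1.le) hqc hq0 hq1
      (fun r hr => sq_div_le hr.1 (hNb r hr)) (fun r hr => by
        have h1 := hNb0 r ⟨hr.1, hr.2.trans_le hτt⟩
        have h2 : (N r / r) ^ 2 ≤ (κ * U b r / r) ^ 2 := by
          rw [← sq_abs (N r / r), abs_div, abs_of_pos hr.1]
          apply pow_le_pow_left₀ (div_nonneg (abs_nonneg _) hr.1.le)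
          exact div_le_div_of_nonneg_right h1 hr.1.le
        rw [hqsq r hr]
        linarith) hgood
    -- the lower bound
    set B : ℝ := m0 b * ((1 + δ) / δ) with hBdef
    have hB : 0 ≤ B := by positivity
    have hgc : Continuous (fun r : ℝ => κ * (r * (1 - r) ^ b)) := by fun_prop
    have hNi : IntegrableOn (fun r => deriv N r * al A r) (Ioo 0 1) :=
      int_al hA (hNc.continuous_deriv (by norm_num)) 0 1
    have hgi : IntegrableOn (fun r => κ * (r * (1 - r) ^ b) * al A r) (Ioo 0 1) :=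
      int_al hA hgc 0 1
    have hci : Integrable (fun r : ℝ => (Ioo 0 1).indicator (fun _ => κ * (16 * π * δ)) r) :=
      ind_i _ _ _
    have hji : Integrable (fun r : ℝ => (Ioo t0 (t0 + δ)).indicator
        (fun r => κ * B * al A r) r) := by
      rw [integrable_indicator_iff measurableSet_Ioo]
      exact int_al hA continuous_const _ _
    have hi3 : Integrable (fun r : ℝ => (Ioo 0 (2 * δ)).indicator (fun _ => κ * (2 * π)) r) :=
      ind_i _ _ _
    have hi4 : Integrable (fun r : ℝ => (Ioo (1 - 2 * δ) 1).indicator (fun _ => κ * (2 * π)) r) :=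
      ind_i _ _ _
    have hpt : ∀ r ∈ Ioo (0 : ℝ) 1, κ * (r * (1 - r) ^ b) * al A r -
        ((Ioo 0 1).indicator (fun _ => κ * (16 * π * δ)) r +
          (Ioo t0 (t0 + δ)).indicator (fun r => κ * B * al A r) r +
          ((Ioo 0 (2 * δ)).indicator (fun _ => κ * (2 * π)) r +
          (Ioo (1 - 2 * δ) 1).indicator (fun _ => κ * (2 * π)) r)) ≤ deriv N r * al A r := by
      intro r hr
      have hal0 := al_nonneg A r
      have hal1 := al_le A r
      have hg1 : r * (1 - r) ^ b ≤ 1 := by
        have h3 : (1 - r) ^ b ≤ 1 := pow_le_one₀ (by linarith [hr.2]) (by linarith [hr.1])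
        have h4 : 0 ≤ (1 - r) ^ b := pow_nonneg (by linarith [hr.2]) _
        nlinarith [hr.1, hr.2]
      have hg0 := (gpos (b := b) hr.1 hr.2).le
      have i1 : 0 ≤ (Ioo t0 (t0 + δ)).indicator (fun r => κ * B * al A r) r :=
        indicator_nonneg (fun x _ => mul_nonneg (mul_nonneg hκ.le hB) (al_nonneg A x)) _
      have i3 : 0 ≤ (Ioo 0 (2 * δ)).indicator (fun _ => κ * (2 * π)) r :=
        indicator_nonneg (fun x _ => by positivity) _
      have i4 : 0 ≤ (Ioo (1 - 2 * δ) 1).indicator (fun _ => κ * (2 * π)) r :=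
        indicator_nonneg (fun x _ => by positivity) _
      rw [indicator_of_mem hr]
      -- first term
      have e1 : |deriv χ r * (U b r - m0 b * (1 - θ r))| ≤ 8 * δ := by
        rcases lt_or_ge r (2 * δ) with h | h
        · rw [a2 r (by linarith), sub_self, mul_zero, sub_zero, abs_mul,
            abs_of_pos (U_pos (b := b) hr.1 hr.2.le)]
          have h1 := U_le_sq (b := b) hr.1.le hr.2.le
          have h2 : U b r ≤ 4 * δ ^ 2 := by nlinarith [hr.1]
          calc |deriv χ r| * U b r ≤ (2 / δ) * (4 * δ ^ 2) :=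
                mul_le_mul (c6 r) h2 (U_pos (b := b) hr.1 hr.2.le).le (by positivity)
            _ = 8 * δ := by field_simp; ring
        · rcases le_or_gt r (1 - 2 * δ) with h3 | h3
          · rw [c7 r (by linarith) h3, zero_mul, abs_zero]
            positivity
          · have h4 := mU_pos (b := b) hr.1.le hr.2
            rw [a3 r (by linarith), sub_zero, mul_one, abs_mul, abs_sub_comm (U b r),
              abs_of_pos h4]
            have h1 := mU_le_sq hb hr.1.le hr.2.le
            have h2 : m0 b - U b r ≤ 4 * δ ^ 2 := by nlinarith [hr.2]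
            calc |deriv χ r| * (m0 b - U b r) ≤ (2 / δ) * (4 * δ ^ 2) :=
                  mul_le_mul (c6 r) h2 h4.le (by positivity)
              _ = 8 * δ := by field_simp; ring
      have e2 : -(8 * δ) * (2 * π) ≤ deriv χ r * (U b r - m0 b * (1 - θ r)) * al A r := by
        have h1 := (abs_le.1 e1).1
        have h2 : -(8 * δ) * al A r ≤ deriv χ r * (U b r - m0 b * (1 - θ r)) * al A r := by
          gcongr
        have h3 : -(8 * δ) * (2 * π) ≤ -(8 * δ) * al A r := by nlinarith
        linarith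
      -- second term
      have e3 : r * (1 - r) ^ b * al A r - (Ioo 0 (2 * δ)).indicator (fun _ => 2 * π) r -
          (Ioo (1 - 2 * δ) 1).indicator (fun _ => 2 * π) r ≤
          χ r * (r * (1 - r) ^ b) * al A r := by
        have k3 : 0 ≤ (Ioo 0 (2 * δ)).indicator (fun _ => 2 * π) r :=
          indicator_nonneg (fun x _ => by positivity) _
        have k4 : 0 ≤ (Ioo (1 - 2 * δ) 1).indicator (fun _ => 2 * π) r :=
          indicator_nonneg (fun x _ => by positivity) _
        have k5 : 0 ≤ χ r * (r * (1 - r) ^ b) * al A r :=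
          mul_nonneg (mul_nonneg (c5 r).1 hg0) hal0
        have k6 : r * (1 - r) ^ b * al A r ≤ 2 * π := by
          calc r * (1 - r) ^ b * al A r ≤ 1 * (2 * π) :=
                mul_le_mul hg1 hal1 hal0 zero_le_one
            _ = 2 * π := one_mul _
        rcases lt_or_ge r (2 * δ) with h | h
        · rw [indicator_of_mem (show r ∈ Ioo 0 (2 * δ) from ⟨hr.1, h⟩)]
          linarith
        · rcases le_or_gt r (1 - 2 * δ) with h3 | h3
          · rw [c4 r (by linarith) h3, one_mul]
            linarith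
          · rw [indicator_of_mem (show r ∈ Ioo (1 - 2 * δ) 1 from ⟨h3, hr.2⟩)]
            linarith
      -- third term
      have e4 : -(Ioo t0 (t0 + δ)).indicator (fun r => B * al A r) r ≤
          χ r * (m0 b * deriv θ r) * al A r := by
        by_cases h : t0 < r ∧ r < t0 + δ
        · rw [indicator_of_mem (show r ∈ Ioo t0 (t0 + δ) from h)]
          have h1 := (a5 r).2.1
          have h1' := (a5 r).1
          have h2 : -B ≤ χ r * (m0 b * deriv θ r) := by
            have h3 : m0 b * deriv θ r ≤ 0 := mul_nonpos_of_nonneg_of_nonpos hm0.le h1'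
            have h4 : -B ≤ m0 b * deriv θ r := by
              rw [hBdef, ← mul_neg]
              gcongr
            have h5 := (c5 r).2
            have h6 := (c5 r).1
            nlinarith
          have h7 : -B * al A r ≤ χ r * (m0 b * deriv θ r) * al A r := by gcongr
          linarith
        · rw [indicator_of_notMem (show r ∉ Ioo t0 (t0 + δ) from h), (a5 r).2.2 h]
          simp
      have e5 : (Ioo t0 (t0 + δ)).indicator (fun r => κ * B * al A r) r =
          κ * (Ioo t0 (t0 + δ)).indicator (fun r => B * al A r) r := by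
        by_cases h : r ∈ Ioo t0 (t0 + δ)
        · rw [indicator_of_mem h, indicator_of_mem h]; ring
        · rw [indicator_of_notMem h, indicator_of_notMem h, mul_zero]
      have e6 : (Ioo 0 (2 * δ)).indicator (fun _ => κ * (2 * π)) r =
          κ * (Ioo 0 (2 * δ)).indicator (fun _ => 2 * π) r := by
        by_cases h : r ∈ Ioo 0 (2 * δ)
        · rw [indicator_of_mem h, indicator_of_mem h]
        · rw [indicator_of_notMem h, indicator_of_notMem h, mul_zero]
      have e7 : (Ioo (1 - 2 * δ) 1).indicator (fun _ => κ * (2 * π)) r =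
          κ * (Ioo (1 - 2 * δ) 1).indicator (fun _ => 2 * π) r := by
        by_cases h : r ∈ Ioo (1 - 2 * δ) 1
        · rw [indicator_of_mem h, indicator_of_mem h]
        · rw [indicator_of_notMem h, indicator_of_notMem h, mul_zero]
      rw [e5, e6, e7, hNd]
      have e8 : κ * (deriv χ r * (U b r - m0 b * (1 - θ r)) +
          χ r * (r * (1 - r) ^ b + m0 b * deriv θ r)) * al A r =
          κ * (deriv χ r * (U b r - m0 b * (1 - θ r)) * al A r +
            χ r * (r * (1 - r) ^ b) * al A r + χ r * (m0 b * deriv θ r) * al A r) := by ring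
      rw [e8]
      have e9 : r * (1 - r) ^ b * al A r - (16 * π * δ +
          (Ioo t0 (t0 + δ)).indicator (fun r => B * al A r) r +
          ((Ioo 0 (2 * δ)).indicator (fun _ => 2 * π) r +
          (Ioo (1 - 2 * δ) 1).indicator (fun _ => 2 * π) r)) ≤
          deriv χ r * (U b r - m0 b * (1 - θ r)) * al A r +
            χ r * (r * (1 - r) ^ b) * al A r + χ r * (m0 b * deriv θ r) * al A r := by
        linarith
      have e10 := mul_le_mul_of_nonneg_left e9 hκ.le
      linarith
    obtain ⟨f0, f1⟩ := int5 hgi hci.integrableOn hji.integrableOn hi3.integrableOn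
      hi4.integrableOn
    have hint := setIntegral_mono_on f0 hNi measurableSet_Ioo hpt
    have f2 : ∫ r in Ioo (0 : ℝ) 1, κ * (r * (1 - r) ^ b) * al A r = κ * ms b A := by
      rw [ms_pol b hA hA1, ← integral_const_mul]
      congr 1; ext r; ring
    have f3 := ind_le (Ioo (0 : ℝ) 1) (a := 0) (b := 1) (c := κ * (16 * π * δ)) zero_le_one
      (by positivity)
    have f4 := ind_le (Ioo (0 : ℝ) 1) (a := 0) (b := 2 * δ) (c := κ * (2 * π)) (by linarith)
      (by positivity)
    have f5 := ind_le (Ioo (0 : ℝ) 1) (a := 1 - 2 * δ) (b := 1) (c := κ * (2 * π)) (by linarith)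
      (by positivity)
    have f6 : ∫ r in Ioo (0 : ℝ) 1, (Ioo t0 (t0 + δ)).indicator (fun r => κ * B * al A r) r ≤
        κ * (m0 b * (1 + δ) * (δ⁻¹ * ∫ r in t0..(t0 + δ), al A r)) := by
      have h1 : ∫ r in Ioo (0 : ℝ) 1, (Ioo t0 (t0 + δ)).indicator (fun r => κ * B * al A r) r ≤
          ∫ r, (Ioo t0 (t0 + δ)).indicator (fun r => κ * B * al A r) r :=
        setIntegral_le_integral hji (Eventually.of_forall fun r =>
          indicator_nonneg (fun x _ => mul_nonneg (mul_nonneg hκ.le hB) (al_nonneg A x)) _)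
      refine h1.trans (le_of_eq ?_)
      rw [integral_indicator measurableSet_Ioo, integral_const_mul,
        intervalIntegral.integral_of_le (by linarith), integral_Ioc_eq_integral_Ioo, hBdef]
      field_simp
    rw [f1, f2] at hint
    have f7 : κ * (16 * π * δ) * (1 - 0) + κ * (2 * π) * (2 * δ - 0) +
        κ * (2 * π) * (1 - (1 - 2 * δ)) = κ * (24 * π * δ) := by ring
    rw [mul_add]
    linarith
  have hlim : Tendsto (fun δ : ℝ => C + κ * (24 * π * δ + m0 b * (1 + δ) *
      (δ⁻¹ * ∫ r in t0..(t0 + δ), al A r))) (𝓝[>] 0)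
      (𝓝 (C + κ * (24 * π * 0 + m0 b * (1 + 0) * 0))) := by
    have h1 : Tendsto (fun δ : ℝ => 24 * π * δ) (𝓝[>] 0) (𝓝 (24 * π * 0)) :=
      ((continuous_const.mul continuous_id).tendsto 0).mono_left nhdsWithin_le_nhds
    have h2 : Tendsto (fun δ : ℝ => m0 b * (1 + δ)) (𝓝[>] 0) (𝓝 (m0 b * (1 + 0))) :=
      ((continuous_const.mul (continuous_const.add continuous_id)).tendsto 0).mono_left
        nhdsWithin_le_nhds
    exact ((h1.add (h2.mul hL)).const_mul κ).const_add C
  have hfin := ge_of_tendsto hlim (by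
    filter_upwards [Ioo_mem_nhdsGT hη0, Ioo_mem_nhdsGT (show 0 < t0 / 2 by linarith),
      Ioo_mem_nhdsGT (show 0 < (1 - t0) / 4 by linarith)] with δ h1 h2 h3
    exact main δ h1.1 h1.2 (by linarith [h2.2]) (by linarith [h3.2]))
  rw [intervalIntegral.integral_of_le hτ.le, integral_Ioc_eq_integral_Ioo]
  simp only [mul_zero, add_zero] at hfin
  exact hfin

end Pool.Agent.Y290.MI
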