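import Pool.Agent.Y290.MI.Xray

/-! # Lower bounds for the weighted perimeter: S_mono, S_A0, S_A -/

set_option autoImplicit false

open MeasureTheory Set Metric Filter Topology
open scoped ENNReal Real

noncomputable section

namespace Pool.Agent.Y290.MI

open Pool.Agent.TH304.MI

/-! ### monotonicity -/

lemma U_scale (b : ℕ) {r : ℝ} (hr : 0 < r) :
    U b r = r * ∫ u in (0 : ℝ)..1, (r * u) * (1 - r * u) ^ b := by
  have h := intervalIntegral.integral_comp_mul_left (fun s : ℝ => s * (1 - s) ^ b) (a := 0)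
    (b := 1) hr.ne'
  rw [mul_zero, mul_one, U_int, U_zero, sub_zero, smul_eq_mul] at h
  rw [h]
  field_simp

lemma m0_sub_U (b : ℕ) (r : ℝ) :
    m0 b - U b r = (1 - r) ^ (b + 1) * (1 + (b + 1) * r) / ((b + 1) * (b + 2)) := by
  unfold m0 U
  ring

lemma U_pos {b : ℕ} {r : ℝ} (h0 : 0 < r) (h1 : r ≤ 1) : 0 < U b r := by
  have := U_lt (b := b) le_rfl h0 h1
  rwa [U_zero] at this

lemma mU_pos {b : ℕ} {r : ℝ} (h0 : 0 ≤ r) (h1 : r < 1) : 0 < m0 b - U b r := by
  have := U_lt (b := b) h0 h1 le_rfl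
  rw [U_one] at this
  linarith

theorem t_mono : S_mono := by
  intro b r t hr hrt ht
  have ht0 : 0 < t := hr.trans_le hrt
  refine ⟨?_, ?_, U_pos hr (by linarith), mU_pos ht0.le ht⟩
  · rw [U_scale b hr, U_scale b ht0]
    have e1 : t * (1 - t) ^ b * (r * ∫ u in (0 : ℝ)..1, (r * u) * (1 - r * u) ^ b) =
        ∫ u in (0 : ℝ)..1, t * (1 - t) ^ b * r * ((r * u) * (1 - r * u) ^ b) := by
      rw [intervalIntegral.integral_const_mul]; ring
    have e2 : r * (1 - r) ^ b * (t * ∫ u in (0 : ℝ)..1, (t * u) * (1 - t * u) ^ b) =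
        ∫ u in (0 : ℝ)..1, r * (1 - r) ^ b * t * ((t * u) * (1 - t * u) ^ b) := by
      rw [intervalIntegral.integral_const_mul]; ring
    rw [e1, e2]
    apply intervalIntegral.integral_mono_on zero_le_one
    · apply Continuous.intervalIntegrable; fun_prop
    · apply Continuous.intervalIntegrable; fun_prop
    · intro u hu
      have h1 : 0 ≤ (1 - t) * (1 - r * u) := mul_nonneg (by linarith) (by nlinarith [hu.1, hu.2])
      have h2 : (1 - t) * (1 - r * u) ≤ (1 - r) * (1 - t * u) := by nlinarith [hu.1, hu.2]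
      have h3 := pow_le_pow_left₀ h1 h2 b
      have h4 : 0 ≤ ((1 - t) * (1 - r * u)) ^ b := pow_nonneg h1 b
      have e3 : t * (1 - t) ^ b * r * ((r * u) * (1 - r * u) ^ b) =
          (t * r * u) * (r * ((1 - t) * (1 - r * u)) ^ b) := by rw [mul_pow]; ring
      have e4 : r * (1 - r) ^ b * t * ((t * u) * (1 - t * u) ^ b) =
          (t * r * u) * (t * ((1 - r) * (1 - t * u)) ^ b) := by rw [mul_pow]; ring
      rw [e3, e4]
      apply mul_le_mul_of_nonneg_left _ (mul_nonneg (by positivity) hu.1)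
      exact mul_le_mul hrt h3 h4 ht0.le
  · rw [m0_sub_U, m0_sub_U]
    have hp : (0 : ℝ) < ((b : ℝ) + 1) * (b + 2) := by positivity
    rw [mul_div_assoc', mul_div_assoc', div_le_div_iff_of_pos_right hp]
    have h1 : 0 ≤ (1 - r) ^ b * (1 - t) ^ b :=
      mul_nonneg (pow_nonneg (by linarith) _) (pow_nonneg (by linarith) _)
    have e1 : r * (1 - r) ^ b * ((1 - t) ^ (b + 1) * (1 + (b + 1) * t)) =
        ((1 - r) ^ b * (1 - t) ^ b) * (r * (1 - t) * (1 + (b + 1) * t)) := by ring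
    have e2 : t * (1 - t) ^ b * ((1 - r) ^ (b + 1) * (1 + (b + 1) * r)) =
        ((1 - r) ^ b * (1 - t) ^ b) * (t * (1 - r) * (1 + (b + 1) * r)) := by ring
    rw [e1, e2]
    apply mul_le_mul_of_nonneg_left _ h1
    have h2 : 0 ≤ ((b : ℝ) + 1) * (r * t) * (t - r) :=
      mul_nonneg (by positivity) (by linarith)
    nlinarith

/-! ### a cutoff -/

lemma exists_cut {p q δ : ℝ} (hδ : 0 < δ) (hδ1 : δ ≤ 1) (hpq : p + 2 * δ ≤ q - 2 * δ) :
    ∃ χ : ℝ → ℝ, ContDiff ℝ 1 χ ∧ (∀ r, r ≤ p + δ → χ r = 0) ∧ (∀ r, q - δ ≤ r → χ r = 0) ∧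
      (∀ r, p + 2 * δ ≤ r → r ≤ q - 2 * δ → χ r = 1) ∧ (∀ r, 0 ≤ χ r ∧ χ r ≤ 1) ∧
      (∀ r, |deriv χ r| ≤ 2 / δ) ∧
      (∀ r, p + 2 * δ ≤ r → r ≤ q - 2 * δ → deriv χ r = 0) := by
  obtain ⟨θ, a1, a2, a3, a4, a5⟩ := exists_theta (p + δ) hδ
  obtain ⟨ζ, c1, c2, c3, c4, c5⟩ := exists_theta (q - 2 * δ) hδ
  have hsl : (1 + δ) / δ ≤ 2 / δ := by
    apply div_le_div_of_nonneg_right _ hδ.le
    linarith
  have hder : ∀ r, deriv (fun r => (1 - θ r) * ζ r) r = -deriv θ r * ζ r + (1 - θ r) * deriv ζ r := by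
    intro r
    have h1 := (a1.differentiable (by norm_num) r).hasDerivAt
    have h2 := (c1.differentiable (by norm_num) r).hasDerivAt
    exact ((h1.const_sub 1).mul h2).deriv
  refine ⟨fun r => (1 - θ r) * ζ r, (contDiff_const.sub a1).mul c1, ?_, ?_, ?_, ?_, ?_, ?_⟩
  · intro r hr
    simp only [a2 r hr, sub_self, zero_mul]
  · intro r hr
    simp only [c3 r (by linarith), mul_zero]
  · intro r h1 h2
    simp only [a3 r (by linarith), c2 r h2, sub_zero, mul_one]
  · intro r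
    have h1 := a4 r
    have h2 := c4 r
    exact ⟨mul_nonneg (by linarith) h2.1, mul_le_one₀ (by linarith) h2.1 h2.2⟩
  · intro r
    rw [hder]
    have h1 := a4 r
    have h2 := c4 r
    have h3 := a5 r
    have h4 := c5 r
    rcases le_or_gt (p + 2 * δ) r with h | h
    · have h5 : deriv θ r = 0 := h3.2.2 (fun h6 => by linarith [h6.2])
      rw [h5, neg_zero, zero_mul, zero_add, abs_mul, abs_of_nonneg (by linarith : 0 ≤ 1 - θ r),
        abs_of_nonpos h4.1]
      calc (1 - θ r) * -deriv ζ r ≤ 1 * -deriv ζ r := by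
            apply mul_le_mul_of_nonneg_right (by linarith) (by linarith)
        _ ≤ 2 / δ := by linarith [h4.2.1]
    · have h5 : deriv ζ r = 0 := h4.2.2 (fun h6 => by linarith [h6.1])
      rw [h5, mul_zero, add_zero, abs_mul, abs_neg, abs_of_nonneg h2.1, abs_of_nonpos h3.1]
      calc -deriv θ r * ζ r ≤ -deriv θ r * 1 := by
            apply mul_le_mul_of_nonneg_left h2.2 (by linarith)
        _ ≤ 2 / δ := by linarith [h3.2.1]
  · intro r h1 h2
    rw [hder, (a5 r).2.2 (fun h6 => by linarith [h6.2]), (c5 r).2.2 (fun h6 => by linarith [h6.1])]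
    ring

/-! ### small integrals -/

lemma ind_i (a b c : ℝ) : Integrable ((Ioo a b).indicator (fun _ => c)) := by
  rw [integrable_indicator_iff measurableSet_Ioo]
  exact integrableOn_const measure_Ioo_lt_top.ne enorm_ne_top

lemma ind_le (S : Set ℝ) {a b c : ℝ} (hab : a ≤ b) (hc : 0 ≤ c) :
    ∫ r in S, (Ioo a b).indicator (fun _ => c) r ≤ c * (b - a) := by
  have h1 : ∫ r in S, (Ioo a b).indicator (fun _ => c) r ≤
      ∫ r, (Ioo a b).indicator (fun _ => c) r :=
    setIntegral_le_integral (ind_i a b c) (Eventually.of_forall fun r =>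
      indicator_nonneg (fun _ _ => hc) _)
  refine h1.trans (le_of_eq ?_)
  rw [integral_indicator measurableSet_Ioo, setIntegral_const, smul_eq_mul,
    Real.volume_real_Ioo_of_le hab]
  ring

/-! ### the inequality for general tangential parts -/

lemma xr {b : ℕ} {A : Set ℂ} (hA : MeasurableSet A) (hA1 : A ⊆ D1) {C : ℝ}
    (hP : P2 b (D1 \ {0}) A C) {N q : ℝ → ℝ} (hN : Cc N) {τ : ℝ} (hτ : 0 < τ) (hτ1 : τ ≤ 1)
    (hq : ContDiffOn ℝ 1 q (Ioo 0 τ)) (hq0 : ∀ r ∈ Ioo 0 τ, 0 ≤ q r)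
    (hq1 : ∀ r ∈ Ioo 0 τ, q r ≤ 1)
    (hb : ∀ r ∈ Ioo (0 : ℝ) 1, (N r / r) ^ 2 ≤ (1 - r) ^ (2 * b))
    (hb2 : ∀ r ∈ Ioo (0 : ℝ) τ, q r ^ 2 + (N r / r) ^ 2 ≤ (1 - r) ^ (2 * b))
    (hgood : ∀ᵐ r ∂(volume.restrict (Ioo (0 : ℝ) τ)), 0 < al A r ∧ al A r < 2 * π) :
    (∫ r in Ioo (0 : ℝ) 1, deriv N r * al A r) + 2 * (∫ r in Ioo (0 : ℝ) τ, q r) ≤ C := by
  have hqi : IntegrableOn q (Ioo 0 τ) := by
    have h1 : IntegrableOn (fun _ : ℝ => (1 : ℝ)) (Ioo 0 τ) :=
      integrableOn_const measure_Ioo_lt_top.ne enorm_ne_top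
    refine h1.mono' (hq.continuousOn.aestronglyMeasurable measurableSet_Ioo) ?_
    filter_upwards [ae_restrict_mem measurableSet_Ioo] with r hr
    rw [Real.norm_of_nonneg (hq0 r hr)]
    exact hq1 r hr
  have main : ∀ δ : ℝ, 0 < δ → 4 * δ < τ →
      (∫ r in Ioo (0 : ℝ) 1, deriv N r * al A r) + 2 * (∫ r in Ioo (0 : ℝ) τ, q r) ≤
        C + 8 * δ := by
    intro δ hδ hδτ
    obtain ⟨χ, c1, c2, c3, c4, c5, -, -⟩ := exists_cut (p := 0) (q := τ) (δ := δ) hδ
      (by linarith) (by linarith)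
    set s : ℝ → ℝ := fun r => χ r * q r with hs
    have hsc : ContDiff ℝ 1 s := by
      rw [contDiff_iff_contDiffAt]
      intro r
      by_cases h1 : r ∈ Ioo 0 τ
      · exact c1.contDiffAt.mul (hq.contDiffAt (Ioo_mem_nhds h1.1 h1.2))
      · have : s =ᶠ[𝓝 r] fun _ => (0 : ℝ) := by
          rw [mem_Ioo, not_and_or, not_lt, not_lt] at h1
          rcases h1 with h1 | h1
          · filter_upwards [gt_mem_nhds (show r < δ by linarith)] with x hx
            simp only [hs, c2 x (by linarith), zero_mul]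
          · filter_upwards [lt_mem_nhds (show τ - δ < r by linarith)] with x hx
            simp only [hs, c3 x hx.le, zero_mul]
        exact contDiffAt_const.congr_of_eventuallyEq this
    have hsC : Cc s := by
      refine Cc.of_bounds hsc hδ (fun r hr => ?_) (fun r hr => ?_)
      · simp only [hs, c2 r (by linarith), zero_mul]
      · simp only [hs, c3 r (by linarith), zero_mul]
    have hs0 : ∀ r, 0 ≤ s r := by
      intro r
      by_cases h1 : r ∈ Ioo 0 τ
      · exact mul_nonneg (c5 r).1 (hq0 r h1)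
      · rw [mem_Ioo, not_and_or, not_lt, not_lt] at h1
        rcases h1 with h1 | h1
        · simp only [hs, c2 r (by linarith), zero_mul, le_refl]
        · simp only [hs, c3 r (by linarith), zero_mul, le_refl]
    have hs1 : ∀ r ∈ Ioo 0 τ, s r ≤ q r := fun r hr =>
      mul_le_of_le_one_left (hq0 r hr) (c5 r).2
    have hbb : ∀ r ∈ Ioo (0 : ℝ) 1, s r ^ 2 + (N r / r) ^ 2 ≤ (1 - r) ^ (2 * b) := by
      intro r hr
      by_cases h1 : r < τ
      · have h2 := hb2 r ⟨hr.1, h1⟩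
        have h3 : s r ^ 2 ≤ q r ^ 2 := pow_le_pow_left₀ (hs0 r) (hs1 r ⟨hr.1, h1⟩) 2
        linarith
      · rw [not_lt] at h1
        have : s r = 0 := by simp only [hs, c3 r (by linarith), zero_mul]
        rw [this]
        have := hb r hr
        simpa using this
    have hx := t_xray b A hA hA1 C hP N s hN.cd hN.cs hN.sub hsC.cd hsC.cs hsC.sub hs0 hbb
    set G : Set ℝ := {r : ℝ | r ∈ Ioo (0 : ℝ) 1 ∧ 0 < al A r ∧ al A r < 2 * π} with hG
    have hsi : Integrable s := hsc.continuous.integrable_of_hasCompactSupport hsC.cs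
    have h1 : ∫ r in Ioo (0 : ℝ) τ, s r ≤ ∫ r in G, s r := by
      apply setIntegral_mono_set hsi.integrableOn (Eventually.of_forall hs0)
      rw [ae_restrict_iff' measurableSet_Ioo] at hgood
      filter_upwards [hgood] with r hr hr1
      exact ⟨⟨hr1.1, hr1.2.trans_le hτ1⟩, hr hr1⟩
    have h2 : (∫ r in Ioo (0 : ℝ) τ, q r) - 4 * δ ≤ ∫ r in Ioo (0 : ℝ) τ, s r := by
      have h3 : ∫ r in Ioo (0 : ℝ) τ, (q r - s r) ≤
          ∫ r in Ioo (0 : ℝ) τ, ((Ioo 0 (2 * δ)).indicator (fun _ => (1 : ℝ)) r +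
            (Ioo (τ - 2 * δ) τ).indicator (fun _ => (1 : ℝ)) r) := by
        apply setIntegral_mono_on (hqi.sub hsi.integrableOn)
          ((ind_i _ _ _).add (ind_i _ _ _)).integrableOn measurableSet_Ioo
        intro r hr
        have k1 : 0 ≤ (Ioo 0 (2 * δ)).indicator (fun _ => (1 : ℝ)) r :=
          indicator_nonneg (fun _ _ => zero_le_one) _
        have k2 : 0 ≤ (Ioo (τ - 2 * δ) τ).indicator (fun _ => (1 : ℝ)) r :=
          indicator_nonneg (fun _ _ => zero_le_one) _
        show q r - s r ≤ (Ioo 0 (2 * δ)).indicator (fun _ => (1 : ℝ)) r +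
            (Ioo (τ - 2 * δ) τ).indicator (fun _ => (1 : ℝ)) r
        rcases lt_or_ge r (2 * δ) with h4 | h4
        · rw [indicator_of_mem (show r ∈ Ioo 0 (2 * δ) from ⟨hr.1, h4⟩)]
          have := hs0 r
          have := hq1 r hr
          linarith
        · rcases lt_or_ge (τ - 2 * δ) r with h5 | h5
          · rw [indicator_of_mem (show r ∈ Ioo (τ - 2 * δ) τ from ⟨h5, hr.2⟩)]
            have := hs0 r
            have := hq1 r hr
            linarith
          · have : s r = q r := by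
              simp only [hs, c4 r (by linarith) h5, one_mul]
            rw [this]
            linarith
      rw [integral_sub hqi hsi.integrableOn, integral_add (ind_i _ _ _).integrableOn
        (ind_i _ _ _).integrableOn] at h3
      have e1 := ind_le (Ioo 0 τ) (a := 0) (b := 2 * δ) (c := 1) (by linarith) zero_le_one
      have e2 := ind_le (Ioo 0 τ) (a := τ - 2 * δ) (b := τ) (c := 1) (by linarith) zero_le_one
      linarith
    linarith
  have hlim : Tendsto (fun δ : ℝ => C + 8 * δ) (𝓝[>] 0) (𝓝 (C + 8 * 0)) := by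
    have : Continuous (fun δ : ℝ => C + 8 * δ) := by fun_prop
    exact (this.tendsto 0).mono_left nhdsWithin_le_nhds
  have := ge_of_tendsto hlim (by
    filter_upwards [Ioo_mem_nhdsGT (show (0 : ℝ) < τ / 4 by linarith)] with δ hδ
    exact main δ hδ.1 (by linarith [hδ.2]))
  linarith

theorem t_A0 : S_A0 := by
  intro b A hA hA1 C hP τ hτ hτ1 hgood
  have h0 : Cc (fun _ => (0 : ℝ)) := Cc.of_bounds contDiff_const one_pos (fun _ _ => rfl)
    (fun _ _ => rfl)
  have h := xr hA hA1 hP h0 (q := fun r => (1 - r) ^ b) hτ hτ1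
    (by fun_prop)
    (fun r hr => pow_nonneg (by linarith [hr.2]) _)
    (fun r hr => pow_le_one₀ (by linarith [hr.2]) (by linarith [hr.1]))
    (fun r hr => by
      simp only [zero_div]
      rw [zero_pow (by norm_num)]
      exact pow_nonneg (by linarith [hr.2]) _)
    (fun r hr => by
      simp only [zero_div]
      rw [zero_pow (by norm_num), add_zero, ← pow_mul, mul_comm])
    hgood
  simp only [deriv_const, zero_mul, integral_zero, zero_add] at h
  rwa [intervalIntegral.integral_of_le hτ.le, integral_Ioc_eq_integral_Ioo]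

end Pool.Agent.Y290.MI
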