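import Pool.Agent.TH304.MI.Stm
import Pool.Agent.TH73.MI.Basic
import Pool.Agent.TH959.MI.Low
import Pool.Agent.TH89.MI.Tr
import Pool.Agent.TH416.HU.B12
import Pool.Agent.TH359.HU.B3
import Pool.Agent.TH89.HU.B4
import Pool.Agent.TH340.HU.B8
import Pool.Agent.TH959.HU.A12
import Pool.Agent.Y290.MI.Trap

/-! # The ambient space: existence, limits -/

set_option autoImplicit false

open MeasureTheory Set Metric Filter Topology
open scoped ENNReal Real

noncomputable section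

namespace Pool.Agent.Y290.MI

open Pool.Agent.TH304.MI

lemma cyl_meas {b : ℕ} {A : Set ℂ} (hA : MeasurableSet A) : MeasurableSet (cyl b A) :=
  Pool.Agent.TH340.HU.meas_cylO (Pool.Agent.TH73.MI.t_geo b).1 hA

lemma cyl_sub {b : ℕ} (A : Set ℂ) : cyl b A ⊆ Om b := fun _ hp => hp.1

lemma cyl_D1 (b : ℕ) : cyl b D1 = Om b := by
  ext p
  constructor
  · exact fun h => h.1
  · exact fun h => ⟨h, mem_ball_zero_iff.2 h.1⟩

lemma vol_Om (b : ℕ) : volume (Om b) = ENNReal.ofReal (2 ^ b * ms b D1) := by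
  rw [← cyl_D1, Pool.Agent.TH73.MI.t_vol b D1 D1_meas le_rfl]

lemma vol_half {b : ℕ} {A : Set ℂ} (hA : MeasurableSet A) (hA1 : A ⊆ D1) :
    volume (cyl b A) = volume (Om b) / 2 ↔ ms b A = ms b D1 / 2 := by
  have hp : (0 : ℝ) < 2 ^ b := by positivity
  have h0 := ms_nonneg b hA hA1
  have h1 := ms_nonneg b D1_meas le_rfl
  have e1 : ENNReal.ofReal (2 ^ b * ms b D1) / 2 = ENNReal.ofReal (2 ^ b * (ms b D1 / 2)) := by
    rw [← mul_div_assoc, ENNReal.ofReal_div_of_pos (by norm_num)]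
    norm_num
  rw [Pool.Agent.TH73.MI.t_vol b A hA hA1, vol_Om, e1]
  constructor
  · intro h
    rw [ENNReal.ofReal_eq_ofReal_iff (by positivity) (by positivity)] at h
    exact mul_left_cancel₀ hp.ne' h
  · intro h
    rw [h]

/-! ### existence of minimizers -/

theorem t_ex : S_ex := by
  intro b ε hε hε1 F0 C0 hF0m hF0s hF0v hF0P
  obtain ⟨go, gc, gb, g0, gs, gt⟩ := Pool.Agent.TH73.MI.t_geo b
  have hfin : ∀ G : Set (PP b), G ⊆ Om b → volume G ≠ ∞ := fun G hG =>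
    (gb.subset hG).measure_lt_top.ne
  obtain ⟨S, hS⟩ : ∃ S : Set ℝ, S = {C : ℝ | ∃ G : Set (PP b), MeasurableSet G ∧ G ⊆ Om b ∧
      volume G = volume (Om b) / 2 ∧ PLe ε (Om b) G C} := ⟨_, rfl⟩
  have hne : S.Nonempty := by
    rw [hS]
    exact ⟨C0, F0, hF0m, hF0s, hF0v, hF0P⟩
  have hbdd : BddBelow S := by
    refine ⟨0, ?_⟩
    rw [hS]
    rintro C ⟨G, -, -, -, hP⟩
    exact Pool.Agent.TH359.HU.PLe.nonneg hP
  obtain ⟨I, hI⟩ : ∃ I, I = sInf S := ⟨_, rfl⟩
  have hex : ∀ k : ℕ, ∃ (G : Set (PP b)) (C : ℝ), MeasurableSet G ∧ G ⊆ Om b ∧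
      volume G = volume (Om b) / 2 ∧ PLe ε (Om b) G C ∧ C < I + 1 / ((k : ℝ) + 1) := by
    intro k
    have h1 : sInf S < I + 1 / ((k : ℝ) + 1) := by
      rw [← hI]
      have : (0 : ℝ) < 1 / ((k : ℝ) + 1) := by positivity
      linarith
    obtain ⟨e, he, hlt⟩ := exists_lt_of_csInf_lt hne h1
    rw [hS] at he
    obtain ⟨G, a1, a2, a3, a4⟩ := he
    exact ⟨G, e, a1, a2, a3, a4, hlt⟩
  choose G C hGm hGs hGv hGP hGe using hex
  have hM : ∀ k, PLe 1 (Om b) (G k) (I + 1) := by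
    intro k
    refine Pool.Agent.TH359.HU.PLe.mono' (Pool.Agent.TH359.HU.PLe.one hε hε1 (hGP k)) ?_
    have h1 := hGe k
    have h2 : 1 / ((k : ℝ) + 1) ≤ 1 := by
      rw [div_le_one (by positivity)]
      have : (0 : ℝ) ≤ k := Nat.cast_nonneg k
      linarith
    linarith
  obtain ⟨F, ψ, hFm, hFs, hψ, hlim⟩ := Pool.Agent.TH416.HU.b1 b (Om b) go gc gb G _ hGm hGs hM
  have hvol := Pool.Agent.TH340.HU.real_tendsto gb (fun k => hGs (ψ k)) hFs (fun k => hGm (ψ k))
    hFm hlim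
  have hFv : volume F = volume (Om b) / 2 := by
    have h1 : ∀ k, volume.real (G (ψ k)) = (volume (Om b) / 2).toReal := fun k => by
      rw [Measure.real, hGv]
    simp_rw [h1] at hvol
    have h2 := tendsto_nhds_unique hvol tendsto_const_nhds
    rw [Measure.real] at h2
    have h3 : volume (Om b) / 2 ≠ ∞ := ENNReal.div_ne_top (hfin _ le_rfl) (by norm_num)
    exact (ENNReal.toReal_eq_toReal_iff' (hfin _ hFs) h3).1 h2
  have hFP : PLe ε (Om b) F I := by
    intro φ hφ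
    have h1 := Pool.Agent.TH416.HU.b2 b (fun k => G (ψ k)) F (fun k => hGm _) hFm hlim φ
      hφ.cd hφ.cs
    have h2 : Tendsto (fun k : ℕ => I + 1 / ((ψ k : ℝ) + 1)) atTop (𝓝 (I + 0)) := by
      refine tendsto_const_nhds.add ?_
      exact tendsto_one_div_add_atTop_nhds_zero_nat.comp hψ.tendsto_atTop
    rw [add_zero] at h2
    refine le_of_tendsto_of_tendsto' h1 h2 fun k => ?_
    have h3 := hGP (ψ k) φ hφ
    have h4 := hGe (ψ k)
    linarith
  refine ⟨F, hFm, hFs, hFv, fun G' hG'm hG's hG'v C' hG'P => ?_⟩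
  refine Pool.Agent.TH359.HU.PLe.mono' hFP ?_
  rw [hI]
  refine csInf_le hbdd ?_
  rw [hS]
  exact ⟨G', hG'm, hG's, hG'v.trans hFv, hG'P⟩

/-! ### cylinders -/

theorem t_cyl : S_cyl := by
  intro b E0 hE0 hE0s h
  obtain ⟨go, gc, gb, g0, gs, gt⟩ := Pool.Agent.TH73.MI.t_geo b
  obtain ⟨A, hA, hv⟩ := Pool.Agent.TH89.HU.b4 b (Om b) go gc gb E0 hE0 hE0s h
  refine ⟨A ∩ D1, hA.inter D1_meas, inter_subset_right, ?_⟩
  have h1 : cyl b (A ∩ D1) = Pool.Agent.TH703.HU.cylO (Om b) A := by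
    ext p
    constructor
    · exact fun h => ⟨h.1, h.2.1⟩
    · exact fun h => ⟨h.1, h.2, mem_ball_zero_iff.2 h.1.1⟩
  rw [h1]
  exact hv

/-! ### the perimeter of a cylinder -/

/-- the fibre -/
def Fb (b : ℕ) (x : ℂ) : Set (Fin b → ℝ) := {y | ‖x‖ < 1 ∧ ∀ i, ‖x‖ + |y i| < 1}

lemma Fb_meas (b : ℕ) (x : ℂ) : MeasurableSet (Fb b x) := by
  have h : Fb b x = {y | ‖x‖ < 1} ∩ ⋂ i, {y : Fin b → ℝ | ‖x‖ + |y i| < 1} := by
    ext y
    simp only [Fb, mem_ofPred_eq, mem_inter_iff, mem_iInter]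
  rw [h]
  refine (MeasurableSet.const _).inter (MeasurableSet.iInter fun i => ?_)
  have h1 : Continuous fun y : Fin b → ℝ => ‖x‖ + |y i| := by fun_prop
  exact (isOpen_lt h1 continuous_const).measurableSet

lemma vol_Fb (b : ℕ) {x : ℂ} (hx : ‖x‖ < 1) :
    volume (Fb b x) = ENNReal.ofReal ((2 * (1 - ‖x‖)) ^ b) := by
  have h3 : Fb b x = Set.pi univ fun _ : Fin b => Ioo (-(1 - ‖x‖)) (1 - ‖x‖) := by
    ext y
    rw [mem_univ_pi]
    constructor
    · rintro ⟨-, h4⟩ i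
      exact abs_lt.1 (by linarith [h4 i])
    · intro h4
      exact ⟨hx, fun i => by linarith [abs_lt.2 (h4 i)]⟩
  have h5 : 0 ≤ 2 * (1 - ‖x‖) := by linarith
  rw [h3, Real.volume_pi_Ioo, ENNReal.ofReal_pow h5, Finset.prod_const, Finset.card_univ,
    Fintype.card_fin]
  congr 2
  ring

open Pool.Agent.TH959.HU Pool.Agent.TH959.MI in
theorem t_up : S_up := by
  intro b ε hε A hA hA1 C hP φ hφ
  have hn : (0 : ℝ) < 2 ^ b := by positivity
  have hF : ContDiff ℝ 1 (Fx φ) := (xL _).contDiff.comp (hφ.cd.comp (Sb _).contDiff)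
  have hcF : HasCompactSupport (Fx φ) := (hcs_Sb hφ.cs).comp_left (g := xL _) (map_zero _)
  have hts : ∀ q ∈ tsupport (Fx φ), Sb _ q ∈ Om b := by
    intro q hq
    have h1 : tsupport (Fx φ) ⊆ Sb _ ⁻¹' tsupport φ := by
      refine closure_minimal ?_ ((isClosed_tsupport φ).preimage (Sb _).continuous)
      intro q hq
      refine subset_tsupport _ fun h => hq ?_
      unfold Fx
      rw [h, map_zero]
    exact hφ.sub (h1 hq)
  have hz : ∀ x y, y ∉ Fb b x → Fx φ (x, y) = 0 := by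
    intro x y hy
    by_contra h
    exact hy (hts (x, y) (subset_tsupport _ h))
  have hYc : ContDiff ℝ 1 fun x => (2 ^ b : ℝ)⁻¹ • ∫ y, Fx φ (x, y) := by
    have := (contDiff_marg hF hcF).const_smul (2 ^ b : ℝ)⁻¹
    exact this
  have hTW : Fl2 b D1 fun x => (2 ^ b : ℝ)⁻¹ • ∫ y, Fx φ (x, y) := by
    refine ⟨hYc, ?_, ?_, fun x hx => ?_⟩
    · refine HasCompactSupport.intro (K := Prod.fst '' tsupport (Fx φ))
        (hcF.isCompact.image continuous_fst) fun x hx => ?_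
      have : ∀ y, Fx φ (x, y) = 0 := by
        intro y
        by_contra h'
        exact hx ⟨(x, y), subset_tsupport _ h', rfl⟩
      simp [this]
    · have h1 : tsupport (fun x => (2 ^ b : ℝ)⁻¹ • ∫ y, Fx φ (x, y)) ⊆
          Prod.fst '' tsupport (Fx φ) := by
        refine closure_minimal ?_ (hcF.isCompact.image continuous_fst).isClosed
        intro x hx
        by_contra h
        apply hx
        have : ∀ y, Fx φ (x, y) = 0 := by
          intro y
          by_contra h'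
          exact h ⟨(x, y), subset_tsupport _ h', rfl⟩
        simp [this]
      refine h1.trans ?_
      rintro x ⟨⟨x', y⟩, hq, rfl⟩
      have h2 := (hts _ hq).1
      rw [xc_Sb] at h2
      exact mem_ball_zero_iff.2 h2
    · rw [norm_smul, norm_inv, Real.norm_of_nonneg hn.le, inv_mul_le_iff₀ hn]
      have hfm := Fb_meas b x
      have h1 : ‖∫ y, Fx φ (x, y)‖ ≤ ∫ y, (Fb b x).indicator (fun _ => (1 : ℝ)) y := by
        refine norm_integral_le_of_norm_le ?_ (ae_of_all _ fun y => ?_)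
        · refine (integrable_indicator_iff hfm).2 (integrableOn_const ?_)
          rw [vol_Fb b hx]
          exact ENNReal.ofReal_ne_top
        · by_cases hy : y ∈ Fb b x
          · rw [indicator_of_mem hy]
            exact (norm_xc_le ε _).trans (hφ.bd _)
          · rw [indicator_of_notMem hy, hz x y hy, norm_zero]
      have h2 : ∫ y, (Fb b x).indicator (fun _ => (1 : ℝ)) y = 2 ^ b * (1 - ‖x‖) ^ b := by
        rw [integral_indicator hfm, setIntegral_const, smul_eq_mul, mul_one, Measure.real,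
          vol_Fb b hx, ENNReal.toReal_ofReal (pow_nonneg (by linarith) _), mul_pow]
      exact h1.trans h2.le
  have h1 := hP _ hTW
  have h2 : ∀ x, dv2 (fun x => (2 ^ b : ℝ)⁻¹ • ∫ y, Fx φ (x, y)) x =
      (2 ^ b : ℝ)⁻¹ * Lam (fderiv ℝ (fun x => ∫ y, Fx φ (x, y)) x) := fun x => by
    have h3 := Lam_fderiv (c := (2 ^ b : ℝ)⁻¹) (contDiff_marg hF hcF) x
    have h4 : Lam (fderiv ℝ (fun x => ∫ y, Fx φ (x, y)) x) =
      dv2 (fun x => ∫ y, Fx φ (x, y)) x := rfl
    rw [h4, ← h3]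
    rfl
  simp_rw [h2] at h1
  rw [integral_const_mul, inv_mul_le_iff₀ hn] at h1
  have h5 : cyl b A = Pool.Agent.TH703.HU.cylO (Om b) A := rfl
  rw [h5, integral_cylO hφ.cd hφ.cs hφ.sub hA]
  exact h1

end Pool.Agent.Y290.MI
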