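import Pool.Agent.Y290.MI.A1

/-! # Competitors: S_disc, S_dz, S_B1, S_B2 -/

set_option autoImplicit false

open MeasureTheory Set Metric Filter Topology
open scoped ENNReal Real

noncomputable section

namespace Pool.Agent.Y290.MI

open Pool.Agent.TH304.MI

/-! ### discs and complements -/

theorem t_disc : S_disc := by
  intro b ρ h0 h1 Z hZ
  rw [Pool.Agent.TH914.HU.flux hZ.cd 0 h0.le]
  have h2 : ∀ θ ∈ Icc (-π) π, ρ * ((Z (Pool.Agent.TH914.HU.pt 0 ρ θ)).re * Real.cos θ +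
      (Z (Pool.Agent.TH914.HU.pt 0 ρ θ)).im * Real.sin θ) ≤ ρ * (1 - ρ) ^ b := by
    intro θ _
    apply mul_le_mul_of_nonneg_left _ h0.le
    set z := Pool.Agent.TH914.HU.pt 0 ρ θ with hz
    have hzn : ‖z‖ = ρ := by
      rw [hz, Pool.Agent.TH914.HU.pt, zero_add, norm_mul, Pool.Agent.TH914.HU.ee_norm, mul_one,
        Complex.norm_real, Real.norm_of_nonneg h0.le]
    have h3 := hZ.bd z (by rw [hzn]; exact h1)
    rw [hzn] at h3
    refine le_trans ?_ h3
    have h4 := Real.sin_sq_add_cos_sq θ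
    have h5 : ‖Z z‖ ^ 2 = (Z z).re ^ 2 + (Z z).im ^ 2 := by
      rw [Complex.sq_norm, Complex.normSq_apply]; ring
    apply le_of_sq_le_sq _ (norm_nonneg _)
    rw [h5]
    nlinarith [sq_nonneg ((Z z).re * Real.sin θ - (Z z).im * Real.cos θ)]
  have hc : Continuous fun θ => ρ * ((Z (Pool.Agent.TH914.HU.pt 0 ρ θ)).re * Real.cos θ +
      (Z (Pool.Agent.TH914.HU.pt 0 ρ θ)).im * Real.sin θ) := by
    have h3 : Continuous fun θ => Z (Pool.Agent.TH914.HU.pt 0 ρ θ) :=
      hZ.cd.continuous.comp ((Pool.Agent.TH914.HU.pt_cont 0).comp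
        (by fun_prop : Continuous fun θ : ℝ => (ρ, θ)))
    exact continuous_const.mul (((Complex.continuous_re.comp h3).mul Real.continuous_cos).add
      ((Complex.continuous_im.comp h3).mul Real.continuous_sin))
  have h6 := intervalIntegral.integral_mono_on (μ := volume) (by linarith [Real.pi_pos])
    (hc.intervalIntegrable (-π) π) (intervalIntegrable_const (c := ρ * (1 - ρ) ^ b)) h2
  rw [intervalIntegral.integral_const, smul_eq_mul] at h6
  linarith

lemma dv2_out {Z : ℂ → ℂ} {V : Set ℂ} (h : tsupport Z ⊆ V) {z : ℂ} (hz : z ∉ V) :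
    dv2 Z z = 0 := by
  have h1 : fderiv ℝ Z z = 0 := by
    by_contra h2
    exact hz (h (support_fderiv_subset ℝ h2))
  unfold dv2
  rw [h1]
  simp

theorem t_dz : S_dz := by
  intro b Z hZ
  rw [setIntegral_eq_integral_of_forall_compl_eq_zero (fun z hz => dv2_out hZ.sub hz)]
  exact dv2_zero_int hZ.cd hZ.cs

lemma Fl2.mono {b : ℕ} {V W : Set ℂ} {Z : ℂ → ℂ} (h : Fl2 b V Z) (hVW : V ⊆ W) : Fl2 b W Z :=
  ⟨h.cd, h.cs, h.sub.trans hVW, h.bd⟩

lemma compl_int {b : ℕ} {V : Set ℂ} (hV : V ⊆ D1) {Z : ℂ → ℂ} (h : Fl2 b V Z) {A : Set ℂ}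
    (hA : MeasurableSet A) (hA1 : A ⊆ D1) : ∫ z in D1 \ A, dv2 Z z = -∫ z in A, dv2 Z z := by
  have h1 := t_dz b Z (Fl2.mono h hV)
  rw [setIntegral_sdiff hA (dv2_int h.cd h.cs).integrableOn hA1, h1, zero_sub]

/-- the complement has the same perimeter -/
lemma P2_compl {b : ℕ} {V : Set ℂ} (hV : V ⊆ D1) {A : Set ℂ} (hA : MeasurableSet A)
    (hA1 : A ⊆ D1) {C : ℝ} (h : P2 b V A C) : P2 b V (D1 \ A) C := by
  intro Z hZ
  rw [compl_int hV hZ hA hA1]
  have hn : Fl2 b V (fun z => -Z z) := by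
    refine ⟨hZ.cd.neg, hZ.cs.neg, ?_, fun z hz => by rw [norm_neg]; exact hZ.bd z hz⟩
    have : tsupport (fun z => -Z z) = tsupport Z := by
      unfold tsupport
      congr 1
      ext z
      simp
    rw [this]
    exact hZ.sub
  have h2 := h _ hn
  have h3 : ∀ z, dv2 (fun z => -Z z) z = -dv2 Z z := by
    intro z
    have h4 := (hZ.cd.differentiable (by norm_num) z).hasFDerivAt
    refine (dv2_of h4.neg).trans ?_
    unfold dv2
    simp only [_root_.neg_apply, Complex.neg_re, Complex.neg_im]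
    ring
  simp_rw [h3] at h2
  rwa [integral_neg] at h2

/-! ### radial cutoffs -/

lemma chi_hasFDerivAt {θ : ℝ → ℝ} (hθ : ContDiff ℝ 1 θ) {t c : ℝ} (ht : 0 < t)
    (h1 : ∀ r, r ≤ t → θ r = c) (z : ℂ) :
    HasFDerivAt (fun z : ℂ => θ ‖z‖) ((deriv θ ‖z‖ / ‖z‖) • innerSL ℝ z) z := by
  by_cases hz : z = 0
  · subst hz
    have : (fun y : ℂ => θ ‖y‖) =ᶠ[𝓝 0] fun _ => c := by
      filter_upwards [ball_mem_nhds (0 : ℂ) ht] with y hy
      rw [mem_ball_zero_iff] at hy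
      exact h1 _ hy.le
    have h5 : HasFDerivAt (fun _ : ℂ => c) (0 : ℂ →L[ℝ] ℝ) (0 : ℂ) := hasFDerivAt_const _ _
    refine (h5.congr_of_eventuallyEq this).congr_fderiv ?_
    simp
  · have h5 := (hθ.differentiable (by norm_num) ‖z‖).hasDerivAt.comp_hasFDerivAt z
      (norm_hasFDerivAt hz)
    refine h5.congr_fderiv ?_
    rw [smul_smul, div_eq_mul_inv]

lemma chi_cd {θ : ℝ → ℝ} (hθ : ContDiff ℝ 1 θ) {t c : ℝ} (ht : 0 < t)
    (h1 : ∀ r, r ≤ t → θ r = c) : ContDiff ℝ 1 (fun z : ℂ => θ ‖z‖) := by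
  rw [contDiff_iff_contDiffAt]
  intro z
  by_cases hz : z = 0
  · subst hz
    have : (fun y : ℂ => θ ‖y‖) =ᶠ[𝓝 0] fun _ => c := by
      filter_upwards [ball_mem_nhds (0 : ℂ) ht] with y hy
      rw [mem_ball_zero_iff] at hy
      exact h1 _ hy.le
    exact contDiffAt_const.congr_of_eventuallyEq this
  · exact hθ.contDiffAt.comp z (contDiffAt_norm ℝ hz)

/-- the mixed field -/
def mx (θ : ℝ → ℝ) (Z1 Z2 : ℂ → ℂ) (z : ℂ) : ℂ := Z1 z + θ ‖z‖ • (Z2 z - Z1 z)

lemma mx_eq (θ : ℝ → ℝ) (Z1 Z2 : ℂ → ℂ) (z : ℂ) :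
    mx θ Z1 Z2 z = (1 - θ ‖z‖) • Z1 z + θ ‖z‖ • Z2 z := by
  unfold mx
  rw [smul_sub, sub_smul, one_smul]
  abel

lemma mx_cd {θ : ℝ → ℝ} (hθ : ContDiff ℝ 1 θ) {t c : ℝ} (ht : 0 < t)
    (h1 : ∀ r, r ≤ t → θ r = c) {Z1 Z2 : ℂ → ℂ} (hZ1 : ContDiff ℝ 1 Z1)
    (hZ2 : ContDiff ℝ 1 Z2) : ContDiff ℝ 1 (mx θ Z1 Z2) :=
  hZ1.add ((chi_cd hθ ht h1).smul (hZ2.sub hZ1))

lemma mx_dv2 {θ : ℝ → ℝ} (hθ : ContDiff ℝ 1 θ) {t c : ℝ} (ht : 0 < t)
    (h1 : ∀ r, r ≤ t → θ r = c) {Z1 Z2 : ℂ → ℂ} (hZ1 : ContDiff ℝ 1 Z1)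
    (hZ2 : ContDiff ℝ 1 Z2) (z : ℂ) :
    dv2 (mx θ Z1 Z2) z = dv2 Z1 z + θ ‖z‖ * (dv2 Z2 z - dv2 Z1 z) +
      deriv θ ‖z‖ / ‖z‖ * (innerSL ℝ z) (Z2 z - Z1 z) := by
  have hχ := chi_cd hθ ht h1
  have h2 := hZ2.sub hZ1
  refine (dv2_add hZ1 (hχ.smul h2) z).trans ?_
  have e1 : dv2 ((fun z : ℂ => θ ‖z‖) • fun x => Z2 x - Z1 x) z = _ := dv2_smul hχ h2 z
  have e2 : dv2 (fun x => Z2 x - Z1 x) z = dv2 Z2 z - dv2 Z1 z := by
    have h4 := (hZ1.differentiable (by norm_num) z).hasFDerivAt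
    have h5 := (hZ2.differentiable (by norm_num) z).hasFDerivAt
    refine (dv2_of (h5.sub h4)).trans ?_
    unfold dv2
    simp only [_root_.sub_apply, Complex.sub_re, Complex.sub_im]
    ring
  rw [e1, e2, (chi_hasFDerivAt hθ ht h1 z).fderiv, _root_.smul_apply, smul_eq_mul, add_assoc]

lemma mx_supp {θ : ℝ → ℝ} {Z1 Z2 : ℂ → ℂ} :
    tsupport (mx θ Z1 Z2) ⊆ tsupport Z1 ∪ tsupport Z2 := by
  intro z hz
  by_contra hc
  rw [mem_union, not_or] at hc
  have e1 := notMem_tsupport_iff_eventuallyEq.1 hc.1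
  have e2 := notMem_tsupport_iff_eventuallyEq.1 hc.2
  apply notMem_tsupport_iff_eventuallyEq.2 _ hz
  filter_upwards [e1, e2] with y hy1 hy2
  unfold mx
  rw [hy1, hy2]
  simp

lemma mx_cs {θ : ℝ → ℝ} {Z1 Z2 : ℂ → ℂ} (h1 : HasCompactSupport Z1)
    (h2 : HasCompactSupport Z2) : HasCompactSupport (mx θ Z1 Z2) :=
  (IsCompact.union h1 h2).of_isClosed_subset (isClosed_tsupport _) mx_supp

/-! ### integrals over annuli -/

lemma ann {A : Set ℂ} (hA : MeasurableSet A) (hA1 : A ⊆ D1) {a b c : ℝ} (hab : a ≤ b)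
    (hc : 0 ≤ c) : IntegrableOn (fun z : ℂ => (Ico a b).indicator (fun _ => c) ‖z‖) A ∧
    ∫ z in A, (Ico a b).indicator (fun _ => c) ‖z‖ ≤ c * ∫ r in a..b, al A r := by
  have hm : Measurable ((Ico a b).indicator (fun _ => c)) := measurable_const.indicator
    measurableSet_Ico
  have hDf : volume D1 ≠ ∞ := measure_ball_lt_top.ne
  have hi : IntegrableOn (fun z : ℂ => (Ico a b).indicator (fun _ => c) ‖z‖) A := by
    refine Measure.integrableOn_of_bounded (M := c)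
      ((measure_mono hA1).trans_lt measure_ball_lt_top).ne
      (hm.comp measurable_norm).aestronglyMeasurable (Eventually.of_forall fun z => ?_)
    by_cases h : ‖z‖ ∈ Ico a b
    · rw [indicator_of_mem h, Real.norm_of_nonneg hc]
    · rw [indicator_of_notMem h, norm_zero]
      exact hc
  refine ⟨hi, ?_⟩
  rw [pol_int hA hA1 hm hi]
  have hj : Integrable ((Ico a b).indicator (fun r => c * al A r)) := by
    rw [integrable_indicator_iff measurableSet_Ico]
    have := int_al hA (continuous_const (y := c)) a b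
    rwa [integrableOn_Ico_iff_integrableOn_Ioo]
  have h1 : ∫ r in Ioo (0 : ℝ) 1, (Ico a b).indicator (fun _ => c) r * r * al A r ≤
      ∫ r in Ioo (0 : ℝ) 1, (Ico a b).indicator (fun r => c * al A r) r := by
    apply setIntegral_mono_on_ae _ hj.integrableOn measurableSet_Ioo
    · refine Eventually.of_forall fun r hr => ?_
      by_cases h : r ∈ Ico a b
      · rw [indicator_of_mem h, indicator_of_mem h]
        have := al_nonneg A r
        have h2 : c * r ≤ c := by nlinarith [hr.2]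
        gcongr
      · rw [indicator_of_notMem h, indicator_of_notMem h]
        simp
    · refine Measure.integrableOn_of_bounded (M := c * (2 * π)) (by simp)
        ((hm.mul measurable_id).mul (al_meas hA)).aestronglyMeasurable ?_
      filter_upwards [ae_restrict_mem measurableSet_Ioo] with r hr
      by_cases h : r ∈ Ico a b
      · rw [indicator_of_mem h, norm_mul, norm_mul, Real.norm_of_nonneg hc,
          Real.norm_of_nonneg hr.1.le, Real.norm_of_nonneg (al_nonneg A r)]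
        have h2 : c * r ≤ c := by nlinarith [hr.2]
        exact mul_le_mul h2 (al_le A r) (al_nonneg A r) hc
      · rw [indicator_of_notMem h]
        simp
        positivity
  refine h1.trans ?_
  have h2 : ∫ r in Ioo (0 : ℝ) 1, (Ico a b).indicator (fun r => c * al A r) r ≤
      ∫ r, (Ico a b).indicator (fun r => c * al A r) r :=
    setIntegral_le_integral hj (Eventually.of_forall fun r =>
      indicator_nonneg (fun x _ => mul_nonneg hc (al_nonneg A x)) _)
  refine h2.trans (le_of_eq ?_)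
  rw [integral_indicator measurableSet_Ico, integral_const_mul, integral_Ico_eq_integral_Ioo,
    intervalIntegral.integral_of_le hab, integral_Ioc_eq_integral_Ioo]

lemma al_ii {A : Set ℂ} (hA : MeasurableSet A) (a b : ℝ) : IntervalIntegrable (al A) volume a b :=
  bdd_ii (al_meas hA) (M := 2 * π) (fun x => by
    rw [abs_of_nonneg (al_nonneg A x)]; exact al_le A x) a b

lemma int_al_le {A : Set ℂ} (hA : MeasurableSet A) {a b : ℝ} (hab : a ≤ b) :
    ∫ r in a..b, al A r ≤ 2 * π * (b - a) := by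
  have := intervalIntegral.integral_mono_on hab (al_ii hA a b)
    (intervalIntegrable_const (c := 2 * π)) (fun r _ => al_le A r)
  rw [intervalIntegral.integral_const, smul_eq_mul] at this
  linarith

end Pool.Agent.Y290.MI
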