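import Pool.Agent.Y290.MI.Pol

/-! # The circle lemma -/

set_option autoImplicit false

open MeasureTheory Set Metric Filter Topology
open scoped ENNReal Real

noncomputable section

namespace Pool.Agent.Y290.MI

open Pool.Agent.TH304.MI

lemma leb {f : ℝ → ℝ} (hf : LocallyIntegrable f) : ∀ᵐ r : ℝ,
    Tendsto (fun η : ℝ => η⁻¹ * ∫ s in r..(r + η), f s) (𝓝[>] 0) (𝓝 (f r)) := by
  filter_upwards [LocallyIntegrable.ae_hasDerivAt_integral hf] with r hr
  have h := hr r
  rw [hasDerivAt_iff_tendsto_slope_zero] at h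
  have h2 := h.mono_left (nhdsWithin_mono 0 (fun x (hx : (0 : ℝ) < x) => ne_of_gt hx :
    Ioi (0 : ℝ) ⊆ {0}ᶜ))
  refine h2.congr fun η => ?_
  simp

lemma bdd_locInt {f : ℝ → ℝ} (hf : Measurable f) {M : ℝ} (hM : ∀ x, |f x| ≤ M) :
    LocallyIntegrable f := by
  intro x
  refine ⟨ball x 1, ball_mem_nhds _ one_pos, ?_⟩
  refine Measure.integrableOn_of_bounded (M := M) ?_ hf.aestronglyMeasurable
    (Eventually.of_forall fun r => hM r)
  exact measure_ball_lt_top.ne

lemma bdd_ii {f : ℝ → ℝ} (hf : Measurable f) {M : ℝ} (hM : ∀ x, |f x| ≤ M) (a b : ℝ) :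
    IntervalIntegrable f volume a b :=
  (LocallyIntegrable.integrableOn_isCompact (bdd_locInt hf hM)
    isCompact_uIcc).intervalIntegrable

/-- the variation between two points -/
lemma var_le {f : ℝ → ℝ} (hf : Measurable f) {M : ℝ} (hM : ∀ x, |f x| ≤ M) {a b h : ℝ}
    (hab : a ≤ b) :
    |(∫ s in b..(b + h), f s) - ∫ s in a..(a + h), f s| ≤ ∫ θ in a..b, |f (θ + h) - f θ| := by
  have hi := bdd_ii hf hM
  have hfs : Measurable (fun θ => f (θ + h)) := hf.comp (measurable_id.add_const h)
  have hi2 := bdd_ii hfs (fun x => hM (x + h))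
  have e1 : (∫ s in b..(b + h), f s) - ∫ s in a..(a + h), f s =
      ∫ θ in a..b, (f (θ + h) - f θ) := by
    rw [intervalIntegral.integral_sub (hi2 a b) (hi a b),
      intervalIntegral.integral_comp_add_right (fun x => f x) h]
    have h1 := intervalIntegral.integral_add_adjacent_intervals (hi a (a + h)) (hi (a + h) (b + h))
    have h2 := intervalIntegral.integral_add_adjacent_intervals (hi a b) (hi b (b + h))
    linarith
  rw [e1]
  exact intervalIntegral.abs_integral_le_integral_abs hab

theorem t_circ : S_circ := by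
  intro S hS hper h0 h2 δ hδ
  set f : ℝ → ℝ := S.indicator (fun _ => (1 : ℝ)) with hf
  have hfm : Measurable f := measurable_const.indicator hS
  have hfb : ∀ x, |f x| ≤ 1 := by
    intro x
    by_cases hx : x ∈ S
    · rw [hf, indicator_of_mem hx]; simp
    · rw [hf, indicator_of_notMem hx]; simp
  have hfp : Function.Periodic f (2 * π) := by
    intro x
    by_cases hx : x ∈ S
    · rw [hf, indicator_of_mem hx, indicator_of_mem ((hper x).2 hx)]
    · rw [hf, indicator_of_notMem hx, indicator_of_notMem (fun h => hx ((hper x).1 h))]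
  have hL := leb (bdd_locInt hfm hfb)
  obtain ⟨a, ha, haL⟩ : ∃ a, a ∈ S ∩ Ioo (-π) π ∧
      Tendsto (fun η : ℝ => η⁻¹ * ∫ s in a..(a + η), f s) (𝓝[>] 0) (𝓝 (f a)) := by
    by_contra hcon
    push Not at hcon
    have : volume (S ∩ Ioo (-π) π) = 0 := by
      refine measure_mono_null (fun x hx => ?_) hL
      exact hcon x hx
    exact h0.ne' this
  obtain ⟨b, hb, hbL⟩ : ∃ b, b ∈ Ioo (-π) π \ S ∧
      Tendsto (fun η : ℝ => η⁻¹ * ∫ s in b..(b + η), f s) (𝓝[>] 0) (𝓝 (f b)) := by
    by_contra hcon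
    push Not at hcon
    have h1 : volume (Ioo (-π) π \ S) = 0 := by
      refine measure_mono_null (fun x hx => ?_) hL
      exact hcon x hx
    have h3 : volume (Ioo (-π) π) ≤ volume (S ∩ Ioo (-π) π) + volume (Ioo (-π) π \ S) := by
      rw [inter_comm, measure_inter_add_sdiff _ hS]
    rw [h1, add_zero, Real.volume_Ioo] at h3
    have h4 : π - -π = 2 * π := by ring
    rw [h4] at h3
    exact (not_le.2 h2) h3
  rw [hf, indicator_of_mem ha.1] at haL
  rw [hf, indicator_of_notMem hb.2] at hbL
  -- the sequence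
  have hh : Tendsto (fun n : ℕ => 2 * π / (n : ℝ)) atTop (𝓝[>] 0) := by
    rw [tendsto_nhdsWithin_iff]
    refine ⟨tendsto_const_div_atTop_nhds_zero_nat _, ?_⟩
    filter_upwards [eventually_gt_atTop 0] with n hn
    have : (0 : ℝ) < n := by exact_mod_cast hn
    exact div_pos (by positivity) this
  have ea := (haL.comp hh).eventually (lt_mem_nhds (show 1 - δ / 4 < (1 : ℝ) by linarith))
  have eb := (hbL.comp hh).eventually (gt_mem_nhds (show (0 : ℝ) < δ / 4 by linarith))
  filter_upwards [ea, eb, eventually_gt_atTop 0] with n h3 h4 hn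
  have hn0 : (0 : ℝ) < n := by exact_mod_cast hn
  set h : ℝ := 2 * π / n with hhd
  have hh0 : 0 < h := by positivity
  have hinv : (n : ℝ) / (2 * π) = h⁻¹ := by rw [hhd, inv_div]
  rw [hinv]
  simp only [Function.comp_apply] at h3 h4
  -- the variation
  set v : ℝ → ℝ := fun θ => |f (θ + h) - f θ| with hv
  have hvm : Measurable v := ((hfm.comp (measurable_id.add_const h)).sub hfm).abs
  have hvb : ∀ x, |v x| ≤ 2 := by
    intro x
    rw [hv]
    simp only [abs_abs]
    have := abs_sub (f (x + h)) (f x)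
    linarith [hfb x, hfb (x + h)]
  have hvp : Function.Periodic v (2 * π) := by
    intro x
    simp only [hv]
    have e1 : x + 2 * π + h = (x + h) + 2 * π := by ring
    rw [e1, hfp, hfp]
  have hvi := bdd_ii hvm hvb
  have main : ∀ a b : ℝ, a ≤ b → b ≤ a + 2 * π →
      2 * |(∫ s in b..(b + h), f s) - ∫ s in a..(a + h), f s| ≤ ∫ θ in (-π)..π, v θ := by
    intro a b hab hba
    have k1 := var_le hfm hfb (h := h) hab
    have k2 := var_le hfm hfb (h := h) hba
    have k3 : ∫ s in (a + 2 * π)..(a + 2 * π + h), f s = ∫ s in a..(a + h), f s := by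
      have e1 : a + 2 * π + h = (a + h) + 2 * π := by ring
      rw [e1, ← intervalIntegral.integral_comp_add_right (fun x => f x) (2 * π)]
      exact intervalIntegral.integral_congr fun x _ => hfp x
    rw [k3, abs_sub_comm] at k2
    have k4 : ∫ θ in a..(a + 2 * π), v θ = ∫ θ in (-π)..π, v θ := by
      have := hvp.intervalIntegral_add_eq a (-π)
      rw [this]
      congr 1
      ring
    rw [← k4, ← intervalIntegral.integral_add_adjacent_intervals (hvi a b) (hvi b (a + 2 * π))]
    linarith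
  have key : 2 * |(∫ s in b..(b + h), f s) - ∫ s in a..(a + h), f s| ≤ ∫ θ in (-π)..π, v θ := by
    rcases le_total a b with hab | hab
    · exact main a b hab (by linarith [ha.2.1, hb.1.2])
    · have := main b a hab (by linarith [ha.2.2, hb.1.1])
      rwa [abs_sub_comm] at this
  have k8 : ∫ θ in (-π)..π, v θ = ∫ θ in Ioo (-π) π, v θ := by
    rw [intervalIntegral.integral_of_le (by linarith [Real.pi_pos]),
      integral_Ioc_eq_integral_Ioo]
  rw [k8] at key
  have k5 : h⁻¹ * (2 * |(∫ s in b..(b + h), f s) - ∫ s in a..(a + h), f s|) ≤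
      h⁻¹ * ∫ θ in Ioo (-π) π, v θ := mul_le_mul_of_nonneg_left key (by positivity)
  refine le_trans ?_ k5
  have k6 : -((∫ s in b..(b + h), f s) - ∫ s in a..(a + h), f s) ≤
    |(∫ s in b..(b + h), f s) - ∫ s in a..(a + h), f s| := neg_le_abs _
  have k7 : h⁻¹ * -((∫ s in b..(b + h), f s) - ∫ s in a..(a + h), f s) ≤
    h⁻¹ * |(∫ s in b..(b + h), f s) - ∫ s in a..(a + h), f s| :=
    mul_le_mul_of_nonneg_left k6 (by positivity)
  linarith

end Pool.Agent.Y290.MI
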