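import Pool.Agent.Y290.MI.A1

/-! # Numerics -/

set_option autoImplicit false

open MeasureTheory Set Metric Filter Topology
open scoped ENNReal Real

noncomputable section

namespace Pool.Agent.Y290.MI

open Pool.Agent.TH304.MI

/-! ### exponentials -/

lemma qlow (n : ℕ) {t : ℝ} (ht : t < 1) : Real.exp (-(n * t / (1 - t))) ≤ (1 - t) ^ n := by
  have h1 : 0 < 1 - t := by linarith
  have h2 := Real.one_sub_inv_le_log_of_pos h1
  rw [← Real.exp_log (pow_pos h1 n), Real.log_pow]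
  apply Real.exp_le_exp.2
  have h3 : 1 - (1 - t)⁻¹ = -(t / (1 - t)) := by field_simp; ring
  rw [h3] at h2
  have h4 := mul_le_mul_of_nonneg_left h2 (Nat.cast_nonneg (α := ℝ) n)
  refine le_trans (le_of_eq ?_) h4
  ring

lemma qup (n : ℕ) {t : ℝ} (ht : t ≤ 1) : (1 - t) ^ n ≤ Real.exp (-(n * t)) := by
  have h1 : 1 - t ≤ Real.exp (-t) := Real.one_sub_le_exp_neg t
  have h2 := pow_le_pow_left₀ (by linarith) h1 n
  rw [← Real.exp_nat_mul] at h2
  refine h2.trans (le_of_eq ?_)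
  ring_nf

lemma exp_1679 : 5.358 < Real.exp 1.679 := by
  have h := Real.sum_le_exp_of_nonneg (x := 1.679) (by norm_num) 9
  refine lt_of_lt_of_le ?_ h
  simp only [Finset.sum_range_succ, Finset.sum_range_zero, Nat.factorial]
  norm_num

lemma exp_2201 : Real.exp 2.201 ≤ 9.0416 := by
  have h1 : Real.exp 2.201 = Real.exp 1 ^ 2 * Real.exp 0.201 := by
    rw [← Real.exp_nat_mul, ← Real.exp_add]
    norm_num
  have h2 := Real.exp_one_lt_d9
  have h3 := Real.exp_bound' (x := 0.201) (by norm_num) (by norm_num) (n := 4) (by norm_num)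
  simp only [Finset.sum_range_succ, Finset.sum_range_zero, Nat.factorial] at h3
  have h4 : Real.exp 0.201 ≤ 1.2227 := h3.trans (by norm_num)
  rw [h1]
  have h5 : Real.exp 1 ^ 2 ≤ 2.7182818286 ^ 2 := pow_le_pow_left₀ (Real.exp_pos _).le h2.le 2
  calc Real.exp 1 ^ 2 * Real.exp 0.201 ≤ 2.7182818286 ^ 2 * 1.2227 :=
        mul_le_mul h5 h4 (Real.exp_pos _).le (by norm_num)
    _ ≤ 9.0416 := by norm_num

lemma exp_4202 : Real.exp 4.202 ≤ 69 := by
  have h1 : Real.exp 4.202 = Real.exp 1 ^ 4 * Real.exp 0.202 := by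
    rw [← Real.exp_nat_mul, ← Real.exp_add]
    norm_num
  have h2 := Real.exp_one_lt_d9
  have h3 := Real.exp_bound' (x := 0.202) (by norm_num) (by norm_num) (n := 4) (by norm_num)
  simp only [Finset.sum_range_succ, Finset.sum_range_zero, Nat.factorial] at h3
  have h4 : Real.exp 0.202 ≤ 1.23 := h3.trans (by norm_num)
  rw [h1]
  have h5 : Real.exp 1 ^ 4 ≤ 2.7182818286 ^ 4 := pow_le_pow_left₀ (Real.exp_pos _).le h2.le 4
  calc Real.exp 1 ^ 4 * Real.exp 0.202 ≤ 2.7182818286 ^ 4 * 1.23 :=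
        mul_le_mul h5 h4 (Real.exp_pos _).le (by norm_num)
    _ ≤ 69 := by norm_num

lemma exp_42 : 66.46 ≤ Real.exp 4.2 := by
  have h1 : Real.exp 4.2 = Real.exp 1 ^ 4 * Real.exp 0.2 := by
    rw [← Real.exp_nat_mul, ← Real.exp_add]
    norm_num
  have h2 := Real.exp_one_gt_d9
  have h3 := Real.sum_le_exp_of_nonneg (x := 0.2) (by norm_num) 4
  simp only [Finset.sum_range_succ, Finset.sum_range_zero, Nat.factorial] at h3
  have h4 : 1.2213 ≤ Real.exp 0.2 := le_trans (by norm_num) h3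
  rw [h1]
  have h5 : 2.7182818283 ^ 4 ≤ Real.exp 1 ^ 4 := pow_le_pow_left₀ (by norm_num) h2.le 4
  calc (66.46 : ℝ) ≤ 2.7182818283 ^ 4 * 1.2213 := by norm_num
    _ ≤ Real.exp 1 ^ 4 * Real.exp 0.2 := mul_le_mul h5 h4 (by norm_num) (by positivity)

lemma exp_22 : 9.02 ≤ Real.exp 2.2 := by
  have h1 : Real.exp 2.2 = Real.exp 1 ^ 2 * Real.exp 0.2 := by
    rw [← Real.exp_nat_mul, ← Real.exp_add]
    norm_num
  have h2 := Real.exp_one_gt_d9
  have h3 := Real.sum_le_exp_of_nonneg (x := 0.2) (by norm_num) 4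
  simp only [Finset.sum_range_succ, Finset.sum_range_zero, Nat.factorial] at h3
  have h4 : 1.2213 ≤ Real.exp 0.2 := le_trans (by norm_num) h3
  rw [h1]
  have h5 : 2.7182818283 ^ 2 ≤ Real.exp 1 ^ 2 := pow_le_pow_left₀ (by norm_num) h2.le 2
  calc (9.02 : ℝ) ≤ 2.7182818283 ^ 2 * 1.2213 := by norm_num
    _ ≤ Real.exp 1 ^ 2 * Real.exp 0.2 := mul_le_mul h5 h4 (by norm_num) (by positivity)

lemma exp_06 : 1.822 ≤ Real.exp 0.6 := by
  have h3 := Real.sum_le_exp_of_nonneg (x := 0.6) (by norm_num) 7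
  simp only [Finset.sum_range_succ, Finset.sum_range_zero, Nat.factorial] at h3
  exact le_trans (by norm_num) h3

lemma exp_0601 : Real.exp 0.601 ≤ 1.83 := by
  have h3 := Real.exp_bound' (x := 0.601) (by norm_num) (by norm_num) (n := 5) (by norm_num)
  simp only [Finset.sum_range_succ, Finset.sum_range_zero, Nat.factorial] at h3
  exact h3.trans (by norm_num)

/-! ### the weight at the scale `1/(b+1)` -/

lemma nb {b : ℕ} (hb : 10000 ≤ b) : (10001 : ℝ) ≤ (b : ℝ) + 1 := by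
  have : (10000 : ℝ) ≤ b := by exact_mod_cast hb
  linarith

/-- lower bound for `(1-t)^(b+1)`, `t = x/(b+1)` -/
lemma qlo {b : ℕ} (hb : 10000 ≤ b) {x y E : ℝ} (hx : 0 < x) (hx1 : x ≤ 4.2)
    (hxy : x * 10001 ≤ y * (10001 - x)) (hE : Real.exp y ≤ E) :
    1 / E ≤ (1 - x / (b + 1)) ^ (b + 1) := by
  have hn := nb hb
  have hn0 : (0 : ℝ) < (b : ℝ) + 1 := by linarith
  have ht : x / ((b : ℝ) + 1) < 1 := by
    rw [div_lt_one hn0]
    linarith
  have h1 := qlow (b + 1) ht
  refine le_trans ?_ h1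
  have hE0 : 0 < E := (Real.exp_pos y).trans_le hE
  have h2 : Real.exp (-y) ≤ Real.exp (-(((b + 1 : ℕ) : ℝ) * (x / (b + 1)) /
      (1 - x / (b + 1)))) := by
    apply Real.exp_le_exp.2
    apply neg_le_neg
    have h3 : ((b + 1 : ℕ) : ℝ) * (x / (b + 1)) = x := by
      push_cast
      field_simp
    rw [h3, div_le_iff₀ (by linarith)]
    have h4 : x / ((b : ℝ) + 1) ≤ x / 10001 := by gcongr
    have hy : 0 ≤ y := by
      by_contra hneg
      push Not at hneg
      nlinarith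
    have h5 : y * (1 - x / 10001) ≤ y * (1 - x / (b + 1)) := by gcongr
    refine le_trans ?_ h5
    have h6 : y * (1 - x / 10001) = y * (10001 - x) / 10001 := by field_simp
    rw [h6, le_div_iff₀ (by norm_num)]
    exact hxy
  refine le_trans ?_ h2
  rw [Real.exp_neg, ← one_div]
  apply one_div_le_one_div_of_le (Real.exp_pos _) hE

lemma qhi (b : ℕ) {x : ℝ} (hx : x ≤ b + 1) :
    (1 - x / (b + 1)) ^ (b + 1) ≤ Real.exp (-x) := by
  have hn0 : (0 : ℝ) < (b : ℝ) + 1 := by positivity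
  have h1 := qup (b + 1) (t := x / ((b : ℝ) + 1)) (by rw [div_le_one hn0]; exact hx)
  refine h1.trans (le_of_eq ?_)
  congr 2
  push_cast
  field_simp

lemma kU (b : ℕ) (k t : ℝ) : k * (b + 2) * U b t =
    k * (1 - (1 - t) ^ (b + 1) * (1 + (b + 1) * t)) / (b + 1) := by
  unfold U
  field_simp

lemma kmU (b : ℕ) (k t : ℝ) : k * (b + 2) * (m0 b - U b t) =
    k * ((1 - t) ^ (b + 1) * (1 + (b + 1) * t)) / (b + 1) := by
  rw [m0_sub_U]
  field_simp

lemma pow_succ_le {b : ℕ} {t : ℝ} (h0 : 0 ≤ t) (h1 : t ≤ 1) : (1 - t) ^ (b + 1) ≤ (1 - t) ^ b :=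
  pow_le_pow_of_le_one (by linarith) (by linarith) (Nat.le_succ b)

/-- `κ U(T) < T (1-T)^b` at `T = x/(b+1)` -/
lemma kU_lt {b : ℕ} {k x : ℝ} (hx : 0 < x) (hxb : x < b + 1)
    (h : k < (1 - x / (b + 1)) ^ (b + 1) * (x + k * (1 + x))) :
    k * (b + 2) * U b (x / (b + 1)) < x / (b + 1) * (1 - x / (b + 1)) ^ b := by
  have hn0 : (0 : ℝ) < (b : ℝ) + 1 := by positivity
  have ht1 : x / ((b : ℝ) + 1) < 1 := by rw [div_lt_one hn0]; exact hxb
  have ht0 : 0 < x / ((b : ℝ) + 1) := by positivity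
  rw [kU]
  have e1 : ((b : ℝ) + 1) * (x / (b + 1)) = x := by field_simp
  rw [e1, div_mul_eq_mul_div, div_lt_div_iff_of_pos_right hn0]
  have h1 := pow_succ_le (b := b) ht0.le ht1.le
  have h2 : x * (1 - x / (b + 1)) ^ (b + 1) ≤ x * (1 - x / (b + 1)) ^ b := by gcongr
  linarith

lemma kmU_lt {b : ℕ} {k t : ℝ} (ht0 : 0 < t) (ht1 : t < 1) (hk : 0 < k)
    (h : k * (1 + (b + 1) * t) < (b + 1) * t) :
    k * (b + 2) * (m0 b - U b t) < t * (1 - t) ^ b := by
  have hn0 : (0 : ℝ) < (b : ℝ) + 1 := by positivity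
  rw [kmU, div_lt_iff₀ hn0]
  have h1 := pow_succ_le (b := b) ht0.le ht1.le
  have h2 : 0 < (1 - t) ^ b := pow_pos (by linarith) _
  calc k * ((1 - t) ^ (b + 1) * (1 + (b + 1) * t)) =
        (1 - t) ^ (b + 1) * (k * (1 + (b + 1) * t)) := by ring
    _ ≤ (1 - t) ^ b * (k * (1 + (b + 1) * t)) := by
        apply mul_le_mul_of_nonneg_right h1
        positivity
    _ < (1 - t) ^ b * ((b + 1) * t) := by gcongr
    _ = t * (1 - t) ^ b * (b + 1) := by ring

theorem t_num : S_num := by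
  intro b hb
  have hn := nb hb
  have hn0 : (0 : ℝ) < (b : ℝ) + 1 := by linarith
  set T : ℝ := 1.679 / (b + 1) with hT
  have hT0 : 0 < T := by positivity
  have hT1 : T < 1 := by rw [hT, div_lt_one hn0]; linarith
  have hTn : ((b : ℝ) + 1) * T = 1.679 := by rw [hT]; field_simp
  have hTs : T ≤ 1.679 / 10001 := by rw [hT]; gcongr
  -- the mass of the disc of radius `T`
  have h1 : m0 b / 2 < U b T := by
    have h2 := qhi b (x := 1.679) (by linarith)
    rw [Real.exp_neg] at h2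
    have h3 : (Real.exp 1.679)⁻¹ < 5.358⁻¹ := by
      apply inv_strictAnti₀ (by norm_num) exp_1679
    have h4 : (1 - T) ^ (b + 1) < 5.358⁻¹ := h2.trans_lt h3
    unfold m0 U
    rw [hTn, lt_div_iff₀ (by positivity)]
    have h5 : (1 - T) ^ (b + 1) * (1 + 1.679) < 1 / 2 := by
      calc (1 - T) ^ (b + 1) * (1 + 1.679) < 5.358⁻¹ * (1 + 1.679) := by gcongr
        _ = 1 / 2 := by norm_num
    have h6 : 1 / (((b : ℝ) + 1) * (b + 2)) / 2 * ((b + 1) * (b + 2)) = 1 / 2 := by field_simp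
    rw [h6]
    linarith
  have h0 : U b 0 < m0 b / 2 := by
    rw [U_zero]
    have : 0 < m0 b := by unfold m0; positivity
    linarith
  obtain ⟨ρ, hρ, hρU⟩ := intermediate_value_Icc hT0.le (U_cont b).continuousOn
    (show m0 b / 2 ∈ Icc (U b 0) (U b T) from ⟨h0.le, h1.le⟩)
  have hρ0 : 0 < ρ := by
    rcases eq_or_lt_of_le hρ.1 with h | h
    · rw [← h] at hρU
      exact absurd hρU h0.ne
    · exact h
  have hρ1 : ρ < 1 := hρ.2.trans_lt hT1
  refine ⟨ρ, hρ0, hρ1, hρU, ?_⟩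
  -- the perimeter
  have h2 : (1 - ρ) ^ (b + 1) * (1 + (b + 1) * ρ) = 1 / 2 := by
    have h3 := m0_sub_U b ρ
    rw [hρU] at h3
    unfold m0 at h3
    rw [eq_div_iff (by positivity)] at h3
    rw [← h3]
    field_simp
    ring
  have h3 : (1 - ρ) ^ b * ((1 - ρ) * (1 + (b + 1) * ρ)) = 1 / 2 := by
    rw [← h2]; ring
  have hy : ((b : ℝ) + 1) * ρ ≤ 1.679 := by
    rw [← hTn]
    gcongr
    exact hρ.2
  have hD : 0 < (1 - ρ) * (1 + (b + 1) * ρ) := mul_pos (by linarith) (by positivity)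
  rw [le_div_iff₀ hn0]
  have h4 : 2 * π * ρ * (1 - ρ) ^ b * (b + 1) * ((1 - ρ) * (1 + (b + 1) * ρ)) =
      π * ((b + 1) * ρ) := by
    calc 2 * π * ρ * (1 - ρ) ^ b * (b + 1) * ((1 - ρ) * (1 + (b + 1) * ρ)) =
          2 * π * ρ * (b + 1) * ((1 - ρ) ^ b * ((1 - ρ) * (1 + (b + 1) * ρ))) := by ring
      _ = π * ((b + 1) * ρ) := by rw [h3]; ring
  have h5 : π * ((b + 1) * ρ) ≤ 1.9695 * ((1 - ρ) * (1 + (b + 1) * ρ)) := by
    set y : ℝ := ((b : ℝ) + 1) * ρ with hyd
    have hy0 : 0 < y := by positivity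
    have hr : ρ ≤ 1.679 / 10001 := hρ.2.trans hTs
    have k1 : π * y ≤ 3.1416 * y := by
      have := Real.pi_lt_d4
      gcongr
    have k2 : (1 - 1.679 / 10001) * (1 + y) ≤ (1 - ρ) * (1 + y) := by gcongr
    have k3 : 3.1416 * y ≤ 1.9695 * ((1 - 1.679 / 10001) * (1 + y)) := by nlinarith
    linarith
  rw [← h4] at h5
  exact le_of_mul_le_mul_right h5 hD

lemma int_w {b : ℕ} (x : ℝ) : ∫ r in (0 : ℝ)..(x / (b + 1)), (1 - r) ^ b =
    (1 - (1 - x / (b + 1)) ^ (b + 1)) / (b + 1) := by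
  have h : ∀ r : ℝ, HasDerivAt (fun r : ℝ => -((1 - r) ^ (b + 1) / (b + 1))) ((1 - r) ^ b) r := by
    intro r
    have h1 := ((hasDerivAt_id r).const_sub 1).fun_pow (b + 1)
    have h2 := (h1.div_const ((b : ℝ) + 1)).neg
    refine h2.congr_deriv ?_
    simp only [id]
    push_cast
    field_simp
  rw [intervalIntegral.integral_eq_sub_of_hasDerivAt (fun r _ => h r) (by
    apply Continuous.intervalIntegrable; fun_prop)]
  simp only [sub_zero, one_pow]
  ring

lemma U_le_half {b : ℕ} {r : ℝ} (h0 : 0 ≤ r) (h1 : r ≤ 1) : U b r ≤ r ^ 2 / 2 := by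
  have h := U_int b 0 r
  rw [U_zero, sub_zero] at h
  rw [← h]
  have h2 : ∫ s in (0 : ℝ)..r, s * (1 - s) ^ b ≤ ∫ s in (0 : ℝ)..r, s := by
    apply intervalIntegral.integral_mono_on h0
    · apply Continuous.intervalIntegrable; fun_prop
    · apply Continuous.intervalIntegrable; fun_prop
    · intro s hs
      have h3 : (1 - s) ^ b ≤ 1 := pow_le_one₀ (by linarith [hs.2]) (by linarith [hs.1])
      exact mul_le_of_le_one_right hs.1 h3
  rw [integral_id] at h2
  linarith

/-- `U(r) ≤ 0.368 r / b` -/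
lemma U_le_lin {b : ℕ} (hb : 1 ≤ b) {r : ℝ} (h0 : 0 ≤ r) (h1 : r ≤ 1) :
    U b r ≤ 0.368 / b * r := by
  have hb0 : (0 : ℝ) < b := by exact_mod_cast hb
  have h := U_int b 0 r
  rw [U_zero, sub_zero] at h
  rw [← h]
  have h2 : ∫ s in (0 : ℝ)..r, s * (1 - s) ^ b ≤ ∫ s in (0 : ℝ)..r, 0.368 / (b : ℝ) := by
    apply intervalIntegral.integral_mono_on h0
    · apply Continuous.intervalIntegrable; fun_prop
    · exact intervalIntegrable_const
    · intro s hs
      have h3 := qup b (t := s) (by linarith [hs.2])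
      have h4 : b * s ≤ Real.exp (b * s - 1) := by
        have := Real.add_one_le_exp ((b : ℝ) * s - 1)
        linarith
      have h5 : b * (s * (1 - s) ^ b) ≤ Real.exp (-1) := by
        calc b * (s * (1 - s) ^ b) = (b * s) * (1 - s) ^ b := by ring
          _ ≤ Real.exp (b * s - 1) * Real.exp (-(b * s)) :=
              mul_le_mul h4 h3 (pow_nonneg (by linarith [hs.2]) _) (Real.exp_pos _).le
          _ = Real.exp (-1) := by rw [← Real.exp_add]; congr 1; ring
      have h6 : Real.exp (-1) ≤ 0.368 := by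
        rw [Real.exp_neg]
        have h7 := Real.exp_one_gt_d9
        calc (Real.exp 1)⁻¹ ≤ (2.7182818283 : ℝ)⁻¹ := inv_anti₀ (by norm_num) h7.le
          _ ≤ 0.368 := by norm_num
      rw [le_div_iff₀ hb0]
      linarith
  rw [intervalIntegral.integral_const, smul_eq_mul] at h2
  linarith

lemma sq_meas (b : ℕ) (κ : ℝ) : Measurable (fun r : ℝ =>
    √((1 - r) ^ (2 * b) - (κ * U b r / r) ^ 2)) := by
  have hU := (U_cont b).measurable
  fun_prop

lemma sq_ii (b : ℕ) (κ : ℝ) {T : ℝ} (h0 : 0 ≤ T) (h1 : T ≤ 1) :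
    IntervalIntegrable (fun r : ℝ => √((1 - r) ^ (2 * b) - (κ * U b r / r) ^ 2)) volume 0 T := by
  rw [intervalIntegrable_iff_integrableOn_Ioc_of_le h0]
  have h2 : IntegrableOn (fun _ : ℝ => (1 : ℝ)) (Ioc 0 T) :=
    integrableOn_const measure_Ioc_lt_top.ne enorm_ne_top
  refine h2.mono' (sq_meas b κ).aestronglyMeasurable ?_
  filter_upwards [ae_restrict_mem measurableSet_Ioc] with r hr
  rw [Real.norm_of_nonneg (Real.sqrt_nonneg _)]
  apply Real.sqrt_le_iff.2
  refine ⟨zero_le_one, ?_⟩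
  have h3 : (1 - r) ^ (2 * b) ≤ 1 := pow_le_one₀ (by linarith [hr.2]) (by linarith [hr.1])
  have := sq_nonneg (κ * U b r / r)
  linarith

theorem t_numA : S_numA := by
  intro b hb
  have hn := nb hb
  have hn0 : (0 : ℝ) < (b : ℝ) + 1 := by linarith
  have hb0 : (10000 : ℝ) ≤ b := by exact_mod_cast hb
  have hpi := Real.pi_gt_d4
  -- lower bounds for `q`
  have q22 : 1 / 9.0416 ≤ (1 - 2.2 / ((b : ℝ) + 1)) ^ (b + 1) :=
    qlo hb (by norm_num) (by norm_num) (y := 2.201) (by norm_num) exp_2201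
  have q42 : 1 / 69 ≤ (1 - 4.2 / ((b : ℝ) + 1)) ^ (b + 1) :=
    qlo hb (by norm_num) (by norm_num) (y := 4.202) (by norm_num) exp_4202
  have small : ∀ x : ℝ, 0 < x → x ≤ 4.2 → 0 < x / ((b : ℝ) + 1) ∧ x / ((b : ℝ) + 1) < 1 := by
    intro x h0 h1
    refine ⟨by positivity, ?_⟩
    rw [div_lt_one hn0]
    linarith
  refine ⟨?_, ?_, ?_, ?_, ?_⟩
  · intro t h1 h2
    have s1 := small 2.2 (by norm_num) (by norm_num)
    have s2 := small 0.6 (by norm_num) (by norm_num)
    have hnt : 0.6 ≤ ((b : ℝ) + 1) * t := by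
      rw [div_le_iff₀ hn0] at h1
      linarith
    refine ⟨?_, ?_⟩
    · refine fact1 s1.1 s1.2 (by positivity) ?_ (by linarith) h2
      apply kU_lt (by norm_num) (by linarith)
      linarith
    · apply kmU_lt (by linarith) (by linarith) (by norm_num)
      linarith
  · intro t h1 h2
    have s1 := small 4.2 (by norm_num) (by norm_num)
    have s2 := small 2.2 (by norm_num) (by norm_num)
    have hnt : 2.2 ≤ ((b : ℝ) + 1) * t := by
      rw [div_le_iff₀ hn0] at h1
      linarith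
    refine ⟨?_, ?_⟩
    · refine fact1 s1.1 s1.2 (by positivity) ?_ (by linarith) h2
      apply kU_lt (by norm_num) (by linarith)
      linarith
    · apply kmU_lt (by linarith) (by linarith) (by norm_num)
      linarith
  · -- κ' = 0.37
    obtain ⟨s1, s2⟩ := small 0.6 (by norm_num) (by norm_num)
    have e1 : 0.37 * ((b : ℝ) + 2) * (π * m0 b) = 0.37 * π / (b + 1) := by
      unfold m0; field_simp
    have e2 : ∫ r in (0 : ℝ)..(0.6 / (b + 1)), ((1 - r) ^ b - 0.185 * (b + 2) * r) ≤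
        ∫ r in (0 : ℝ)..(0.6 / (b + 1)),
          √((1 - r) ^ (2 * b) - (0.37 * (b + 2) * U b r / r) ^ 2) := by
      apply intervalIntegral.integral_mono_on s1.le
      · apply Continuous.intervalIntegrable; fun_prop
      · exact sq_ii b _ s1.le s2.le
      · intro r hr
        have hA : 0 ≤ (1 - r) ^ b := pow_nonneg (by linarith [hr.2]) _
        have hB : |0.37 * (b + 2) * U b r / r| ≤ 0.185 * (b + 2) * r := by
          rcases eq_or_lt_of_le hr.1 with h | h
          · rw [← h]; simp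
          · rw [abs_div, abs_of_pos h, div_le_iff₀ h, abs_of_nonneg (mul_nonneg (by positivity)
              (U_pos h (by linarith [hr.2])).le)]
            have h3 := U_le_half (b := b) h.le (by linarith [hr.2])
            calc 0.37 * ((b : ℝ) + 2) * U b r ≤ 0.37 * ((b : ℝ) + 2) * (r ^ 2 / 2) := by gcongr
              _ = 0.185 * (b + 2) * r * r := by ring
        set A : ℝ := (1 - r) ^ b with hAd
        set B : ℝ := 0.37 * (b + 2) * U b r / r with hBd
        set B' : ℝ := 0.185 * (b + 2) * r with hB'd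
        have hAA : (1 - r) ^ (2 * b) = A ^ 2 := by rw [hAd, ← pow_mul, mul_comm]
        rw [hAA]
        have hB2 : B ^ 2 ≤ B' ^ 2 := by
          rw [← sq_abs B]
          exact pow_le_pow_left₀ (abs_nonneg _) hB 2
        have hB'0 : 0 ≤ B' := (abs_nonneg _).trans hB
        rcases le_or_gt A B' with h | h
        · exact (by linarith : A - B' ≤ 0).trans (Real.sqrt_nonneg _)
        · apply Real.le_sqrt_of_sq_le
          nlinarith
    have e3 : ∫ r in (0 : ℝ)..(0.6 / (b + 1)), ((1 - r) ^ b - 0.185 * (b + 2) * r) =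
        (1 - (1 - 0.6 / ((b : ℝ) + 1)) ^ (b + 1)) / (b + 1) -
          0.185 * (b + 2) * ((0.6 / (b + 1)) ^ 2 / 2) := by
      rw [intervalIntegral.integral_sub (by apply Continuous.intervalIntegrable; fun_prop)
        (by apply Continuous.intervalIntegrable; fun_prop), int_w,
        intervalIntegral.integral_const_mul, integral_id]
      ring
    have e4 : (1 - 0.6 / ((b : ℝ) + 1)) ^ (b + 1) ≤ 1 / 1.822 := by
      refine (qhi b (by linarith)).trans ?_
      rw [Real.exp_neg, one_div]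
      exact inv_anti₀ (by norm_num) exp_06
    have e5 : 0.185 * ((b : ℝ) + 2) * ((0.6 / (b + 1)) ^ 2 / 2) ≤ 0.034 / (b + 1) := by
      rw [le_div_iff₀ hn0]
      have : 0.185 * ((b : ℝ) + 2) * ((0.6 / (b + 1)) ^ 2 / 2) * (b + 1) =
          0.0333 * ((b + 2) / (b + 1)) := by field_simp; norm_num
      rw [this]
      have h6 : ((b : ℝ) + 2) / (b + 1) ≤ 1.001 := by
        rw [div_le_iff₀ hn0]; linarith
      linarith
    have e6 : (1 - 1 / 1.822) / ((b : ℝ) + 1) ≤
        (1 - (1 - 0.6 / ((b : ℝ) + 1)) ^ (b + 1)) / (b + 1) := by gcongr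
    have e7 : 1.9699 / ((b : ℝ) + 1) ≤ 0.37 * π / (b + 1) +
        2 * ((1 - 1 / 1.822) / ((b : ℝ) + 1) - 0.034 / (b + 1)) := by
      have : 0.37 * π / ((b : ℝ) + 1) + 2 * ((1 - 1 / 1.822) / ((b : ℝ) + 1) - 0.034 / (b + 1)) =
          (0.37 * π + 2 * ((1 - 1 / 1.822) - 0.034)) / (b + 1) := by ring
      rw [this]
      gcongr
      linarith
    rw [e1]
    linarith
  · -- κ' = 0.065
    obtain ⟨s1, s2⟩ := small 2.2 (by norm_num) (by norm_num)
    have e1 : 0.065 * ((b : ℝ) + 2) * (π * m0 b) = 0.065 * π / (b + 1) := by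
      unfold m0; field_simp
    have e2 : ∫ r in (0 : ℝ)..(2.2 / (b + 1)), ((1 - r) ^ b - 0.00264) ≤
        ∫ r in (0 : ℝ)..(2.2 / (b + 1)),
          √((1 - r) ^ (2 * b) - (0.065 * (b + 2) * U b r / r) ^ 2) := by
      apply intervalIntegral.integral_mono_on s1.le
      · apply Continuous.intervalIntegrable; fun_prop
      · exact sq_ii b _ s1.le s2.le
      · intro r hr
        have hA : 1 / 9.0416 ≤ (1 - r) ^ b := by
          refine q22.trans ((pow_succ_le s1.le s2.le).trans ?_)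
          exact pow_le_pow_left₀ (by linarith) (by linarith [hr.2]) b
        have hB : |0.065 * (b + 2) * U b r / r| ≤ 0.024 := by
          rcases eq_or_lt_of_le hr.1 with h | h
          · rw [← h]; simp; norm_num
          · rw [abs_div, abs_of_pos h, div_le_iff₀ h, abs_of_nonneg (mul_nonneg (by positivity)
              (U_pos h (by linarith [hr.2])).le)]
            have h3 := U_le_lin (b := b) (by linarith) h.le (by linarith [hr.2])
            calc 0.065 * ((b : ℝ) + 2) * U b r ≤ 0.065 * ((b : ℝ) + 2) * (0.368 / b * r) := by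
                  gcongr
              _ = 0.02392 * (((b : ℝ) + 2) / b) * r := by field_simp; norm_num
              _ ≤ 0.024 * r := by
                  apply mul_le_mul_of_nonneg_right _ h.le
                  have h6 : ((b : ℝ) + 2) / b ≤ 1.001 := by
                    rw [div_le_iff₀ (by linarith)]; linarith
                  linarith
        set A : ℝ := (1 - r) ^ b with hAd
        set B : ℝ := 0.065 * (b + 2) * U b r / r with hBd
        have hAA : (1 - r) ^ (2 * b) = A ^ 2 := by rw [hAd, ← pow_mul, mul_comm]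
        rw [hAA]
        have hB2 : B ^ 2 ≤ 0.024 ^ 2 := by
          rw [← sq_abs B]
          exact pow_le_pow_left₀ (abs_nonneg _) hB 2
        apply Real.le_sqrt_of_sq_le
        nlinarith
    have e3 : ∫ r in (0 : ℝ)..(2.2 / (b + 1)), ((1 - r) ^ b - 0.00264) =
        (1 - (1 - 2.2 / ((b : ℝ) + 1)) ^ (b + 1)) / (b + 1) - 0.00264 * (2.2 / (b + 1)) := by
      rw [intervalIntegral.integral_sub (by apply Continuous.intervalIntegrable; fun_prop)
        intervalIntegrable_const, int_w, intervalIntegral.integral_const, smul_eq_mul]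
      ring
    have e4 : (1 - 2.2 / ((b : ℝ) + 1)) ^ (b + 1) ≤ 1 / 9.02 := by
      refine (qhi b (by linarith)).trans ?_
      rw [Real.exp_neg, one_div]
      exact inv_anti₀ (by norm_num) exp_22
    have e6 : (1 - 1 / 9.02) / ((b : ℝ) + 1) ≤
        (1 - (1 - 2.2 / ((b : ℝ) + 1)) ^ (b + 1)) / (b + 1) := by gcongr
    have e7 : 1.9699 / ((b : ℝ) + 1) ≤ 0.065 * π / (b + 1) +
        2 * ((1 - 1 / 9.02) / ((b : ℝ) + 1) - 0.00264 * (2.2 / (b + 1))) := by
      have : 0.065 * π / ((b : ℝ) + 1) + 2 * ((1 - 1 / 9.02) / ((b : ℝ) + 1) -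
          0.00264 * (2.2 / (b + 1))) =
          (0.065 * π + 2 * ((1 - 1 / 9.02) - 0.00264 * 2.2)) / (b + 1) := by ring
      rw [this]
      gcongr
      linarith
    rw [e1]
    linarith
  · have e4 : (1 - 4.2 / ((b : ℝ) + 1)) ^ (b + 1) ≤ 1 / 66.46 := by
      refine (qhi b (by linarith)).trans ?_
      rw [Real.exp_neg, one_div]
      exact inv_anti₀ (by norm_num) exp_42
    rw [int_w]
    have : 2 * ((1 - (1 - 4.2 / ((b : ℝ) + 1)) ^ (b + 1)) / (b + 1)) =
        (2 * (1 - (1 - 4.2 / ((b : ℝ) + 1)) ^ (b + 1))) / (b + 1) := by ring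
    rw [this]
    gcongr
    linarith

theorem t_numB : S_numB := by
  refine ⟨fun b hb => ?_, fun c hc => ?_⟩
  · have hn := nb hb
    have hn0 : (0 : ℝ) < (b : ℝ) + 1 := by linarith
    have q06 : 1 / 1.83 ≤ (1 - 0.6 / ((b : ℝ) + 1)) ^ (b + 1) :=
      qlo hb (by norm_num) (by norm_num) (y := 0.601) (by norm_num) exp_0601
    have s1 : 0 < 0.6 / ((b : ℝ) + 1) := by positivity
    have s2 : 0.6 / ((b : ℝ) + 1) < 1 := by rw [div_lt_one hn0]; linarith
    refine ⟨fun t h1 h2 => ?_, fun R h1 h2 => ?_, ?_⟩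
    · refine fact1 s1 s2 (by positivity) ?_ h1 h2
      apply kU_lt (by norm_num) (by linarith)
      linarith
    · rw [kmU, le_div_iff₀ hn0]
      have h3 : 0 ≤ (1 - R) ^ b := pow_nonneg (by linarith) _
      have h4 : ((b : ℝ) + 1) * R ≤ 2 * ((1 - R) * (1 + (b + 1) * R)) := by
        have : 0 ≤ ((b : ℝ) + 1) * R := by positivity
        nlinarith
      calc R * (1 - R) ^ b * (b + 1) = (1 - R) ^ b * ((b + 1) * R) := by ring
        _ ≤ (1 - R) ^ b * (2 * ((1 - R) * (1 + (b + 1) * R))) := by gcongr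
        _ = 2 * ((1 - R) ^ (b + 1) * (1 + (b + 1) * R)) := by ring
    · unfold U m0
      have e1 : ((b : ℝ) + 1) * (0.6 / (b + 1)) = 0.6 := by field_simp
      rw [e1]
      have e2 : 1 / (((b : ℝ) + 1) * (b + 2)) / 2 = (1 / 2) / ((b + 1) * (b + 2)) := by ring
      rw [e2]
      apply div_lt_div_of_pos_right _ (by positivity)
      linarith
  · have hlim : Tendsto (fun b : ℕ => ((b : ℝ) + 3) / 4 * (1 / 2) ^ b) atTop (𝓝 0) := by
      have h1 := tendsto_self_mul_const_pow_of_lt_one (r := (1 / 2 : ℝ)) (by norm_num)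
        (by norm_num)
      have h2 := tendsto_pow_atTop_nhds_zero_of_lt_one (r := (1 / 2 : ℝ)) (by norm_num)
        (by norm_num)
      have h3 := (h1.const_mul (1 / 4)).add (h2.const_mul (3 / 4))
      simp only [mul_zero, add_zero] at h3
      refine h3.congr fun b => ?_
      ring
    obtain ⟨b0, hb0⟩ := eventually_atTop.1 (hlim.eventually (gt_mem_nhds hc))
    refine ⟨b0, fun b hb => ?_⟩
    have h1 := hb0 b hb
    rw [m0_sub_U]
    unfold m0
    have e0 : c * (1 / (((b : ℝ) + 1) * (b + 2))) = c / ((b + 1) * (b + 2)) := by ring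
    rw [e0]
    apply div_lt_div_of_pos_right _ (by positivity)
    refine lt_of_le_of_lt (le_of_eq ?_) h1
    have : (1 - 1 / 2 : ℝ) ^ (b + 1) = (1 / 2) ^ b * (1 / 2) := by
      rw [pow_succ]; norm_num
    rw [this]
    ring

end Pool.Agent.Y290.MI
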