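import Pool.Agent.TH304.MI.Stm

/-! # Polar coordinates in the disc -/

set_option autoImplicit false

open MeasureTheory Set Metric Filter Topology
open scoped ENNReal Real

noncomputable section

namespace Pool.Agent.Y290.MI

open Pool.Agent.TH304.MI

/-- the point with polar coordinates `r`, `θ` -/
def pt (r θ : ℝ) : ℂ := (r : ℂ) * Complex.exp (θ * Complex.I)

lemma pt_cont : Continuous fun p : ℝ × ℝ => pt p.1 p.2 := by
  unfold pt
  fun_prop

lemma pt_norm {r : ℝ} (hr : 0 ≤ r) (θ : ℝ) : ‖pt r θ‖ = r := by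
  unfold pt
  rw [norm_mul, Complex.norm_exp_ofReal_mul_I, mul_one, Complex.norm_real,
    Real.norm_of_nonneg hr]

lemma pt_symm (p : ℝ × ℝ) : Complex.polarCoord.symm p = pt p.1 p.2 := by
  rw [Complex.polarCoord_symm_apply, pt, Complex.exp_mul_I]
  push_cast
  rfl

lemma pt_per (r θ : ℝ) : pt r (θ + 2 * π) = pt r θ := by
  unfold pt
  congr 1
  push_cast
  rw [add_mul, Complex.exp_add, Complex.exp_two_pi_mul_I, mul_one]

/-- the angular slice -/
def sl (A : Set ℂ) (r : ℝ) : Set ℝ := {θ : ℝ | θ ∈ Ioo (-π) π ∧ pt r θ ∈ A}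

lemma al_eq (A : Set ℂ) (r : ℝ) : al A r = (volume (sl A r)).toReal := rfl

lemma sl_meas2 {A : Set ℂ} (hA : MeasurableSet A) :
    MeasurableSet {p : ℝ × ℝ | p.2 ∈ Ioo (-π) π ∧ pt p.1 p.2 ∈ A} :=
  (measurable_snd measurableSet_Ioo).inter (pt_cont.measurable hA)

lemma sl_meas {A : Set ℂ} (hA : MeasurableSet A) (r : ℝ) : MeasurableSet (sl A r) :=
  measurable_prodMk_left (x := r) (sl_meas2 hA)

lemma vol_sl_meas {A : Set ℂ} (hA : MeasurableSet A) : Measurable fun r => volume (sl A r) :=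
  measurable_measure_prodMk_left (sl_meas2 hA)

lemma al_meas {A : Set ℂ} (hA : MeasurableSet A) : Measurable (al A) :=
  (vol_sl_meas hA).ennreal_toReal

lemma vol_sl_le (A : Set ℂ) (r : ℝ) : volume (sl A r) ≤ ENNReal.ofReal (2 * π) := by
  refine (measure_mono (fun θ hθ => hθ.1 : sl A r ⊆ Ioo (-π) π)).trans ?_
  rw [Real.volume_Ioo]
  apply ENNReal.ofReal_le_ofReal
  linarith

lemma vol_sl_lt_top (A : Set ℂ) (r : ℝ) : volume (sl A r) < ∞ :=
  (vol_sl_le A r).trans_lt ENNReal.ofReal_lt_top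

lemma al_nonneg (A : Set ℂ) (r : ℝ) : 0 ≤ al A r := ENNReal.toReal_nonneg

lemma al_le (A : Set ℂ) (r : ℝ) : al A r ≤ 2 * π := by
  rw [al_eq]
  exact ENNReal.toReal_le_of_le_ofReal (by positivity) (vol_sl_le A r)

lemma ofReal_al (A : Set ℂ) (r : ℝ) : ENNReal.ofReal (al A r) = volume (sl A r) := by
  rw [al_eq, ENNReal.ofReal_toReal (vol_sl_lt_top A r).ne]

/-- polar coordinates, lower integral -/
lemma pol_lint {f : ℂ → ℝ≥0∞} (hf : Measurable f) :
    ∫⁻ z, f z = ∫⁻ r in Ioi (0 : ℝ), ∫⁻ θ in Ioo (-π) π, ENNReal.ofReal r * f (pt r θ) := by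
  rw [← Complex.lintegral_comp_polarCoord_symm, polarCoord_target, Measure.volume_eq_prod,
    ← Measure.prod_restrict, lintegral_prod]
  · simp only [pt_symm, smul_eq_mul]
  · apply Measurable.aemeasurable
    simp only [pt_symm, smul_eq_mul]
    exact (ENNReal.measurable_ofReal.comp measurable_fst).mul (hf.comp pt_cont.measurable)

/-- the measure of a subset of the disc -/
lemma vol_pol {S : Set ℂ} (hS : MeasurableSet S) (hS1 : S ⊆ D1) {h : ℝ → ℝ≥0∞}
    (hh : Measurable h) :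
    ∫⁻ z in S, h ‖z‖ = ∫⁻ r in Ioo (0 : ℝ) 1, ENNReal.ofReal r * h r * volume (sl S r) := by
  have hm0 : Measurable (S.indicator (fun z : ℂ => h ‖z‖)) :=
    (hh.comp measurable_norm).indicator hS
  rw [← lintegral_indicator hS, pol_lint hm0]
  have e1 : ∀ r ∈ Ioi (0 : ℝ), (∫⁻ θ in Ioo (-π) π, ENNReal.ofReal r *
      S.indicator (fun z => h ‖z‖) (pt r θ)) =
      (Ioo (0 : ℝ) 1).indicator (fun r => ENNReal.ofReal r * h r * volume (sl S r)) r := by
    intro r hr
    have hr0 : (0 : ℝ) < r := hr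
    by_cases h1 : r < 1
    · rw [indicator_of_mem (show r ∈ Ioo (0 : ℝ) 1 from ⟨hr0, h1⟩)]
      have e2 : ∀ θ, ENNReal.ofReal r * S.indicator (fun z => h ‖z‖) (pt r θ) =
          {θ | pt r θ ∈ S}.indicator (fun _ => ENNReal.ofReal r * h r) θ := by
        intro θ
        by_cases hθ : pt r θ ∈ S
        · rw [indicator_of_mem hθ, indicator_of_mem (show θ ∈ {θ | pt r θ ∈ S} from hθ),
            pt_norm hr0.le]
        · rw [indicator_of_notMem hθ, indicator_of_notMem (show θ ∉ {θ | pt r θ ∈ S} from hθ),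
            mul_zero]
      simp_rw [e2]
      have hm : MeasurableSet {θ : ℝ | pt r θ ∈ S} :=
        (pt_cont.comp (by fun_prop : Continuous fun θ : ℝ => (r, θ))).measurable hS
      rw [lintegral_indicator hm, setLIntegral_const, Measure.restrict_apply hm]
      congr 2
      ext θ
      simp only [sl, mem_inter_iff, mem_ofPred_eq]
      tauto
    · rw [indicator_of_notMem (fun h => h1 h.2)]
      have e2 : ∀ θ, ENNReal.ofReal r * S.indicator (fun z => h ‖z‖) (pt r θ) = 0 := by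
        intro θ
        rw [indicator_of_notMem, mul_zero]
        intro hθ
        have := hS1 hθ
        rw [D1, mem_ball_zero_iff, pt_norm hr0.le] at this
        exact h1 this
      simp_rw [e2]
      simp
  rw [setLIntegral_congr_fun measurableSet_Ioi e1, lintegral_indicator measurableSet_Ioo,
    Measure.restrict_restrict measurableSet_Ioo]
  congr 2
  ext r
  simp only [mem_inter_iff, mem_Ioo, mem_Ioi]
  tauto

lemma vol_zero_iff {S : Set ℂ} (hS : MeasurableSet S) (hS1 : S ⊆ D1) :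
    volume S = 0 ↔ ∀ᵐ r ∂(volume.restrict (Ioo (0 : ℝ) 1)), al S r = 0 := by
  have h1 := vol_pol hS hS1 (h := fun _ => 1) measurable_const
  simp only [lintegral_const, Measure.restrict_apply MeasurableSet.univ, univ_inter, one_mul,
    mul_one] at h1
  have hm0 : Measurable (fun r => ENNReal.ofReal r * volume (sl S r)) :=
    (ENNReal.measurable_ofReal).mul (vol_sl_meas hS)
  rw [h1, lintegral_eq_zero_iff hm0]
  refine ⟨fun h => ?_, fun h => ?_⟩
  · filter_upwards [h, ae_restrict_mem measurableSet_Ioo] with r h2 h3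
    simp only [Pi.zero_apply, mul_eq_zero, ENNReal.ofReal_eq_zero, not_le.2 h3.1, false_or] at h2
    rw [al_eq, h2]
    simp
  · filter_upwards [h] with r h2
    rw [← ofReal_al, h2]
    simp

/-- polar coordinates for radial functions -/
lemma pol_int {A : Set ℂ} (hA : MeasurableSet A) (hA1 : A ⊆ D1) {g : ℝ → ℝ} (hg : Measurable g)
    (hi : IntegrableOn (fun z : ℂ => g ‖z‖) A) :
    ∫ z in A, g ‖z‖ = ∫ r in Ioo (0 : ℝ) 1, g r * r * al A r := by
  have hpos : ∀ g : ℝ → ℝ, Measurable g → (∀ r, 0 ≤ g r) →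
      IntegrableOn (fun z : ℂ => g ‖z‖) A →
      IntegrableOn (fun r => g r * r * al A r) (Ioo 0 1) ∧
      ∫ z in A, g ‖z‖ = ∫ r in Ioo (0 : ℝ) 1, g r * r * al A r := by
    intro g hg h0 hi
    have e1 := vol_pol hA hA1 (h := fun r => ENNReal.ofReal (g r)) hg.ennreal_ofReal
    have hnn : ∀ r ∈ Ioo (0 : ℝ) 1, 0 ≤ g r * r * al A r := fun r hr =>
      mul_nonneg (mul_nonneg (h0 r) hr.1.le) (al_nonneg A r)
    have e2 : ∀ r ∈ Ioo (0 : ℝ) 1, ENNReal.ofReal r * ENNReal.ofReal (g r) * volume (sl A r) =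
        ENNReal.ofReal (g r * r * al A r) := by
      intro r hr
      rw [← ofReal_al, mul_comm (ENNReal.ofReal r), ← ENNReal.ofReal_mul (h0 r),
        ← ENNReal.ofReal_mul (mul_nonneg (h0 r) hr.1.le)]
    rw [setLIntegral_congr_fun measurableSet_Ioo e2] at e1
    have hm : Measurable (fun r => g r * r * al A r) := (hg.mul measurable_id).mul (al_meas hA)
    have hfin : ∫⁻ r in Ioo (0 : ℝ) 1, ENNReal.ofReal (g r * r * al A r) < ∞ := by
      rw [← e1]
      have := hi.2
      rw [hasFiniteIntegral_iff_ofReal (Eventually.of_forall fun z => h0 _)] at this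
      exact this
    refine ⟨⟨hm.aestronglyMeasurable, ?_⟩, ?_⟩
    · rw [hasFiniteIntegral_iff_ofReal]
      · exact hfin
      · filter_upwards [ae_restrict_mem measurableSet_Ioo] with r hr
        exact hnn r hr
    · rw [integral_eq_lintegral_of_nonneg_ae (Eventually.of_forall fun z => h0 _)
        (hg.comp measurable_norm).aestronglyMeasurable,
        integral_eq_lintegral_of_nonneg_ae _ hm.aestronglyMeasurable, e1]
      filter_upwards [ae_restrict_mem measurableSet_Ioo] with r hr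
      exact hnn r hr
  obtain ⟨i1, e1⟩ := hpos (fun r => max (g r) 0) (hg.max measurable_const)
    (fun r => le_max_right _ _) (hi.pos_part)
  obtain ⟨i2, e2⟩ := hpos (fun r => max (-g r) 0) (hg.neg.max measurable_const)
    (fun r => le_max_right _ _) (hi.neg_part)
  have key : ∀ r, g r = max (g r) 0 - max (-g r) 0 := by
    intro r
    rcases le_total 0 (g r) with h | h
    · rw [max_eq_left h, max_eq_right (by linarith)]; ring
    · rw [max_eq_right h, max_eq_left (by linarith)]; ring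
  have k1 : ∫ z in A, g ‖z‖ = (∫ z in A, max (g ‖z‖) 0) - ∫ z in A, max (-g ‖z‖) 0 := by
    rw [← integral_sub hi.pos_part hi.neg_part]
    congr 1
    ext z
    exact key _
  have k2 : ∫ r in Ioo (0 : ℝ) 1, g r * r * al A r =
      (∫ r in Ioo (0 : ℝ) 1, max (g r) 0 * r * al A r) -
        ∫ r in Ioo (0 : ℝ) 1, max (-g r) 0 * r * al A r := by
    rw [← integral_sub i1 i2]
    congr 1
    ext r
    rw [← sub_mul, ← sub_mul, ← key]
  rw [k1, k2, e1, e2]

lemma D1_meas : MeasurableSet D1 := measurableSet_ball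

lemma al_compl {A : Set ℂ} (hA : MeasurableSet A) (hA1 : A ⊆ D1) {r : ℝ}
    (hr : r ∈ Ioo (0 : ℝ) 1) : al (D1 \ A) r = 2 * π - al A r := by
  have hu : sl (D1 \ A) r = Ioo (-π) π \ sl A r := by
    ext θ
    have : pt r θ ∈ D1 := by
      rw [D1, mem_ball_zero_iff, pt_norm hr.1.le]
      exact hr.2
    simp only [sl, mem_ofPred_eq, Set.mem_sdiff]
    tauto
  have hs : sl A r ⊆ Ioo (-π) π := fun θ hθ => hθ.1
  rw [al_eq, al_eq, hu, measure_sdiff hs (sl_meas hA r).nullMeasurableSet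
    (vol_sl_lt_top A r).ne, ENNReal.toReal_sub_of_le (measure_mono hs) (by simp),
    Real.volume_Ioo, ENNReal.toReal_ofReal (by linarith [Real.pi_pos])]
  ring

theorem t_alc : S_alc := fun _ hA hA1 _ hr => al_compl hA hA1 hr

/-! ### `U` -/

lemma U_hasDeriv (b : ℕ) (r : ℝ) : HasDerivAt (U b) (r * (1 - r) ^ b) r := by
  have hb : ((b : ℝ) + 1) * (b + 2) ≠ 0 := by positivity
  have h1 : HasDerivAt (fun r : ℝ => (1 - r) ^ (b + 1)) (((b + 1 : ℕ) : ℝ) * (1 - r) ^ b * -1) r := by
    have := ((hasDerivAt_id r).const_sub 1).fun_pow (b + 1)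
    simpa using this
  have h2 : HasDerivAt (fun r : ℝ => 1 + ((b : ℝ) + 1) * r) ((b : ℝ) + 1) r := by
    simpa using ((hasDerivAt_id r).const_mul ((b : ℝ) + 1)).const_add 1
  have h3 := ((h1.mul h2).const_sub 1).div_const (((b : ℝ) + 1) * (b + 2))
  refine h3.congr_deriv ?_
  field_simp
  push_cast
  ring

lemma U_zero (b : ℕ) : U b 0 = 0 := by
  unfold U
  simp

lemma U_one (b : ℕ) : U b 1 = m0 b := by
  unfold U m0
  simp

lemma U_cont (b : ℕ) : Continuous (U b) :=
  continuous_iff_continuousAt.2 fun r => (U_hasDeriv b r).continuousAt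

lemma U_int (b : ℕ) (s t : ℝ) : ∫ r in s..t, r * (1 - r) ^ b = U b t - U b s := by
  apply intervalIntegral.integral_eq_sub_of_hasDerivAt (fun r _ => U_hasDeriv b r)
  apply Continuous.intervalIntegrable
  fun_prop

lemma U_mono {b : ℕ} {s t : ℝ} (hs : 0 ≤ s) (hst : s ≤ t) (ht : t ≤ 1) : U b s ≤ U b t := by
  have := U_int b s t
  have h2 : 0 ≤ ∫ r in s..t, r * (1 - r) ^ b := by
    apply intervalIntegral.integral_nonneg hst
    intro r hr
    exact mul_nonneg (hs.trans hr.1) (pow_nonneg (by linarith [hr.2]) _)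
  linarith

lemma U_lt {b : ℕ} {s t : ℝ} (hs : 0 ≤ s) (hst : s < t) (ht : t ≤ 1) : U b s < U b t := by
  have h1 := U_int b s t
  have h2 : 0 < ∫ r in s..t, r * (1 - r) ^ b := by
    apply intervalIntegral.intervalIntegral_pos_of_pos_on _ _ hst
    · apply Continuous.intervalIntegrable
      fun_prop
    · intro r hr
      exact mul_pos (by linarith [hr.1]) (pow_pos (by linarith [hr.2]) _)
  linarith

/-! ### the weighted mass -/

lemma wt_int {b : ℕ} : IntegrableOn (fun z : ℂ => (1 - ‖z‖) ^ b) D1 := by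
  have hc : Continuous (fun z : ℂ => (1 - ‖z‖) ^ b) := by fun_prop
  exact (hc.continuousOn.integrableOn_compact (isCompact_closedBall (0 : ℂ) 1)).mono_set
    ball_subset_closedBall

lemma wt_nonneg {b : ℕ} {z : ℂ} (hz : z ∈ D1) : 0 ≤ (1 - ‖z‖) ^ b := by
  rw [D1, mem_ball_zero_iff] at hz
  exact pow_nonneg (by linarith) _

lemma ms_pol (b : ℕ) {A : Set ℂ} (hA : MeasurableSet A) (hA1 : A ⊆ D1) :
    ms b A = ∫ r in Ioo (0 : ℝ) 1, (r * (1 - r) ^ b) * al A r := by
  have := pol_int hA hA1 (g := fun r => (1 - r) ^ b) (by fun_prop) (wt_int.mono_set hA1)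
  unfold ms
  rw [this]
  congr 1
  ext r
  ring

lemma ms_nonneg (b : ℕ) {A : Set ℂ} (hA : MeasurableSet A) (hA1 : A ⊆ D1) : 0 ≤ ms b A :=
  setIntegral_nonneg hA fun _ hz => wt_nonneg (hA1 hz)

lemma ms_mono (b : ℕ) {A B : Set ℂ} (hB : MeasurableSet B) (hB1 : B ⊆ D1)
    (h : A ⊆ B) : ms b A ≤ ms b B := by
  apply setIntegral_mono_set (wt_int.mono_set hB1)
  · filter_upwards [ae_restrict_mem hB] with z hz
    exact wt_nonneg (hB1 hz)
  · exact h.eventuallyLE

lemma ms_mono_ae (b : ℕ) {A B : Set ℂ} (hB : MeasurableSet B) (hB1 : B ⊆ D1)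
    (h : volume (A \ B) = 0) : ms b A ≤ ms b B := by
  apply setIntegral_mono_set (wt_int.mono_set hB1)
  · filter_upwards [ae_restrict_mem hB] with z hz
    exact wt_nonneg (hB1 hz)
  · exact ae_le_set.2 h

lemma ms_union (b : ℕ) {A B : Set ℂ} (hB : MeasurableSet B) (hA1 : A ⊆ D1)
    (hB1 : B ⊆ D1) (h : Disjoint A B) : ms b (A ∪ B) = ms b A + ms b B :=
  setIntegral_union h hB (wt_int.mono_set hA1) (wt_int.mono_set hB1)

lemma ms_inter_diff (b : ℕ) {A B : Set ℂ} (hB : MeasurableSet B)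
    (hA1 : A ⊆ D1) : ms b (A ∩ B) + ms b (A \ B) = ms b A :=
  integral_inter_add_sdiff hB (wt_int.mono_set hA1)

lemma ms_compl (b : ℕ) {A : Set ℂ} (hA : MeasurableSet A) (hA1 : A ⊆ D1) :
    ms b (D1 \ A) = ms b D1 - ms b A := by
  have := ms_inter_diff b (A := D1) (B := A) hA le_rfl
  rw [inter_eq_self_of_subset_right hA1] at this
  linarith

lemma al_ball {t : ℝ} {r : ℝ} (hr : 0 < r) : al (ball 0 t) r = if r < t then 2 * π else 0 := by
  by_cases h : r < t
  · rw [if_pos h]
    have : sl (ball 0 t) r = Ioo (-π) π := by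
      ext θ
      simp only [sl, mem_ofPred_eq, mem_ball_zero_iff, pt_norm hr.le, h, and_true]
    rw [al_eq, this, Real.volume_Ioo, ENNReal.toReal_ofReal (by linarith [Real.pi_pos])]
    ring
  · rw [if_neg h]
    have : sl (ball 0 t) r = ∅ := by
      ext θ
      simp only [sl, mem_ofPred_eq, mem_ball_zero_iff, pt_norm hr.le, h, and_false,
        mem_empty_iff_false]
    rw [al_eq, this]
    simp

lemma ball_sub_D1 {t : ℝ} (ht : t ≤ 1) : ball (0 : ℂ) t ⊆ D1 := ball_subset_ball ht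

lemma ms_ball (b : ℕ) {t : ℝ} (h0 : 0 ≤ t) (h1 : t ≤ 1) : ms b (ball 0 t) = 2 * π * U b t := by
  rw [ms_pol b measurableSet_ball (ball_sub_D1 h1)]
  have e1 : ∀ r ∈ Ioo (0 : ℝ) 1, (r * (1 - r) ^ b) * al (ball 0 t) r =
      (Ioo 0 t).indicator (fun r => (r * (1 - r) ^ b) * (2 * π)) r := by
    intro r hr
    rw [al_ball hr.1]
    by_cases h : r < t
    · rw [if_pos h, indicator_of_mem (show r ∈ Ioo 0 t from ⟨hr.1, h⟩)]
    · rw [if_neg h, indicator_of_notMem (fun h2 => h h2.2), mul_zero]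
  rw [setIntegral_congr_fun measurableSet_Ioo e1, setIntegral_indicator measurableSet_Ioo,
    show Ioo (0 : ℝ) 1 ∩ Ioo 0 t = Ioo 0 t from inter_eq_self_of_subset_right
      (Ioo_subset_Ioo_right h1), integral_mul_const, ← integral_Ioc_eq_integral_Ioo,
    ← intervalIntegral.integral_of_le h0, U_int, U_zero]
  ring

lemma ms_D1 (b : ℕ) : ms b D1 = 2 * π * m0 b := by
  have := ms_ball b zero_le_one le_rfl
  rw [U_one] at this
  exact this

theorem t_U : S_U := fun b => ⟨U_hasDeriv b, U_zero b, U_one b, ms_D1 b,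
  fun _ ht => ms_ball b ht.1 ht.2⟩

/-! ### Lebesgue points -/

lemma al_locInt {A : Set ℂ} (hA : MeasurableSet A) : LocallyIntegrable (al A) := by
  intro x
  refine ⟨ball x 1, ball_mem_nhds _ one_pos, ?_⟩
  refine Measure.integrableOn_of_bounded (M := 2 * π) ?_ (al_meas hA).aestronglyMeasurable
    (Eventually.of_forall fun r => ?_)
  · exact measure_ball_lt_top.ne
  · rw [Real.norm_of_nonneg (al_nonneg A r)]
    exact al_le A r

theorem t_leb : S_leb := by
  intro A hA _
  filter_upwards [LocallyIntegrable.ae_hasDerivAt_integral (al_locInt hA)] with r hr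
  have h := hr r
  rw [hasDerivAt_iff_tendsto_slope_zero] at h
  have h2 := h.mono_left (nhdsWithin_mono 0 (fun x (hx : (0 : ℝ) < x) => ne_of_gt hx :
    Ioi (0 : ℝ) ⊆ {0}ᶜ))
  refine h2.congr fun η => ?_
  simp

end Pool.Agent.Y290.MI
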