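import Pool.Agent.Y290.MI.Pol
import Pool.Agent.TH914.HU.Pol

/-! # Radial functions, cutoffs and fields -/

set_option autoImplicit false

open MeasureTheory Set Metric Filter Topology
open scoped ENNReal Real

noncomputable section

namespace Pool.Agent.Y290.MI

open Pool.Agent.TH304.MI

/-! ### the cutoff on the line -/

/-- the trapezoid -/
def trap (t η K r : ℝ) : ℝ := max 0 (min 1 (K * min (r - t) (t + η - r)))

lemma trap_cont (t η K : ℝ) : Continuous (trap t η K) := by
  unfold trap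
  fun_prop

lemma trap_nonneg (t η K r : ℝ) : 0 ≤ trap t η K r := le_max_left _ _

lemma trap_le (t η K r : ℝ) : trap t η K r ≤ 1 := max_le zero_le_one (min_le_left _ _)

lemma trap_left {t η K r : ℝ} (hK : 0 ≤ K) (h : r ≤ t) : trap t η K r = 0 := by
  unfold trap
  apply max_eq_left
  refine (min_le_right _ _).trans (mul_nonpos_of_nonneg_of_nonpos hK ?_)
  exact (min_le_left _ _).trans (by linarith)

lemma trap_right {t η K r : ℝ} (hK : 0 ≤ K) (h : t + η ≤ r) : trap t η K r = 0 := by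
  unfold trap
  apply max_eq_left
  refine (min_le_right _ _).trans (mul_nonpos_of_nonneg_of_nonpos hK ?_)
  exact (min_le_right _ _).trans (by linarith)

lemma trap_mid {t η a r : ℝ} (ha : 0 < a) (h1 : t + a ≤ r) (h2 : r ≤ t + η - a) :
    trap t η a⁻¹ r = 1 := by
  unfold trap
  have h3 : a ≤ min (r - t) (t + η - r) := le_min (by linarith) (by linarith)
  have h4 : 1 ≤ a⁻¹ * min (r - t) (t + η - r) := by
    calc (1 : ℝ) = a⁻¹ * a := by field_simp
      _ ≤ _ := mul_le_mul_of_nonneg_left h3 (by positivity)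
  rw [min_eq_left h4]
  simp

/-- A `C¹` function, `1` on `(-∞, t]`, `0` on `[t+η, ∞)`, decreasing, slope at most
`(1+η)/η`. -/
lemma exists_theta (t : ℝ) {η : ℝ} (hη : 0 < η) : ∃ θ : ℝ → ℝ, ContDiff ℝ 1 θ ∧
    (∀ r, r ≤ t → θ r = 1) ∧ (∀ r, t + η ≤ r → θ r = 0) ∧ (∀ r, 0 ≤ θ r ∧ θ r ≤ 1) ∧
    ∀ r, deriv θ r ≤ 0 ∧ -((1 + η) / η) ≤ deriv θ r ∧
      (¬ (t < r ∧ r < t + η) → deriv θ r = 0) := by
  set a : ℝ := η ^ 2 / (2 * (1 + η)) with ha
  have ha0 : 0 < a := by positivity
  have ha2 : 2 * a = η - η / (1 + η) := by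
    rw [ha]; field_simp; ring
  have hq : 0 < η / (1 + η) := by positivity
  set ψ : ℝ → ℝ := trap t η a⁻¹ with hψ
  have hK : 0 ≤ a⁻¹ := by positivity
  have hψc : Continuous ψ := trap_cont _ _ _
  have hint : ∀ x y : ℝ, IntervalIntegrable ψ volume x y := fun x y => hψc.intervalIntegrable _ _
  have hψ0 : ∀ r, 0 ≤ ψ r := fun r => trap_nonneg _ _ _ _
  set I : ℝ := ∫ s in t..(t + η), ψ s with hI
  have hIge : η / (1 + η) ≤ I := by
    have e1 : I = (∫ s in t..(t + a), ψ s) + ((∫ s in (t + a)..(t + η - a), ψ s) +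
        ∫ s in (t + η - a)..(t + η), ψ s) := by
      rw [intervalIntegral.integral_add_adjacent_intervals (hint _ _) (hint _ _),
        intervalIntegral.integral_add_adjacent_intervals (hint _ _) (hint _ _)]
    have e2 : ∫ s in (t + a)..(t + η - a), ψ s = η / (1 + η) := by
      have e3 : ∫ s in (t + a)..(t + η - a), ψ s = ∫ s in (t + a)..(t + η - a), (1 : ℝ) := by
        apply intervalIntegral.integral_congr
        intro s hs
        rw [uIcc_of_le (by linarith)] at hs
        exact trap_mid ha0 hs.1 hs.2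
      rw [e3, intervalIntegral.integral_const, smul_eq_mul, mul_one]
      linarith
    have e4 : 0 ≤ ∫ s in t..(t + a), ψ s :=
      intervalIntegral.integral_nonneg (by linarith) fun s _ => hψ0 s
    have e5 : 0 ≤ ∫ s in (t + η - a)..(t + η), ψ s :=
      intervalIntegral.integral_nonneg (by linarith) fun s _ => hψ0 s
    rw [e1, e2]
    linarith
  have hI0 : 0 < I := hq.trans_le hIge
  have hder : ∀ r, HasDerivAt (fun r => 1 - I⁻¹ * ∫ s in t..r, ψ s) (-(I⁻¹ * ψ r)) r := by
    intro r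
    have h1 := (hψc.integral_hasStrictDerivAt t r).hasDerivAt
    have h2 := (h1.const_mul I⁻¹).const_sub 1
    exact h2
  refine ⟨fun r => 1 - I⁻¹ * ∫ s in t..r, ψ s, ?_, ?_, ?_, ?_, ?_⟩
  · rw [contDiff_one_iff_deriv]
    refine ⟨fun r => (hder r).differentiableAt, ?_⟩
    have : deriv (fun r => 1 - I⁻¹ * ∫ s in t..r, ψ s) = fun r => -(I⁻¹ * ψ r) := by
      funext r
      exact (hder r).deriv
    rw [this]
    fun_prop
  · intro r hr
    have : ∫ s in t..r, ψ s = 0 := by
      rw [intervalIntegral.integral_symm, neg_eq_zero]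
      have e : ∫ s in r..t, ψ s = ∫ s in r..t, (0 : ℝ) := by
        apply intervalIntegral.integral_congr
        intro s hs
        rw [uIcc_of_le hr] at hs
        exact trap_left hK hs.2
      rw [e]
      simp
    simp only [this, mul_zero, sub_zero]
  · intro r hr
    have : ∫ s in t..r, ψ s = I := by
      rw [← intervalIntegral.integral_add_adjacent_intervals (hint t (t + η)) (hint (t + η) r)]
      have e : ∫ s in (t + η)..r, ψ s = ∫ s in (t + η)..r, (0 : ℝ) := by
        apply intervalIntegral.integral_congr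
        intro s hs
        rw [uIcc_of_le hr] at hs
        exact trap_right hK hs.1
      rw [e]
      simp [hI]
    simp only [this]
    rw [inv_mul_cancel₀ hI0.ne', sub_self]
  · intro r
    have h1 : 0 ≤ ∫ s in t..r, ψ s ∧ ∫ s in t..r, ψ s ≤ I := by
      rcases le_total r t with h | h
      · have : ∫ s in t..r, ψ s = 0 := by
          rw [intervalIntegral.integral_symm, neg_eq_zero]
          have e : ∫ s in r..t, ψ s = ∫ s in r..t, (0 : ℝ) := by
            apply intervalIntegral.integral_congr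
            intro s hs
            rw [uIcc_of_le h] at hs
            exact trap_left hK hs.2
          rw [e]
          simp
        rw [this]
        exact ⟨le_rfl, hI0.le⟩
      · refine ⟨intervalIntegral.integral_nonneg h fun s _ => hψ0 s, ?_⟩
        rcases le_total r (t + η) with h' | h'
        · have e1 := intervalIntegral.integral_add_adjacent_intervals (hint t r) (hint r (t + η))
          have e2 : 0 ≤ ∫ s in r..(t + η), ψ s :=
            intervalIntegral.integral_nonneg h' fun s _ => hψ0 s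
          rw [hI, ← e1]
          linarith
        · rw [← intervalIntegral.integral_add_adjacent_intervals (hint t (t + η)) (hint (t + η) r)]
          have e : ∫ s in (t + η)..r, ψ s = ∫ s in (t + η)..r, (0 : ℝ) := by
            apply intervalIntegral.integral_congr
            intro s hs
            rw [uIcc_of_le h'] at hs
            exact trap_right hK hs.1
          rw [e]
          simp [hI]
    constructor
    · have : I⁻¹ * ∫ s in t..r, ψ s ≤ 1 := by
        rw [inv_mul_le_iff₀ hI0, mul_one]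
        exact h1.2
      simp only
      linarith
    · have : 0 ≤ I⁻¹ * ∫ s in t..r, ψ s := mul_nonneg (by positivity) h1.1
      simp only
      linarith
  · intro r
    rw [(hder r).deriv]
    have h0 : 0 ≤ I⁻¹ * ψ r := mul_nonneg (by positivity) (hψ0 r)
    refine ⟨by linarith, ?_, ?_⟩
    · apply neg_le_neg
      calc I⁻¹ * ψ r ≤ I⁻¹ * 1 := mul_le_mul_of_nonneg_left (trap_le _ _ _ _) (by positivity)
        _ = I⁻¹ := mul_one _
        _ ≤ (η / (1 + η))⁻¹ := inv_anti₀ hq hIge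
        _ = (1 + η) / η := by rw [inv_div]
    · intro h
      rw [not_and_or, not_lt, not_lt] at h
      have : ψ r = 0 := by
        rcases h with h | h
        · exact trap_left hK h
        · exact trap_right hK h
      rw [this]
      simp

/-- a slope bound -/
lemma theta_abs {θ : ℝ → ℝ} {η r : ℝ} (h : deriv θ r ≤ 0 ∧ -((1 + η) / η) ≤ deriv θ r ∧ True) :
    |deriv θ r| ≤ (1 + η) / η := by
  rw [abs_of_nonpos h.1]
  linarith [h.2.1]

/-! ### radial functions -/

lemma norm_hasFDerivAt {z : ℂ} (hz : z ≠ 0) :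
    HasFDerivAt (fun z : ℂ => ‖z‖) (‖z‖⁻¹ • innerSL ℝ z) z := by
  have h0 : ‖z‖ ≠ 0 := norm_ne_zero_iff.2 hz
  have h1 : HasFDerivAt (fun z : ℂ => ‖z‖ ^ 2) (2 • (innerSL ℝ) z) z := by
    have := (hasFDerivAt_id (𝕜 := ℝ) z).norm_sq
    simpa using this
  have h2 := h1.sqrt (by positivity)
  have h3 : (fun z : ℂ => √(‖z‖ ^ 2)) = fun z => ‖z‖ := by
    funext z
    exact Real.sqrt_sq (norm_nonneg z)
  rw [h3, Real.sqrt_sq (norm_nonneg z)] at h2
  refine h2.congr_fderiv ?_
  ext v
  simp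
  field_simp

lemma inner_eq (z v : ℂ) : (innerSL ℝ z) v = z.re * v.re + z.im * v.im := by
  simp [innerSL_apply_apply, Complex.inner, Complex.mul_re]
  ring

/-- a `C¹` function compactly supported in `(0,1)` -/
structure Cc (k : ℝ → ℝ) : Prop where
  cd : ContDiff ℝ 1 k
  cs : HasCompactSupport k
  sub : tsupport k ⊆ Ioo (0 : ℝ) 1

lemma Cc.bounds {k : ℝ → ℝ} (h : Cc k) : ∃ δ : ℝ, 0 < δ ∧ δ < 1 ∧ (∀ r, r ≤ δ → k r = 0) ∧
    ∀ r, 1 - δ ≤ r → k r = 0 := by
  rcases (tsupport k).eq_empty_or_nonempty with h0 | hne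
  · refine ⟨1 / 2, by norm_num, by norm_num, fun r _ => ?_, fun r _ => ?_⟩ <;>
    · apply image_eq_zero_of_notMem_tsupport
      rw [h0]
      exact notMem_empty _
  · have hK : IsCompact (tsupport k) := h.cs
    obtain ⟨x, hx, hmin⟩ := hK.exists_isMinOn hne continuousOn_id
    obtain ⟨y, hy, hmax⟩ := hK.exists_isMaxOn hne continuousOn_id
    have hx1 := h.sub hx
    have hy1 := h.sub hy
    refine ⟨min (x / 2) ((1 - y) / 2), ?_, ?_, fun r hr => ?_, fun r hr => ?_⟩
    · exact lt_min (by linarith [hx1.1]) (by linarith [hy1.2])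
    · exact (min_le_left _ _).trans_lt (by linarith [hx1.2])
    · apply image_eq_zero_of_notMem_tsupport
      intro hm
      have h1 : x ≤ r := hmin hm
      have h2 := hr.trans (min_le_left _ _)
      linarith [hx1.1]
    · apply image_eq_zero_of_notMem_tsupport
      intro hm
      have h1 : r ≤ y := hmax hm
      have h2 := min_le_right (x / 2) ((1 - y) / 2)
      linarith [hy1.2]

lemma Cc.zero_left {k : ℝ → ℝ} (h : Cc k) {r : ℝ} (hr : r ≤ 0) : k r = 0 := by
  obtain ⟨δ, h1, _, h3, _⟩ := h.bounds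
  exact h3 r (by linarith)

lemma Cc.zero_right {k : ℝ → ℝ} (h : Cc k) {r : ℝ} (hr : 1 ≤ r) : k r = 0 := by
  obtain ⟨δ, h1, _, _, h4⟩ := h.bounds
  exact h4 r (by linarith)

lemma Cc.of_bounds {k : ℝ → ℝ} (h : ContDiff ℝ 1 k) {δ : ℝ} (hδ : 0 < δ)
    (h0 : ∀ r, r ≤ δ → k r = 0) (h1 : ∀ r, 1 - δ ≤ r → k r = 0) : Cc k := by
  have hs : tsupport k ⊆ Icc δ (1 - δ) := by
    refine closure_minimal (fun r hr => ?_) isClosed_Icc
    by_contra hc
    rw [mem_Icc, not_and_or, not_le, not_le] at hc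
    rcases hc with hc | hc
    · exact hr (h0 r hc.le)
    · exact hr (h1 r hc.le)
  exact ⟨h, isCompact_Icc.of_isClosed_subset (isClosed_tsupport _) hs,
    hs.trans fun r hr => ⟨by linarith [hr.1], by linarith [hr.2]⟩⟩

/-- dividing by a power of `r` -/
lemma Cc.div_pow {k : ℝ → ℝ} (h : Cc k) (m : ℕ) : Cc (fun r => k r / r ^ m) := by
  obtain ⟨δ, h1, h2, h3, h4⟩ := h.bounds
  refine Cc.of_bounds ?_ h1 (fun r hr => by simp [h3 r hr]) (fun r hr => by simp [h4 r hr])
  rw [contDiff_iff_contDiffAt]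
  intro r
  by_cases hr : r < δ
  · have : (fun r => k r / r ^ m) =ᶠ[𝓝 r] fun _ => (0 : ℝ) := by
      filter_upwards [gt_mem_nhds hr] with s hs
      rw [h3 s hs.le]
      simp
    exact contDiffAt_const.congr_of_eventuallyEq this
  · have : r ≠ 0 := by
      rw [not_lt] at hr
      linarith
    exact h.cd.contDiffAt.div (contDiffAt_id.pow m) (pow_ne_zero _ this)

lemma Cc.deriv_zero_left {k : ℝ → ℝ} (h : Cc k) {r : ℝ} (hr : r ≤ 0) : deriv k r = 0 := by
  obtain ⟨δ, h1, h2, h3, h4⟩ := h.bounds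
  have : k =ᶠ[𝓝 r] fun _ => (0 : ℝ) := by
    filter_upwards [gt_mem_nhds (show r < δ by linarith)] with s hs
    exact h3 s hs.le
  rw [this.deriv_eq]
  simp

lemma Cc.deriv_zero_right {k : ℝ → ℝ} (h : Cc k) {r : ℝ} (hr : 1 ≤ r) : deriv k r = 0 := by
  obtain ⟨δ, h1, h2, h3, h4⟩ := h.bounds
  have : k =ᶠ[𝓝 r] fun _ => (0 : ℝ) := by
    filter_upwards [lt_mem_nhds (show 1 - δ < r by linarith)] with s hs
    exact h4 s hs.le
  rw [this.deriv_eq]
  simp

/-- radial functions are `C¹` -/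
lemma rad_cd {k : ℝ → ℝ} (h : Cc k) : ContDiff ℝ 1 (fun z : ℂ => k ‖z‖) := by
  obtain ⟨δ, h1, h2, h3, h4⟩ := h.bounds
  rw [contDiff_iff_contDiffAt]
  intro z
  by_cases hz : z = 0
  · subst hz
    have : (fun y : ℂ => k ‖y‖) =ᶠ[𝓝 0] fun _ => (0 : ℝ) := by
      filter_upwards [ball_mem_nhds (0 : ℂ) h1] with y hy
      rw [mem_ball_zero_iff] at hy
      exact h3 _ hy.le
    exact contDiffAt_const.congr_of_eventuallyEq this
  · exact h.cd.contDiffAt.comp z (contDiffAt_norm ℝ hz)

lemma rad_hasFDerivAt {k : ℝ → ℝ} (h : Cc k) (z : ℂ) :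
    HasFDerivAt (fun z : ℂ => k ‖z‖) ((deriv k ‖z‖ / ‖z‖) • innerSL ℝ z) z := by
  obtain ⟨δ, h1, h2, h3, h4⟩ := h.bounds
  by_cases hz : z = 0
  · subst hz
    have : (fun y : ℂ => k ‖y‖) =ᶠ[𝓝 0] fun _ => (0 : ℝ) := by
      filter_upwards [ball_mem_nhds (0 : ℂ) h1] with y hy
      rw [mem_ball_zero_iff] at hy
      exact h3 _ hy.le
    have h5 : HasFDerivAt (fun _ : ℂ => (0 : ℝ)) (0 : ℂ →L[ℝ] ℝ) (0 : ℂ) := hasFDerivAt_const _ _
    refine (h5.congr_of_eventuallyEq this).congr_fderiv ?_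
    simp
  · have h5 := (h.cd.differentiable (by norm_num) ‖z‖).hasDerivAt.comp_hasFDerivAt z
      (norm_hasFDerivAt hz)
    refine h5.congr_fderiv ?_
    rw [smul_smul, div_eq_mul_inv]

/-- the support of a radial function -/
lemma rad_tsupport {k : ℝ → ℝ} (h : Cc k) {F : Type*} [NormedAddCommGroup F] {Z : ℂ → F}
    (hZ : ∀ z, k ‖z‖ = 0 → Z z = 0) :
    HasCompactSupport Z ∧ tsupport Z ⊆ D1 \ {0} := by
  obtain ⟨δ, h1, h2, h3, h4⟩ := h.bounds
  have hs : tsupport Z ⊆ {z | δ ≤ ‖z‖ ∧ ‖z‖ ≤ 1 - δ} := by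
    refine closure_minimal (fun z hz => ?_) ?_
    · by_contra hc
      rw [mem_ofPred_eq, not_and_or, not_le, not_le] at hc
      rcases hc with hc | hc
      · exact hz (hZ z (h3 _ hc.le))
      · exact hz (hZ z (h4 _ hc.le))
    · exact (isClosed_le continuous_const continuous_norm).inter
        (isClosed_le continuous_norm continuous_const)
  refine ⟨?_, fun z hz => ?_⟩
  · refine (isCompact_closedBall (0 : ℂ) 1).of_isClosed_subset (isClosed_tsupport _) ?_
    intro z hz
    rw [mem_closedBall_zero_iff]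
    have := (hs hz).2
    linarith
  · have := hs hz
    refine ⟨?_, ?_⟩
    · rw [D1, mem_ball_zero_iff]
      linarith [this.2]
    · intro h0
      rw [mem_singleton_iff] at h0
      have h5 := this.1
      rw [h0, norm_zero] at h5
      linarith

/-! ### divergences -/

lemma dv2_of {Z : ℂ → ℂ} {L : ℂ →L[ℝ] ℂ} {z : ℂ} (h : HasFDerivAt Z L z) :
    dv2 Z z = (L 1).re + (L Complex.I).im := by
  unfold dv2
  rw [h.fderiv]

lemma dv2_cont {Y : ℂ → ℂ} (hY : ContDiff ℝ 1 Y) : Continuous (dv2 Y) := by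
  have h := hY.continuous_fderiv (by norm_num)
  unfold dv2
  exact (Complex.continuous_re.comp (h.clm_apply continuous_const)).add
    (Complex.continuous_im.comp (h.clm_apply continuous_const))

lemma dv2_supp {Y : ℂ → ℂ} (hc : HasCompactSupport Y) : HasCompactSupport (dv2 Y) := by
  refine HasCompactSupport.intro hc fun z hz => ?_
  have h1 : fderiv ℝ Y z = 0 := by
    by_contra h
    exact hz (support_fderiv_subset ℝ h)
  unfold dv2
  rw [h1]
  simp

lemma dv2_int {Y : ℂ → ℂ} (hY : ContDiff ℝ 1 Y) (hc : HasCompactSupport Y) :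
    Integrable (dv2 Y) := (dv2_cont hY).integrable_of_hasCompactSupport (dv2_supp hc)

lemma dv2_add {Y Z : ℂ → ℂ} (hY : ContDiff ℝ 1 Y) (hZ : ContDiff ℝ 1 Z) (z : ℂ) :
    dv2 (fun z => Y z + Z z) z = dv2 Y z + dv2 Z z := by
  have h1 := (hY.differentiable (by norm_num) z).hasFDerivAt
  have h2 := (hZ.differentiable (by norm_num) z).hasFDerivAt
  refine (dv2_of (h1.add h2)).trans ?_
  unfold dv2
  simp only [_root_.add_apply, Complex.add_re, Complex.add_im]
  ring

/-- the divergence of a product -/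
lemma dv2_smul {χ : ℂ → ℝ} {Y : ℂ → ℂ} (hχ : ContDiff ℝ 1 χ) (hY : ContDiff ℝ 1 Y) (z : ℂ) :
    dv2 (fun z => χ z • Y z) z = χ z * dv2 Y z + fderiv ℝ χ z (Y z) := by
  have h1 := (hχ.differentiable (by norm_num) z).hasFDerivAt
  have h2 := (hY.differentiable (by norm_num) z).hasFDerivAt
  have e : Y z = (Y z).re • (1 : ℂ) + (Y z).im • Complex.I := by
    apply Complex.ext <;> simp
  have e2 : fderiv ℝ χ z (Y z) = (Y z).re * fderiv ℝ χ z 1 +
      (Y z).im * fderiv ℝ χ z Complex.I := by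
    conv_lhs => rw [e]
    rw [map_add, map_smul, map_smul, smul_eq_mul, smul_eq_mul]
  refine (dv2_of (h1.smul h2)).trans ?_
  rw [e2]
  unfold dv2
  simp only [_root_.add_apply, _root_.smul_apply, ContinuousLinearMap.smulRight_apply,
    Complex.add_re, Complex.add_im, Complex.real_smul, Complex.mul_re, Complex.mul_im,
    Complex.ofReal_re, Complex.ofReal_im]
  ring

lemma dv2_id (z : ℂ) : dv2 (fun z => z) z = 2 := by
  refine (dv2_of (hasFDerivAt_id (𝕜 := ℝ) z)).trans ?_
  simp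
  norm_num

lemma dv2_mulI (z : ℂ) : dv2 (fun z => z * Complex.I) z = 0 := by
  refine (dv2_of ((hasFDerivAt_id (𝕜 := ℝ) z).mul_const Complex.I)).trans ?_
  simp

/-- the basic radial field -/
def rf (N : ℝ → ℝ) (z : ℂ) : ℂ := (N ‖z‖ / ‖z‖ ^ 2) • z

lemma rf_cd {N : ℝ → ℝ} (h : Cc N) : ContDiff ℝ 1 (rf N) :=
  (rad_cd (h.div_pow 2)).smul contDiff_id

lemma rf_supp {N : ℝ → ℝ} (h : Cc N) : HasCompactSupport (rf N) ∧ tsupport (rf N) ⊆ D1 \ {0} := by
  apply rad_tsupport h
  intro z hz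
  unfold rf
  rw [hz]
  simp

lemma rf_norm (N : ℝ → ℝ) (z : ℂ) : ‖rf N z‖ = |N ‖z‖| / ‖z‖ := by
  unfold rf
  rw [norm_smul, Real.norm_eq_abs, abs_div, abs_of_nonneg (by positivity : 0 ≤ ‖z‖ ^ 2)]
  by_cases h : ‖z‖ = 0
  · simp [h]
  · field_simp

lemma deriv_div_sq {N : ℝ → ℝ} (h : Cc N) {r : ℝ} (hr : r ≠ 0) :
    deriv (fun r => N r / r ^ 2) r = deriv N r / r ^ 2 - 2 * N r / r ^ 3 := by
  have h1 := (h.cd.differentiable (by norm_num) r).hasDerivAt
  have h2 := h1.fun_div ((hasDerivAt_id r).fun_pow 2) (pow_ne_zero 2 hr)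
  simp only [id] at h2
  rw [h2.deriv]
  field_simp
  ring

lemma rf_dv2 {N : ℝ → ℝ} (h : Cc N) (z : ℂ) : dv2 (rf N) z = deriv N ‖z‖ / ‖z‖ := by
  refine (dv2_smul (rad_cd (h.div_pow 2)) contDiff_id z).trans ?_
  rw [(rad_hasFDerivAt (h.div_pow 2) z).fderiv]
  have e2 : dv2 id z = 2 := dv2_id z
  by_cases hz : z = 0
  · subst hz
    simp [h.zero_left le_rfl, h.deriv_zero_left le_rfl]
  · have h0 : ‖z‖ ≠ 0 := norm_ne_zero_iff.2 hz
    rw [deriv_div_sq h h0, _root_.smul_apply, inner_eq, e2]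
    have h5 : z.re * z.re + z.im * z.im = ‖z‖ ^ 2 := by
      rw [Complex.sq_norm, Complex.normSq_apply]
    simp only [id, smul_eq_mul]
    rw [h5]
    field_simp
    ring

theorem t_rad : S_rad := by
  intro N h1 h2 h3
  have h : Cc N := ⟨h1, h2, h3⟩
  have e : (fun z : ℂ => ((N ‖z‖ / ‖z‖ ^ 2 : ℝ) : ℂ) * z) = rf N := by
    funext z
    unfold rf
    rw [Complex.real_smul]
  rw [e]
  refine ⟨rf_cd h, (rf_supp h).1, (rf_supp h).2, fun z => ?_, rf_dv2 h⟩
  rw [← Complex.real_smul]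
  exact rf_norm N z

/-- the integral of the divergence of a compactly supported field is zero -/
lemma dv2_zero_int {Y : ℂ → ℂ} (hY : ContDiff ℝ 1 Y) (hc : HasCompactSupport Y) :
    ∫ z, dv2 Y z = 0 := by
  obtain ⟨R, hR⟩ : ∃ R : ℝ, tsupport Y ⊆ closedBall 0 R := hc.isBounded.subset_closedBall 0
  have h0 : ∀ z : ℂ, R < ‖z‖ → Y z = 0 := by
    intro z hz
    apply image_eq_zero_of_notMem_tsupport
    intro h
    have := hR h
    rw [mem_closedBall_zero_iff] at this
    linarith
  have hd0 : ∀ z : ℂ, R < ‖z‖ → dv2 Y z = 0 := by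
    intro z hz
    have h1 : fderiv ℝ Y z = 0 := by
      by_contra h
      have h3 := hR (support_fderiv_subset ℝ (f := Y) h)
      rw [mem_closedBall_zero_iff] at h3
      linarith
    unfold dv2
    rw [h1]
    simp
  have h1 := Pool.Agent.TH914.HU.flux hY 0 (r := |R| + 1) (by positivity)
  have h2 : ∀ θ : ℝ, Y (Pool.Agent.TH914.HU.pt 0 (|R| + 1) θ) = 0 := by
    intro θ
    apply h0
    unfold Pool.Agent.TH914.HU.pt
    rw [zero_add, norm_mul, Pool.Agent.TH914.HU.ee_norm, mul_one, Complex.norm_real,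
      Real.norm_of_nonneg (by positivity)]
    linarith [le_abs_self R]
  simp only [h2, Complex.zero_re, Complex.zero_im, zero_mul, add_zero, mul_zero,
    intervalIntegral.integral_zero] at h1
  rw [← h1, ← integral_indicator measurableSet_ball]
  congr 1
  ext z
  by_cases hz : z ∈ ball (0 : ℂ) (|R| + 1)
  · rw [indicator_of_mem hz]
  · rw [indicator_of_notMem hz]
    apply hd0
    rw [mem_ball_zero_iff, not_lt] at hz
    linarith [le_abs_self R]

end Pool.Agent.Y290.MI
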