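import Pool.Agent.Y290.MI.Amb

/-! # The trapping passes to the limit -/

set_option autoImplicit false

open MeasureTheory Set Metric Filter Topology
open scoped ENNReal Real

noncomputable section

namespace Pool.Agent.Y290.MI

open Pool.Agent.TH304.MI

theorem t_trl : S_trl := by
  intro b c hc E K A hEm hEs hA hA1 hlim hKo hKs hKt hKv hKE hKE'
  obtain ⟨go, gc, gb, g0, gs, gt⟩ := Pool.Agent.TH73.MI.t_geo b
  have hfin : ∀ G : Set (PP b), G ⊆ Om b → volume G ≠ ∞ := fun G hG =>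
    (gb.subset hG).measure_lt_top.ne
  -- a subsequence with summable errors
  obtain ⟨φ, hφ, hφs⟩ : ∃ φ : ℕ → ℕ, StrictMono φ ∧
      ∀ n, volume (symmDiff (E (φ n)) (cyl b A)) ≤ (2⁻¹ : ℝ≥0∞) ^ n := by
    refine extraction_forall_of_eventually (P := fun n k =>
      volume (symmDiff (E k) (cyl b A)) ≤ (2⁻¹ : ℝ≥0∞) ^ n) fun n => ?_
    have hpos : (0 : ℝ≥0∞) < (2⁻¹ : ℝ≥0∞) ^ n := ENNReal.pow_pos (by norm_num) n
    exact (hlim.eventually (gt_mem_nhds hpos)).mono fun k hk => hk.le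
  have hsum : ∑' n, volume (symmDiff (E (φ n)) (cyl b A)) ≠ ∞ := by
    refine ne_top_of_le_ne_top ?_ (ENNReal.tsum_le_tsum hφs)
    rw [ENNReal.tsum_geometric]
    simp
  have N1 : ∀ᵐ p : PP b, ∀ᶠ n in atTop, p ∉ symmDiff (E (φ n)) (cyl b A) :=
    ae_eventually_notMem hsum
  have N2 : ∀ᵐ p : PP b, ∀ n, p ∉ K (φ n) \ E (φ n) := by
    rw [ae_all_iff]
    exact fun n => measure_eq_zero_iff_ae_notMem.1 (hKE (φ n))
  have N3 : ∀ᵐ p : PP b, ∀ n, p ∉ {p | -p ∈ K (φ n)} ∩ E (φ n) := by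
    rw [ae_all_iff]
    exact fun n => measure_eq_zero_iff_ae_notMem.1 (hKE' (φ n))
  have hneg : Measure.QuasiMeasurePreserving (fun p : PP b => -p) volume volume :=
    (Measure.measurePreserving_neg (volume : Measure (PP b))).quasiMeasurePreserving
  -- the limsup
  set W : ℕ → Set (PP b) := fun n => ⋃ k ≥ n, K (φ k) with hW
  set Ki : Set (PP b) := ⋂ n, W n with hKi
  have hWo : ∀ n, IsOpen (W n) := fun n => isOpen_biUnion fun k _ => hKo (φ k)
  have hWs : ∀ n, W n ⊆ Om b := fun n => iUnion₂_subset fun k _ => hKs (φ k)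
  have hWa : Antitone W := by
    intro m n hmn p hp
    rw [hW] at hp ⊢
    simp only [mem_iUnion] at hp ⊢
    obtain ⟨k, hk, hp⟩ := hp
    exact ⟨k, le_trans hmn hk, hp⟩
  have hKim : MeasurableSet Ki := MeasurableSet.iInter fun n => (hWo n).measurableSet
  have hmem : ∀ p, p ∈ Ki ↔ ∃ᶠ k in atTop, p ∈ K (φ k) := by
    intro p
    rw [frequently_atTop]
    simp only [hKi, hW, mem_iInter, mem_iUnion]
    constructor
    · intro h n
      obtain ⟨k, hk, hp⟩ := h n
      exact ⟨k, hk, hp⟩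
    · intro h n
      obtain ⟨k, hk, hp⟩ := h n
      exact ⟨k, hk, hp⟩
  have hKiv : ENNReal.ofReal c * volume (Om b) ≤ volume Ki := by
    have h1 := tendsto_measure_iInter_atTop (μ := (volume : Measure (PP b)))
      (fun n => (hWo n).measurableSet.nullMeasurableSet) hWa ⟨0, hfin _ (hWs 0)⟩
    refine ge_of_tendsto' h1 fun n => ?_
    refine (hKv (φ n)).trans (measure_mono ?_)
    intro p hp
    rw [hW]
    simp only [mem_iUnion]
    exact ⟨n, le_rfl, hp⟩
  have hKis : Ki ⊆ Om b := fun p hp => hWs 0 (mem_iInter.1 hp 0)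
  have hKit : ∀ p ∈ Ki, ∀ t ∈ Ioo (0 : ℝ) 1, t • p ∈ Ki := by
    intro p hp t ht
    rw [hmem] at hp ⊢
    exact hp.mono fun k hk => hKt (φ k) p hk t ht
  -- almost everywhere properties
  set R : Set (PP b) := {p | p ∈ Ki → (xc p ∈ A ∧ -xc p ∉ A)} with hR
  have hxm : Measurable (xc : PP b → ℂ) := Pool.Agent.TH340.HU.continuous_xc.measurable
  have hRm : MeasurableSet R := by
    have : R = Kiᶜ ∪ ((xc ⁻¹' A) ∩ (fun p => -xc p) ⁻¹' Aᶜ) := by
      ext p
      simp only [hR, mem_ofPred_eq, mem_union, mem_compl_iff, mem_inter_iff, mem_preimage]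
      tauto
    rw [this]
    exact hKim.compl.union ((hxm hA).inter (hxm.neg hA.compl))
  have hRae : ∀ᵐ p : PP b, p ∈ R := by
    filter_upwards [N1, N2, hneg.ae N1, hneg.ae N3] with p h1 h2 h3 h4 hp
    rw [hmem] at hp
    constructor
    · obtain ⟨n, hn1, hn2⟩ := (hp.and_eventually h1).exists
      have h5 : p ∈ E (φ n) := by
        by_contra hc
        exact h2 n ⟨hn1, hc⟩
      by_contra hc
      exact hn2 (Or.inl ⟨h5, fun h6 => hc h6.2⟩)
    · obtain ⟨n, hn1, hn2⟩ := (hp.and_eventually h3).exists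
      have h5 : -p ∉ E (φ n) := by
        intro hc
        refine h4 n ⟨?_, hc⟩
        show -(-p) ∈ K (φ n)
        rwa [neg_neg]
      intro hc
      refine hn2 (Or.inr ⟨⟨gs p (hKs _ hn1), ?_⟩, h5⟩)
      rw [Pool.Agent.TH73.MI.xc_neg]
      exact hc
  -- scaling
  have hsc : ∀ t : ℝ, t ≠ 0 → ∀ᵐ p : PP b, t • p ∈ R := by
    intro t ht
    have h1 : volume ((fun p : PP b => t • p) ⁻¹' Rᶜ) = 0 := by
      rw [Measure.addHaar_preimage_smul _ ht]
      have h2 : volume Rᶜ = 0 := hRae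
      rw [h2, mul_zero]
    exact h1
  have hFub : ∀ᵐ p : PP b, ∀ᵐ t ∂(volume.restrict (Ioo (0 : ℝ) 1)), t • p ∈ R := by
    have hm : MeasurableSet {q : PP b × ℝ | q.2 • q.1 ∈ R} := by
      have h1 : Continuous (fun q : PP b × ℝ => q.2 • q.1) := by fun_prop
      exact h1.measurable hRm
    rw [Measure.ae_ae_comm (μ := (volume : Measure (PP b)))
      (ν := volume.restrict (Ioo (0 : ℝ) 1)) hm]
    filter_upwards [ae_restrict_mem measurableSet_Ioo] with t ht
    exact hsc t ht.1.ne'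
  have hsub : ∀ᵐ p : PP b, p ∈ Ki → p ∈ cyl b (XX A) := by
    filter_upwards [hFub] with p hp hpK
    refine ⟨hKis hpK, ?_, ?_⟩
    · exact mem_ball_zero_iff.2 (hKis hpK).1
    · filter_upwards [hp, ae_restrict_mem measurableSet_Ioo] with t ht ht1
      have h1 := ht (hKit p hpK t ht1)
      rw [Pool.Agent.TH73.MI.xc_smul] at h1
      exact h1
  have hle : volume Ki ≤ volume (cyl b (XX A)) := measure_mono_ae hsub
  have hX := XX_meas hA
  rw [Pool.Agent.TH73.MI.t_vol b (XX A) hX (XX_sub A)] at hle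
  have h5 := hKiv.trans hle
  rw [vol_Om, ← ENNReal.ofReal_mul hc.le] at h5
  have h6 : 0 ≤ ms b (XX A) := ms_nonneg b hX (XX_sub A)
  rw [ENNReal.ofReal_le_ofReal_iff (by positivity)] at h5
  have hp : (0 : ℝ) < 2 ^ b := by positivity
  have h7 : 2 ^ b * (c * ms b D1) ≤ 2 ^ b * ms b (XX A) := by linarith
  exact le_of_mul_le_mul_left h7 hp

end Pool.Agent.Y290.MI
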