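import Pool.Agent.Y290.MI.Rad
import Pool.Agent.Y290.MI.Circ
import Pool.Agent.TH742.HU.C2

/-! # Radial plus tangential fields -/

set_option autoImplicit false

open MeasureTheory Set Metric Filter Topology
open scoped ENNReal Real

noncomputable section

namespace Pool.Agent.Y290.MI

open Pool.Agent.TH304.MI

/-! ### rotations -/

/-- rotation by the angle `τ` -/
def rot (τ : ℝ) (z : ℂ) : ℂ := Complex.exp (τ * Complex.I) * z

lemma rot_norm (τ : ℝ) (z : ℂ) : ‖rot τ z‖ = ‖z‖ := by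
  unfold rot
  rw [norm_mul, Complex.norm_exp_ofReal_mul_I, one_mul]

lemma rot_rot (a b : ℝ) (z : ℂ) : rot a (rot b z) = rot (a + b) z := by
  unfold rot
  rw [← mul_assoc, ← Complex.exp_add]
  push_cast
  ring_nf

lemma rot_zero (z : ℂ) : rot 0 z = z := by
  unfold rot
  simp

lemma rot_eq (τ : ℝ) : rot τ = ⇑(rotation (Circle.exp τ)) := by
  funext z
  rw [rotation_apply, Circle.coe_exp]
  rfl

lemma rot_mp (τ : ℝ) : MeasurePreserving (rot τ) volume volume := by
  rw [rot_eq]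
  exact (rotation (Circle.exp τ)).measurePreserving

lemma rot_me (τ : ℝ) : MeasurableEmbedding (rot τ) := by
  rw [rot_eq]
  exact (rotation (Circle.exp τ)).toHomeomorph.measurableEmbedding

lemma rot_cont : Continuous fun p : ℝ × ℂ => rot p.1 p.2 := by
  unfold rot
  fun_prop

lemma rot_pt (τ r θ : ℝ) : rot τ (pt r θ) = pt r (θ + τ) := by
  unfold rot pt
  push_cast
  rw [add_mul, Complex.exp_add]
  ring

/-! ### the tangential field -/

/-- the angular derivative of `σ` -/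
def ad (σ : ℂ → ℝ) (z : ℂ) : ℝ := fderiv ℝ σ z (z * Complex.I)

lemma ad_cont {σ : ℂ → ℝ} (hσ : ContDiff ℝ 1 σ) : Continuous (ad σ) := by
  unfold ad
  exact (hσ.continuous_fderiv (by norm_num)).clm_apply (by fun_prop)

lemma rot_hasDeriv (τ : ℝ) (z : ℂ) :
    HasDerivAt (fun τ : ℝ => rot (-τ) z) (-(rot (-τ) z * Complex.I)) τ := by
  unfold rot
  have h1 : HasDerivAt (fun τ : ℝ => (-τ : ℝ) * Complex.I) (-Complex.I) τ := by
    have := ((hasDerivAt_id τ).neg.ofReal_comp).mul_const Complex.I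
    simpa using this
  have h2 := h1.cexp.mul_const z
  refine h2.congr_deriv ?_
  ring

lemma ad_deriv {σ : ℂ → ℝ} (hσ : ContDiff ℝ 1 σ) (τ : ℝ) (z : ℂ) :
    HasDerivAt (fun τ : ℝ => σ (rot (-τ) z)) (-ad σ (rot (-τ) z)) τ := by
  have h := (hσ.differentiable (by norm_num) (rot (-τ) z)).hasFDerivAt.comp_hasDerivAt τ
    (rot_hasDeriv τ z)
  rw [map_neg] at h
  exact h

/-- the field -/
def tf (N k : ℝ → ℝ) (σ : ℂ → ℝ) (τ : ℝ) (z : ℂ) : ℂ :=
  rf N z + (k ‖z‖ * σ (rot (-τ) z)) • (z * Complex.I)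

lemma rot_cd (τ : ℝ) : ContDiff ℝ 1 (rot τ) := contDiff_const.mul contDiff_id

lemma tf_cd {N k : ℝ → ℝ} (hN : Cc N) (hk : Cc k) {σ : ℂ → ℝ} (hσ : ContDiff ℝ 1 σ) (τ : ℝ) :
    ContDiff ℝ 1 (tf N k σ τ) := by
  have h1 : ContDiff ℝ 1 (fun z => k ‖z‖ * σ (rot (-τ) z)) :=
    (rad_cd hk).mul (hσ.comp (rot_cd _))
  exact (rf_cd hN).add (h1.smul (contDiff_id.mul contDiff_const))

lemma tf_supp {N k : ℝ → ℝ} (hN : Cc N) (hk : Cc k) (σ : ℂ → ℝ) (τ : ℝ) :
    HasCompactSupport (tf N k σ τ) ∧ tsupport (tf N k σ τ) ⊆ D1 \ {0} := by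
  have h1 := rf_supp hN
  have h2 := rad_tsupport hk (Z := fun z => (k ‖z‖ * σ (rot (-τ) z)) • (z * Complex.I)) (by
    intro z hz
    simp only [hz, zero_mul, zero_smul])
  refine ⟨h1.1.add h2.1, fun z hz => ?_⟩
  by_cases k1 : z ∈ tsupport (rf N)
  · exact h1.2 k1
  · by_cases k2 : z ∈ tsupport (fun z => (k ‖z‖ * σ (rot (-τ) z)) • (z * Complex.I))
    · exact h2.2 k2
    · exfalso
      have e1 := notMem_tsupport_iff_eventuallyEq.1 k1
      have e2 := notMem_tsupport_iff_eventuallyEq.1 k2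
      apply notMem_tsupport_iff_eventuallyEq.2 _ hz
      filter_upwards [e1, e2] with y hy1 hy2
      unfold tf
      rw [hy1, hy2]
      simp

lemma tf_norm (N k : ℝ → ℝ) (σ : ℂ → ℝ) (τ : ℝ) (z : ℂ) :
    ‖tf N k σ τ z‖ ^ 2 = (N ‖z‖ / ‖z‖) ^ 2 + (‖z‖ * (k ‖z‖ * σ (rot (-τ) z))) ^ 2 := by
  have e : tf N k σ τ z = (⟨N ‖z‖ / ‖z‖ ^ 2, k ‖z‖ * σ (rot (-τ) z)⟩ : ℂ) * z := by
    unfold tf rf
    generalize N ‖z‖ / ‖z‖ ^ 2 = a
    generalize k ‖z‖ * σ (rot (-τ) z) = c
    apply Complex.ext <;> simp <;> ring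
  rw [e, norm_mul, mul_pow, Complex.sq_norm ⟨_, _⟩, Complex.normSq_mk]
  by_cases h : ‖z‖ = 0
  · simp [h]
  · field_simp

lemma tf_dv2 {N k : ℝ → ℝ} (hN : Cc N) (hk : Cc k) {σ : ℂ → ℝ} (hσ : ContDiff ℝ 1 σ) (τ : ℝ)
    (z : ℂ) : dv2 (tf N k σ τ) z = deriv N ‖z‖ / ‖z‖ + k ‖z‖ * ad σ (rot (-τ) z) := by
  have h1 : ContDiff ℝ 1 (fun z => k ‖z‖ * σ (rot (-τ) z)) :=
    (rad_cd hk).mul (hσ.comp (rot_cd _))
  have h2 : ContDiff ℝ 1 (fun z : ℂ => z * Complex.I) := contDiff_id.mul contDiff_const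
  refine (dv2_add (rf_cd hN) (h1.smul h2) z).trans ?_
  rw [rf_dv2 hN]
  congr 1
  refine (dv2_smul h1 h2 z).trans ?_
  rw [dv2_mulI, mul_zero, zero_add]
  have h3 : HasFDerivAt (fun z => σ (rot (-τ) z)) ((fderiv ℝ σ (rot (-τ) z)).comp
      (Complex.exp ((-τ : ℝ) * Complex.I) • ContinuousLinearMap.id ℝ ℂ)) z := by
    have h4 : HasFDerivAt (rot (-τ)) (Complex.exp ((-τ : ℝ) * Complex.I) •
        ContinuousLinearMap.id ℝ ℂ) z := (hasFDerivAt_id z).const_mul _
    exact (hσ.differentiable (by norm_num) (rot (-τ) z)).hasFDerivAt.comp z h4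
  have h5 := (rad_hasFDerivAt hk z).mul h3
  have h6 : fderiv ℝ (fun z => k ‖z‖ * σ (rot (-τ) z)) z = _ := h5.fderiv
  rw [h6]
  have h7 : (innerSL ℝ z) (z * Complex.I) = 0 := by
    rw [inner_eq]
    simp
    ring
  simp only [_root_.add_apply, _root_.smul_apply, ContinuousLinearMap.comp_apply,
    ContinuousLinearMap.id_apply, smul_eq_mul, h7, mul_zero, add_zero]
  unfold ad rot
  congr 2
  ring

/-! ### the main inequality for smooth `σ` -/

lemma key {b : ℕ} {A : Set ℂ} (hA1 : A ⊆ D1) {C : ℝ}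
    (hP : P2 b (D1 \ {0}) A C) {N s : ℝ → ℝ} (hN : Cc N) (hs : Cc s)
    (hb : ∀ r ∈ Ioo (0 : ℝ) 1, s r ^ 2 + (N r / r) ^ 2 ≤ (1 - r) ^ (2 * b))
    {σ : ℂ → ℝ} (hσ : ContDiff ℝ 1 σ) (hσ1 : ∀ z, |σ z| ≤ 1) {h : ℝ} (hh : 0 < h) :
    ∫ z in A, s ‖z‖ / ‖z‖ * (σ z - σ (rot (-h) z)) ≤
      h * (C - ∫ z in A, deriv N ‖z‖ / ‖z‖) := by
  set k : ℝ → ℝ := fun r => s r / r ^ 1 with hkd
  have hk : Cc k := hs.div_pow 1
  have hk1 : ∀ r, k r = s r / r := fun r => by rw [hkd]; simp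
  have hfl : ∀ τ, Fl2 b (D1 \ {0}) (tf N k σ τ) := by
    intro τ
    refine ⟨tf_cd hN hk hσ τ, (tf_supp hN hk σ τ).1, (tf_supp hN hk σ τ).2, fun z hz => ?_⟩
    by_cases hz0 : z = 0
    · subst hz0
      have : tf N k σ τ 0 = 0 := by
        unfold tf rf
        simp
      rw [this]
      simp
    · have hn : 0 < ‖z‖ := norm_pos_iff.2 hz0
      have h1 := tf_norm N k σ τ z
      have h2 := hb ‖z‖ ⟨hn, hz⟩
      have h3 : (‖z‖ * (k ‖z‖ * σ (rot (-τ) z))) ^ 2 ≤ s ‖z‖ ^ 2 := by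
        rw [hk1]
        have : ‖z‖ * (s ‖z‖ / ‖z‖ * σ (rot (-τ) z)) = s ‖z‖ * σ (rot (-τ) z) := by
          field_simp
        rw [this, mul_pow]
        have h4 : σ (rot (-τ) z) ^ 2 ≤ 1 := by
          rw [sq_le_one_iff_abs_le_one]
          exact hσ1 _
        nlinarith [sq_nonneg (s ‖z‖)]
      have h5 : ‖tf N k σ τ z‖ ^ 2 ≤ ((1 - ‖z‖) ^ b) ^ 2 := by
        rw [h1, ← pow_mul, mul_comm b 2]
        linarith
      exact (sq_le_sq₀ (norm_nonneg _) (pow_nonneg (by linarith) _)).1 h5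
  -- integrability
  have hc1 : Continuous (fun z : ℂ => deriv N ‖z‖ / ‖z‖) := by
    have : (fun z : ℂ => deriv N ‖z‖ / ‖z‖) = dv2 (rf N) := by
      funext z
      rw [rf_dv2 hN]
    rw [this]
    exact dv2_cont (rf_cd hN)
  have hKA : A ⊆ closedBall 0 1 := hA1.trans ball_subset_closedBall
  have hi1 : IntegrableOn (fun z : ℂ => deriv N ‖z‖ / ‖z‖) A :=
    (hc1.continuousOn.integrableOn_compact (isCompact_closedBall (0 : ℂ) 1)).mono_set hKA
  have hkc : Continuous (fun z : ℂ => k ‖z‖) := (rad_cd hk).continuous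
  set F : ℝ → ℂ → ℝ := fun τ z => k ‖z‖ * ad σ (rot (-τ) z) with hF
  have hFc : Continuous (Function.uncurry F) := by
    have h1 : Continuous (fun p : ℝ × ℂ => rot (-p.1) p.2) :=
      rot_cont.comp (by fun_prop : Continuous fun p : ℝ × ℂ => (-p.1, p.2))
    exact (hkc.comp continuous_snd).mul ((ad_cont hσ).comp h1)
  have hFi : Integrable (Function.uncurry F) ((volume.restrict (Ioc 0 h)).prod
      (volume.restrict A)) := by
    rw [Measure.prod_restrict]
    have := (hFc.continuousOn.integrableOn_compact (μ := (volume.prod volume))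
      ((isCompact_Icc (a := (0 : ℝ)) (b := h)).prod (isCompact_closedBall (0 : ℂ) 1)))
    exact this.mono_set (prod_mono Ioc_subset_Icc_self hKA)
  have hG : ∀ τ, ∫ z in A, F τ z ≤ C - ∫ z in A, deriv N ‖z‖ / ‖z‖ := by
    intro τ
    have h1 := hP _ (hfl τ)
    simp_rw [tf_dv2 hN hk hσ τ] at h1
    have hi2 : IntegrableOn (F τ) A := by
      have : Continuous (F τ) := hFc.comp (by fun_prop : Continuous fun z : ℂ => (τ, z))
      exact (this.continuousOn.integrableOn_compact (isCompact_closedBall (0 : ℂ) 1)).mono_set hKA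
    rw [integral_add hi1 hi2] at h1
    linarith
  have hI : ∫ τ in (0 : ℝ)..h, ∫ z in A, F τ z ≤ h * (C - ∫ z in A, deriv N ‖z‖ / ‖z‖) := by
    have h1 : ∫ τ in (0 : ℝ)..h, ∫ z in A, F τ z ≤
        ∫ τ in (0 : ℝ)..h, (C - ∫ z in A, deriv N ‖z‖ / ‖z‖) := by
      apply intervalIntegral.integral_mono_on hh.le
      · rw [intervalIntegrable_iff_integrableOn_Ioc_of_le hh.le]
        exact hFi.integral_prod_left
      · exact intervalIntegrable_const
      · exact fun τ _ => hG τ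
    rwa [intervalIntegral.integral_const, sub_zero, smul_eq_mul] at h1
  refine le_trans (le_of_eq ?_) hI
  rw [intervalIntegral.integral_of_le hh.le, integral_integral_swap hFi]
  refine integral_congr_ae (Eventually.of_forall fun z => ?_)
  simp only [hF]
  rw [← intervalIntegral.integral_of_le hh.le, intervalIntegral.integral_const_mul, hk1]
  congr 1
  have h1 : ∫ τ in (0 : ℝ)..h, -ad σ (rot (-τ) z) = σ (rot (-h) z) - σ (rot (-0) z) :=
    intervalIntegral.integral_eq_sub_of_hasDerivAt (fun τ _ => ad_deriv hσ τ z) (by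
      apply Continuous.intervalIntegrable
      exact ((ad_cont hσ).comp (rot_cont.comp
        (by fun_prop : Continuous fun τ : ℝ => (-τ, z)))).neg)
  rw [intervalIntegral.integral_neg, neg_zero, rot_zero] at h1
  linarith

/-- change of the indicator under rotation -/
def ek (A : Set ℂ) (h : ℝ) (z : ℂ) : ℝ :=
  A.indicator (fun _ => (1 : ℝ)) z - A.indicator (fun _ => (1 : ℝ)) (rot h z)

lemma ek_meas {A : Set ℂ} (hA : MeasurableSet A) (h : ℝ) : Measurable (ek A h) := by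
  have h1 : Measurable (A.indicator (fun _ => (1 : ℝ))) := measurable_const.indicator hA
  exact h1.sub (h1.comp (rot_mp h).measurable)

lemma ek_abs (A : Set ℂ) (h : ℝ) (z : ℂ) : |ek A h z| ≤ 1 := by
  unfold ek
  by_cases h1 : z ∈ A <;> by_cases h2 : rot h z ∈ A <;> simp [h1, h2]

lemma ek_sq (A : Set ℂ) (h : ℝ) (z : ℂ) : ek A h z * ek A h z = |ek A h z| := by
  unfold ek
  by_cases h1 : z ∈ A <;> by_cases h2 : rot h z ∈ A <;> simp [h1, h2]

lemma key2 {b : ℕ} {A : Set ℂ} (hA : MeasurableSet A) (hA1 : A ⊆ D1) {C : ℝ}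
    (hP : P2 b (D1 \ {0}) A C) {N s : ℝ → ℝ} (hN : Cc N) (hs : Cc s)
    (hb : ∀ r ∈ Ioo (0 : ℝ) 1, s r ^ 2 + (N r / r) ^ 2 ≤ (1 - r) ^ (2 * b))
    {h : ℝ} (hh : 0 < h) :
    ∫ z, s ‖z‖ / ‖z‖ * |ek A h z| ≤ h * (C - ∫ z in A, deriv N ‖z‖ / ‖z‖) := by
  have hk : Cc (fun r => s r / r ^ 1) := hs.div_pow 1
  have hkc : Continuous (fun z : ℂ => s ‖z‖ / ‖z‖) := by
    simpa using (rad_cd hk).continuous
  have hks : HasCompactSupport (fun z : ℂ => s ‖z‖ / ‖z‖) :=
    (rad_tsupport hs (fun z hz => by rw [hz, zero_div])).1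
  have hki : Integrable (fun z : ℂ => s ‖z‖ / ‖z‖) := hkc.integrable_of_hasCompactSupport hks
  have hIm : Measurable (A.indicator (fun _ => (1 : ℝ))) := measurable_const.indicator hA
  have hIb : ∀ x, ‖A.indicator (fun _ => (1 : ℝ)) x‖ ≤ 1 := by
    intro x; by_cases hx : x ∈ A <;> simp [hx]
  have hsm : ∀ σ : ℂ → ℝ, ContDiff ℝ 1 σ → (∀ z, |σ z| ≤ 1) →
      ∫ z, s ‖z‖ / ‖z‖ * (σ z * ek A h z) ≤ h * (C - ∫ z in A, deriv N ‖z‖ / ‖z‖) := by
    intro σ hσ hσ1
    refine le_trans (le_of_eq ?_) (key hA1 hP hN hs hb hσ hσ1 hh)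
    have hσi : Integrable (fun z => s ‖z‖ / ‖z‖ * σ z) :=
      hki.mul_bdd hσ.continuous.aestronglyMeasurable (Eventually.of_forall hσ1)
    have hσi2 : Integrable (fun z => s ‖z‖ / ‖z‖ * σ (rot (-h) z)) :=
      hki.mul_bdd (hσ.continuous.comp (rot_cd _).continuous).aestronglyMeasurable
        (Eventually.of_forall fun z => hσ1 _)
    have e1 : ∫ z in A, s ‖z‖ / ‖z‖ * (σ z - σ (rot (-h) z)) =
        (∫ z in A, s ‖z‖ / ‖z‖ * σ z) - ∫ z in A, s ‖z‖ / ‖z‖ * σ (rot (-h) z) := by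
      rw [← integral_sub hσi.integrableOn hσi2.integrableOn]
      congr 1; ext z; ring
    have e2 : ∫ z in A, s ‖z‖ / ‖z‖ * σ z =
        ∫ z, s ‖z‖ / ‖z‖ * σ z * A.indicator (fun _ => (1 : ℝ)) z := by
      rw [← integral_indicator hA]
      congr 1; ext x
      by_cases hx : x ∈ A <;> simp [hx]
    have e3 : ∫ z in A, s ‖z‖ / ‖z‖ * σ (rot (-h) z) =
        ∫ z, s ‖z‖ / ‖z‖ * σ z * A.indicator (fun _ => (1 : ℝ)) (rot h z) := by
      rw [← integral_indicator hA,
        ← (rot_mp h).integral_comp (rot_me h)]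
      congr 1; ext x
      by_cases hx : rot h x ∈ A
      · rw [indicator_of_mem hx, indicator_of_mem hx, rot_norm, rot_rot]
        simp [rot_zero]
      · rw [indicator_of_notMem hx, indicator_of_notMem hx]
        simp
    have j1 : Integrable (fun z => s ‖z‖ / ‖z‖ * σ z * A.indicator (fun _ => (1 : ℝ)) z) :=
      hσi.mul_bdd hIm.aestronglyMeasurable (Eventually.of_forall hIb)
    have j2 : Integrable (fun z => s ‖z‖ / ‖z‖ * σ z *
        A.indicator (fun _ => (1 : ℝ)) (rot h z)) :=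
      hσi.mul_bdd (hIm.comp (rot_mp h).measurable).aestronglyMeasurable
        (Eventually.of_forall fun x => hIb _)
    rw [e1, e2, e3, ← integral_sub j1 j2]
    congr 1; ext x
    unfold ek; ring
  -- mollification
  obtain ⟨g, a1, a2, a3, a4, a5⟩ := Pool.Agent.TH742.HU.moll (ek A h) (ek_meas hA h) 1
    (ek_abs A h) (closedBall 0 1) (isCompact_closedBall _ _) (by
      intro x hx
      unfold ek
      rw [indicator_of_notMem, indicator_of_notMem, sub_zero]
      · intro h1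
        have := hA1 h1
        rw [D1, mem_ball_zero_iff, rot_norm] at this
        rw [mem_closedBall_zero_iff, not_le] at hx
        linarith
      · intro h1
        exact hx (ball_subset_closedBall (hA1 h1)))
  have hlim : Tendsto (fun n => ∫ z, s ‖z‖ / ‖z‖ * (g n z * ek A h z)) atTop
      (𝓝 (∫ z, s ‖z‖ / ‖z‖ * (ek A h z * ek A h z))) := by
    refine tendsto_integral_of_dominated_convergence (fun z => |s ‖z‖ / ‖z‖|) ?_ hki.abs ?_ ?_
    · exact fun n => (hkc.measurable.mul ((a1 n).continuous.measurable.mul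
        (ek_meas hA h))).aestronglyMeasurable
    · intro n
      refine Eventually.of_forall fun x => ?_
      rw [norm_mul, norm_mul, Real.norm_eq_abs, Real.norm_eq_abs, Real.norm_eq_abs]
      have h1 := a3 n x 1 zero_le_one (fun y _ => ek_abs A h y)
      have h2 := ek_abs A h x
      have h3 : |g n x| * |ek A h x| ≤ 1 := mul_le_one₀ h1 (abs_nonneg _) h2
      exact mul_le_of_le_one_right (abs_nonneg _) h3
    · filter_upwards [a5] with x hx
      exact (hx.mul_const _).const_mul _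
  have h9 := le_of_tendsto hlim (Eventually.of_forall fun n => hsm (g n) (a1 n)
    (fun z => a3 n z 1 zero_le_one (fun y _ => ek_abs A h y)))
  simp_rw [ek_sq] at h9
  exact h9

/-! ### the limit -/

theorem t_xray : S_xray := by
  intro b A hA hA1 C hP N s hN1 hN2 hN3 hs1 hs2 hs3 hs0 hb
  have hN : Cc N := ⟨hN1, hN2, hN3⟩
  have hs : Cc s := ⟨hs1, hs2, hs3⟩
  have hdN : Continuous (deriv N) := hN1.continuous_deriv (by norm_num)
  have hKA : A ⊆ closedBall 0 1 := hA1.trans ball_subset_closedBall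
  have hT : ∫ z in A, deriv N ‖z‖ / ‖z‖ = ∫ r in Ioo (0 : ℝ) 1, deriv N r * al A r := by
    have hc1 : Continuous (fun z : ℂ => deriv N ‖z‖ / ‖z‖) := by
      have : (fun z : ℂ => deriv N ‖z‖ / ‖z‖) = dv2 (rf N) := by
        funext z
        rw [rf_dv2 hN]
      rw [this]
      exact dv2_cont (rf_cd hN)
    have hi1 : IntegrableOn (fun z : ℂ => deriv N ‖z‖ / ‖z‖) A :=
      (hc1.continuousOn.integrableOn_compact (isCompact_closedBall (0 : ℂ) 1)).mono_set hKA
    rw [pol_int hA hA1 (g := fun r => deriv N r / r) (hdN.measurable.div measurable_id) hi1]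
    refine setIntegral_congr_fun measurableSet_Ioo fun r hr => ?_
    have : r ≠ 0 := hr.1.ne'
    field_simp
  rw [← hT]
  set D : ℝ := C - ∫ z in A, deriv N ‖z‖ / ‖z‖ with hD
  have hkc : Continuous (fun z : ℂ => s ‖z‖ / ‖z‖) := by
    simpa using (rad_cd (hs.div_pow 1)).continuous
  have hks : HasCompactSupport (fun z : ℂ => s ‖z‖ / ‖z‖) :=
    (rad_tsupport hs (fun z hz => by rw [hz, zero_div])).1
  have hki : Integrable (fun z : ℂ => s ‖z‖ / ‖z‖) := hkc.integrable_of_hasCompactSupport hks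
  have hnn : ∀ (h : ℝ) (z : ℂ), 0 ≤ s ‖z‖ / ‖z‖ * |ek A h z| := fun h z =>
    mul_nonneg (div_nonneg (hs0 _) (norm_nonneg _)) (abs_nonneg _)
  have hi : ∀ h : ℝ, Integrable (fun z => s ‖z‖ / ‖z‖ * |ek A h z|) := fun h =>
    hki.mul_bdd (c := 1) (ek_meas hA h).abs.aestronglyMeasurable
      (Eventually.of_forall fun z => by simpa using ek_abs A h z)
  have hkey : ∀ h : ℝ, 0 < h → ∫ z, s ‖z‖ / ‖z‖ * |ek A h z| ≤ h * D := fun h hh =>
    key2 hA hA1 hP hN hs hb hh
  have hD0 : 0 ≤ D := by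
    have h1 := hkey 1 one_pos
    have h2 : 0 ≤ ∫ z, s ‖z‖ / ‖z‖ * |ek A 1 z| := integral_nonneg (hnn 1)
    linarith
  -- the slices
  set Sr : ℝ → Set ℝ := fun r => {θ | pt r θ ∈ A} with hSr
  have hek : ∀ h r θ, ek A h (pt r θ) = (Sr r).indicator (fun _ => (1 : ℝ)) θ -
      (Sr r).indicator (fun _ => (1 : ℝ)) (θ + h) := by
    intro h r θ
    unfold ek
    rw [rot_pt]
    rfl
  have hSm : ∀ r, MeasurableSet (Sr r) := fun r =>
    (pt_cont.comp (by fun_prop : Continuous fun θ : ℝ => (r, θ))).measurable hA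
  -- the function of `n` and `r`
  set Φ : ℕ → ℝ → ℝ≥0∞ := fun n r => ENNReal.ofReal (s r) * (ENNReal.ofReal (n / (2 * π)) *
    ∫⁻ θ in Ioo (-π) π, ENNReal.ofReal |ek A (2 * π / n) (pt r θ)|) with hΦ
  have hin : ∀ h, Measurable (fun r => ∫⁻ θ in Ioo (-π) π, ENNReal.ofReal |ek A h (pt r θ)|) := by
    intro h
    have : Measurable (fun p : ℝ × ℝ => ENNReal.ofReal |ek A h (pt p.1 p.2)|) :=
      (((ek_meas hA h).comp pt_cont.measurable).abs).ennreal_ofReal
    exact this.lintegral_prod_right'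
  have hΦm : ∀ n, Measurable (Φ n) := fun n =>
    (hs1.continuous.measurable.ennreal_ofReal).mul ((hin _).const_mul _)
  set G : Set ℝ := {r : ℝ | r ∈ Ioo (0 : ℝ) 1 ∧ 0 < al A r ∧ al A r < 2 * π} with hG
  have hGm : MeasurableSet G := by
    have h1 : MeasurableSet {r | 0 < al A r} := measurableSet_lt measurable_const (al_meas hA)
    have h2 : MeasurableSet {r | al A r < 2 * π} := measurableSet_lt (al_meas hA) measurable_const
    exact measurableSet_Ioo.inter (h1.inter h2)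
  have hGs : G ⊆ Ioi 0 := fun r hr => hr.1.1
  have hle : ∀ n : ℕ, 0 < n → ∫⁻ r in G, Φ n r ≤ ENNReal.ofReal D := by
    intro n hn
    have hn0 : (0 : ℝ) < n := by exact_mod_cast hn
    have h1 := hkey (2 * π / n) (by positivity)
    have h2 : ∫⁻ z, ENNReal.ofReal (s ‖z‖ / ‖z‖ * |ek A (2 * π / n) z|) ≤
        ENNReal.ofReal (2 * π / n * D) := by
      rw [← ofReal_integral_eq_lintegral_ofReal (hi _) (Eventually.of_forall (hnn _))]
      exact ENNReal.ofReal_le_ofReal h1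
    have hm : Measurable (fun z : ℂ => ENNReal.ofReal (s ‖z‖ / ‖z‖ * |ek A (2 * π / n) z|)) :=
      (hkc.measurable.mul (ek_meas hA _).abs).ennreal_ofReal
    rw [pol_lint hm] at h2
    have h3 : ∫⁻ r in G, Φ n r ≤ ENNReal.ofReal (n / (2 * π)) *
        ∫⁻ r in Ioi (0 : ℝ), ∫⁻ θ in Ioo (-π) π, ENNReal.ofReal r *
          ENNReal.ofReal (s ‖pt r θ‖ / ‖pt r θ‖ * |ek A (2 * π / n) (pt r θ)|) := by
      have h4 : ∀ r ∈ Ioi (0 : ℝ), ∫⁻ θ in Ioo (-π) π, ENNReal.ofReal r *
          ENNReal.ofReal (s ‖pt r θ‖ / ‖pt r θ‖ * |ek A (2 * π / n) (pt r θ)|) =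
          ENNReal.ofReal (s r) *
            ∫⁻ θ in Ioo (-π) π, ENNReal.ofReal |ek A (2 * π / n) (pt r θ)| := by
        intro r hr
        have hr0 : (0 : ℝ) < r := hr
        have hm2 : Measurable (fun θ => ENNReal.ofReal |ek A (2 * π / n) (pt r θ)|) :=
          (((ek_meas hA _).comp (pt_cont.comp
            (by fun_prop : Continuous fun θ : ℝ => (r, θ))).measurable).abs).ennreal_ofReal
        rw [← lintegral_const_mul _ hm2]
        refine lintegral_congr fun θ => ?_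
        rw [pt_norm hr0.le, ← ENNReal.ofReal_mul hr0.le, ← ENNReal.ofReal_mul (hs0 r)]
        congr 1
        field_simp
      have hm3 : Measurable (fun r => ENNReal.ofReal (s r) *
          ∫⁻ θ in Ioo (-π) π, ENNReal.ofReal |ek A (2 * π / n) (pt r θ)|) :=
        (hs1.continuous.measurable.ennreal_ofReal).mul (hin _)
      rw [setLIntegral_congr_fun measurableSet_Ioi h4, ← lintegral_const_mul _ hm3]
      refine (lintegral_mono_set hGs).trans (le_of_eq ?_)
      refine lintegral_congr fun r => ?_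
      simp only [hΦ]
      ring
    refine h3.trans ?_
    refine (mul_le_mul_right h2 _).trans ?_
    rw [← ENNReal.ofReal_mul (by positivity)]
    apply ENNReal.ofReal_le_ofReal
    apply le_of_eq
    field_simp
  have hfat : ∫⁻ r in G, liminf (fun n => Φ n r) atTop ≤ ENNReal.ofReal D := by
    refine (lintegral_liminf_le hΦm).trans ?_
    refine (liminf_le_liminf (v := fun _ : ℕ => ENNReal.ofReal D) ?_).trans
      (le_of_eq (liminf_const _))
    filter_upwards [eventually_gt_atTop 0] with n hn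
    exact hle n hn
  -- the lower bound
  have hlow : ∀ δ : ℝ, 0 < δ → ∀ r ∈ G, ENNReal.ofReal ((2 - δ) * s r) ≤
      liminf (fun n => Φ n r) atTop := by
    intro δ hδ r hr
    have hr0 : (0 : ℝ) < r := hr.1.1
    have hsl : Sr r ∩ Ioo (-π) π = sl A r := by
      ext θ
      simp only [hSr, sl, mem_inter_iff, mem_ofPred_eq]
      tauto
    have c1 : 0 < volume (Sr r ∩ Ioo (-π) π) := by
      rw [hsl]
      have := hr.2.1
      rw [al_eq] at this
      exact (ENNReal.toReal_pos_iff.1 this).1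
    have c2 : volume (Sr r ∩ Ioo (-π) π) < ENNReal.ofReal (2 * π) := by
      rw [hsl, ← ofReal_al]
      exact (ENNReal.ofReal_lt_ofReal_iff (by positivity)).2 hr.2.2
    have hc := t_circ (Sr r) (hSm r) (fun θ => by
      simp only [hSr, mem_ofPred_eq, pt_per]) c1 c2 δ hδ
    refine le_liminf_of_le (by isBoundedDefault) ?_
    filter_upwards [hc] with n hn
    simp only [hΦ]
    have e1 : ∫⁻ θ in Ioo (-π) π, ENNReal.ofReal |ek A (2 * π / n) (pt r θ)| =
        ENNReal.ofReal (∫ θ in Ioo (-π) π, |(Sr r).indicator (fun _ => (1 : ℝ)) (θ + 2 * π / n) -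
          (Sr r).indicator (fun _ => (1 : ℝ)) θ|) := by
      rw [ofReal_integral_eq_lintegral_ofReal]
      · refine lintegral_congr fun θ => ?_
        rw [hek, abs_sub_comm]
      · have hI : Measurable ((Sr r).indicator (fun _ => (1 : ℝ))) :=
          measurable_const.indicator (hSm r)
        refine Measure.integrableOn_of_bounded (M := 1) (by simp)
          ((hI.comp (measurable_id.add_const _)).sub hI).abs.aestronglyMeasurable
          (Eventually.of_forall fun θ => ?_)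
        have := ek_abs A (2 * π / n) (pt r θ)
        rw [hek, abs_sub_comm] at this
        simpa using this
      · exact Eventually.of_forall fun θ => abs_nonneg _
    rw [e1, ← ENNReal.ofReal_mul (by positivity), ← ENNReal.ofReal_mul (hs0 r)]
    apply ENNReal.ofReal_le_ofReal
    rw [mul_comm]
    exact mul_le_mul_of_nonneg_left hn (hs0 r)
  have hsi : IntegrableOn s G := (hs1.continuous.integrable_of_hasCompactSupport hs2).integrableOn
  have hfin : ∀ δ : ℝ, 0 < δ → δ < 2 → (2 - δ) * ∫ r in G, s r ≤ D := by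
    intro δ hδ hδ2
    have h1 : ∫⁻ r in G, ENNReal.ofReal ((2 - δ) * s r) ≤ ENNReal.ofReal D :=
      (setLIntegral_mono' hGm (hlow δ hδ)).trans hfat
    rw [← ofReal_integral_eq_lintegral_ofReal (hsi.const_mul (2 - δ)) (Eventually.of_forall
      fun r => mul_nonneg (by linarith) (hs0 r)), integral_const_mul] at h1
    exact (ENNReal.ofReal_le_ofReal_iff hD0).1 h1
  have hlim : Tendsto (fun δ : ℝ => (2 - δ) * ∫ r in G, s r) (𝓝[>] 0)
      (𝓝 ((2 - 0) * ∫ r in G, s r)) := by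
    have : Continuous (fun δ : ℝ => (2 - δ) * ∫ r in G, s r) := by fun_prop
    exact (this.tendsto 0).mono_left nhdsWithin_le_nhds
  have := le_of_tendsto hlim (by
    filter_upwards [Ioo_mem_nhdsGT (show (0 : ℝ) < 2 by norm_num)] with δ hδ
    exact hfin δ hδ.1 hδ.2)
  rw [sub_zero] at this
  linarith

end Pool.Agent.Y290.MI
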